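import Pool.Agent.R111.PG.NoFix
import Pool.Agent.H435R3.Paley.Core

set_option autoImplicit false

/-! # The 4-cycle norm of the matrix `χ (a + b)` -/

open Finset

namespace Pool.Agent.R111.PG

open Pool.Agent.H435R3.Paley (norm_unit)

section
variable {p : ℕ} [Fact p.Prime]

lemma conj_eq (χ : DirichletCharacter ℂ p) (y : ZMod p) : (starRingEnd ℂ) (χ y) = χ y⁻¹ := by
  rw [← MulChar.inv_apply', ← MulChar.star_apply' χ y, starRingEnd_apply]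

/-- the 4-cycle sum -/
noncomputable def cyc (χ : DirichletCharacter ℂ p) (A B : Finset (ZMod p)) : ℝ :=
  ∑ a ∈ A, ∑ a' ∈ A, ‖∑ b ∈ B, χ (a + b) * (starRingEnd ℂ) (χ (a' + b))‖ ^ 2

/-- the cross-ratio -/
noncomputable def rho (a a' b b' : ZMod p) : ZMod p :=
  (a + b) * (a' + b)⁻¹ * ((a + b')⁻¹ * (a' + b'))

lemma rho_swap (a a' b b' : ZMod p) : rho a a' b b' = rho b b' a a' := by
  unfold rho
  rw [add_comm a b, add_comm a' b, add_comm a b', add_comm a' b']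
  ring

lemma cyc_nonneg (χ : DirichletCharacter ℂ p) (A B : Finset (ZMod p)) : 0 ≤ cyc χ A B := by
  unfold cyc
  positivity

/-- the product set of the quadruples -/
def V (A B : Finset (ZMod p)) : Finset (ZMod p × ZMod p × ZMod p × ZMod p) :=
  A ×ˢ A ×ˢ B ×ˢ B

noncomputable def Rv (v : ZMod p × ZMod p × ZMod p × ZMod p) : ZMod p :=
  rho v.1 v.2.1 v.2.2.1 v.2.2.2

lemma cyc_eq (χ : DirichletCharacter ℂ p) (A B : Finset (ZMod p)) :
    (cyc χ A B : ℂ) = ∑ v ∈ V A B, χ (Rv v) := by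
  unfold cyc V Rv
  rw [Finset.sum_product]
  push_cast
  refine sum_congr rfl fun a _ => ?_
  rw [Finset.sum_product]
  refine sum_congr rfl fun a' _ => ?_
  rw [Finset.sum_product, ← Complex.mul_conj', map_sum, sum_mul_sum]
  refine sum_congr rfl fun b _ => sum_congr rfl fun b' _ => ?_
  rw [map_mul, Complex.conj_conj, conj_eq, conj_eq, ← map_mul, ← map_mul, ← map_mul]
  rfl

lemma cyc_swap (χ : DirichletCharacter ℂ p) (A B : Finset (ZMod p)) :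
    cyc χ A B = cyc χ B A := by
  have h : (cyc χ A B : ℂ) = cyc χ B A := by
    rw [cyc_eq, cyc_eq]
    unfold V Rv
    simp only [Finset.sum_product]
    have e : ∀ a ∈ A, ∑ a' ∈ A, ∑ b ∈ B, ∑ b' ∈ B, χ (rho a a' b b') =
        ∑ b ∈ B, ∑ b' ∈ B, ∑ a' ∈ A, χ (rho b b' a a') := by
      intro a _
      rw [sum_comm]
      refine sum_congr rfl fun b _ => ?_
      rw [sum_comm]
      refine sum_congr rfl fun b' _ => sum_congr rfl fun a' _ => ?_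
      rw [rho_swap]
    rw [sum_congr rfl e, sum_comm]
    refine sum_congr rfl fun b _ => ?_
    rw [sum_comm]
  exact_mod_cast h

omit [Fact p.Prime] in
lemma card_V (A B : Finset (ZMod p)) : ((V A B).card : ℝ) = ((A.card : ℝ) * B.card) ^ 2 := by
  unfold V
  rw [card_product, card_product, card_product]
  push_cast
  ring

/-- the bound for bilinear forms -/
lemma form_le (χ : DirichletCharacter ℂ p) (A B : Finset (ZMod p)) (α β : ZMod p → ℂ) :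
    ‖∑ a ∈ A, ∑ b ∈ B, α a * β b * χ (a + b)‖ ^ 4 ≤
      (∑ a ∈ A, ‖α a‖ ^ 2) ^ 2 * (∑ b ∈ B, ‖β b‖ ^ 2) ^ 2 * cyc χ A B := by
  obtain ⟨T, hT⟩ : ∃ T : ℝ, T = ∑ b ∈ B, ‖∑ a ∈ A, α a * χ (a + b)‖ ^ 2 := ⟨_, rfl⟩
  have hT0 : 0 ≤ T := by rw [hT]; positivity
  have h1 : ‖∑ a ∈ A, ∑ b ∈ B, α a * β b * χ (a + b)‖ ^ 2 ≤ (∑ b ∈ B, ‖β b‖ ^ 2) * T := by
    have e : ∑ a ∈ A, ∑ b ∈ B, α a * β b * χ (a + b) = ∑ b ∈ B, β b * ∑ a ∈ A, α a * χ (a + b) := by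
      rw [sum_comm]
      refine sum_congr rfl fun b _ => ?_
      rw [mul_sum]
      exact sum_congr rfl fun a _ => by ring
    rw [e]
    have h2 : ‖∑ b ∈ B, β b * ∑ a ∈ A, α a * χ (a + b)‖ ≤
        ∑ b ∈ B, ‖β b‖ * ‖∑ a ∈ A, α a * χ (a + b)‖ :=
      (norm_sum_le _ _).trans (le_of_eq (sum_congr rfl fun b _ => norm_mul _ _))
    calc _ ≤ (∑ b ∈ B, ‖β b‖ * ‖∑ a ∈ A, α a * χ (a + b)‖) ^ 2 :=
          pow_le_pow_left₀ (norm_nonneg _) h2 2
      _ ≤ (∑ b ∈ B, ‖β b‖ ^ 2) * ∑ b ∈ B, ‖∑ a ∈ A, α a * χ (a + b)‖ ^ 2 :=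
          sum_mul_sq_le_sq_mul_sq _ _ _
      _ = _ := by rw [hT]
  have h3 : T ^ 2 ≤ (∑ a ∈ A, ‖α a‖ ^ 2) ^ 2 * cyc χ A B := by
    obtain ⟨G, hG⟩ : ∃ G : ZMod p → ZMod p → ℂ, G = fun a a' =>
      ∑ b ∈ B, χ (a + b) * (starRingEnd ℂ) (χ (a' + b)) := ⟨_, rfl⟩
    have e1 : (T : ℂ) = ∑ a ∈ A, ∑ a' ∈ A, α a * (starRingEnd ℂ) (α a') * G a a' := by
      rw [hT, hG]
      push_cast
      have e2 : ∀ b ∈ B, ((‖∑ a ∈ A, α a * χ (a + b)‖ : ℂ)) ^ 2 =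
          ∑ a ∈ A, ∑ a' ∈ A, α a * (starRingEnd ℂ) (α a') *
            (χ (a + b) * (starRingEnd ℂ) (χ (a' + b))) := by
        intro b _
        rw [← Complex.mul_conj', map_sum, sum_mul_sum]
        refine sum_congr rfl fun a _ => sum_congr rfl fun a' _ => ?_
        rw [map_mul]
        ring
      rw [sum_congr rfl e2, sum_comm]
      refine sum_congr rfl fun a _ => ?_
      rw [sum_comm]
      refine sum_congr rfl fun a' _ => ?_
      rw [mul_sum]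
    have e3 : T ≤ ∑ q ∈ A ×ˢ A, (‖α q.1‖ * ‖α q.2‖) * ‖G q.1 q.2‖ := by
      have e4 : T = ‖(T : ℂ)‖ := by rw [Complex.norm_real, Real.norm_of_nonneg hT0]
      rw [e4, e1, Finset.sum_product]
      refine (norm_sum_le _ _).trans (sum_le_sum fun a _ => ?_)
      refine (norm_sum_le _ _).trans (sum_le_sum fun a' _ => le_of_eq ?_)
      rw [norm_mul, norm_mul, RCLike.norm_conj]
    have e5 : ∑ q ∈ A ×ˢ A, (‖α q.1‖ * ‖α q.2‖) ^ 2 = (∑ a ∈ A, ‖α a‖ ^ 2) ^ 2 := by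
      rw [Finset.sum_product, sq (∑ a ∈ A, ‖α a‖ ^ 2), sum_mul_sum]
      exact sum_congr rfl fun a _ => sum_congr rfl fun a' _ => mul_pow _ _ _
    have e6 : ∑ q ∈ A ×ˢ A, ‖G q.1 q.2‖ ^ 2 = cyc χ A B := by
      rw [Finset.sum_product, hG]
      rfl
    calc T ^ 2 ≤ (∑ q ∈ A ×ˢ A, (‖α q.1‖ * ‖α q.2‖) * ‖G q.1 q.2‖) ^ 2 :=
          pow_le_pow_left₀ hT0 e3 2
      _ ≤ (∑ q ∈ A ×ˢ A, (‖α q.1‖ * ‖α q.2‖) ^ 2) * ∑ q ∈ A ×ˢ A, ‖G q.1 q.2‖ ^ 2 :=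
          sum_mul_sq_le_sq_mul_sq _ _ _
      _ = _ := by rw [e5, e6]
  calc _ = (‖∑ a ∈ A, ∑ b ∈ B, α a * β b * χ (a + b)‖ ^ 2) ^ 2 := by ring
    _ ≤ ((∑ b ∈ B, ‖β b‖ ^ 2) * T) ^ 2 := pow_le_pow_left₀ (by positivity) h1 2
    _ = (∑ b ∈ B, ‖β b‖ ^ 2) ^ 2 * T ^ 2 := by ring
    _ ≤ (∑ b ∈ B, ‖β b‖ ^ 2) ^ 2 * ((∑ a ∈ A, ‖α a‖ ^ 2) ^ 2 * cyc χ A B) :=
        mul_le_mul_of_nonneg_left h3 (by positivity)
    _ = _ := by ring

/-- correlations of a nontrivial character -/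
lemma corr (χ : DirichletCharacter ℂ p) (hχ : χ ≠ 1) (b c : ZMod p) :
    ∑ x : ZMod p, χ (x + b) * (starRingEnd ℂ) (χ (x + c)) =
      (if b = c then (p : ℂ) else 0) - 1 := by
  classical
  have h1 : ∑ x : ZMod p, χ (x + b) * (starRingEnd ℂ) (χ (x + c)) =
      ∑ y : ZMod p, χ ((y + (b - c)) * y⁻¹) := by
    refine Fintype.sum_equiv (Equiv.addRight c) _ _ fun x => ?_
    simp only [Equiv.coe_addRight]
    rw [conj_eq, ← map_mul]
    congr 2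
    ring
  rw [h1]
  have h2 : ∀ y : ZMod p, χ ((y + (b - c)) * y⁻¹) =
      χ (1 + (b - c) * y⁻¹) - if y = 0 then 1 else 0 := by
    intro y
    split_ifs with hy
    · rw [hy, inv_zero, mul_zero, mul_zero, add_zero, map_one, sub_self]
      exact MulChar.map_zero χ
    · rw [sub_zero]
      congr 1
      field_simp
  rw [sum_congr rfl fun y _ => h2 y, sum_sub_distrib, sum_ite_eq' univ (0 : ZMod p),
    if_pos (mem_univ _)]
  congr 1
  by_cases hbc : b = c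
  · rw [if_pos hbc, hbc]
    simp
  · rw [if_neg hbc]
    have hd : b - c ≠ 0 := sub_ne_zero.2 hbc
    have h4 : ∑ y : ZMod p, χ (1 + (b - c) * y⁻¹) = ∑ z : ZMod p, χ z := by
      let e : ZMod p ≃ ZMod p :=
        ((Equiv.inv (ZMod p)).trans (Equiv.mulLeft₀ (b - c) hd)).trans (Equiv.addLeft 1)
      refine Fintype.sum_equiv e _ _ fun y => ?_
      rfl
    rw [h4, MulChar.sum_eq_zero_of_ne_one hχ]

/-- the second moment with weights -/
lemma wsecond (χ : DirichletCharacter ℂ p) (hχ : χ ≠ 1) (B : Finset (ZMod p)) (β : ZMod p → ℂ) :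
    ∑ x : ZMod p, ‖∑ b ∈ B, β b * χ (x + b)‖ ^ 2 ≤ p * ∑ b ∈ B, ‖β b‖ ^ 2 := by
  classical
  have hexp : ((∑ x : ZMod p, ‖∑ b ∈ B, β b * χ (x + b)‖ ^ 2 : ℝ) : ℂ) =
      ((p * ∑ b ∈ B, ‖β b‖ ^ 2 - ‖∑ b ∈ B, β b‖ ^ 2 : ℝ) : ℂ) := by
    push_cast
    have h1 : ∀ x : ZMod p, ((‖∑ b ∈ B, β b * χ (x + b)‖ : ℂ)) ^ 2 =
        ∑ b ∈ B, ∑ c ∈ B, β b * (starRingEnd ℂ) (β c) *
          (χ (x + b) * (starRingEnd ℂ) (χ (x + c))) := by
      intro x
      rw [← Complex.mul_conj', map_sum, sum_mul_sum]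
      refine sum_congr rfl fun b _ => sum_congr rfl fun c _ => ?_
      rw [map_mul]
      ring
    rw [sum_congr rfl fun x _ => h1 x, sum_comm]
    have h2 : ∀ b ∈ B, ∑ x : ZMod p, ∑ c ∈ B, β b * (starRingEnd ℂ) (β c) *
          (χ (x + b) * (starRingEnd ℂ) (χ (x + c))) =
        p * (β b * (starRingEnd ℂ) (β b)) - β b * (starRingEnd ℂ) (∑ c ∈ B, β c) := by
      intro b hb
      rw [sum_comm]
      have h3 : ∀ c ∈ B, ∑ x : ZMod p, β b * (starRingEnd ℂ) (β c) *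
          (χ (x + b) * (starRingEnd ℂ) (χ (x + c))) =
          (if b = c then p * (β b * (starRingEnd ℂ) (β c)) else 0) -
            β b * (starRingEnd ℂ) (β c) := by
        intro c _
        rw [← mul_sum, corr χ hχ]
        split_ifs <;> ring
      rw [sum_congr rfl h3, sum_sub_distrib, sum_ite_eq B b, if_pos hb, ← mul_sum, map_sum]
    rw [sum_congr rfl h2, sum_sub_distrib, ← mul_sum, ← sum_mul, Complex.mul_conj']
    congr 2
    exact sum_congr rfl fun b _ => Complex.mul_conj' _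
  have h := Complex.ofReal_injective hexp
  rw [h]
  have : 0 ≤ ‖∑ b ∈ B, β b‖ ^ 2 := by positivity
  linarith

lemma cyc_le (χ : DirichletCharacter ℂ p) (hχ : χ ≠ 1) (A B : Finset (ZMod p)) :
    cyc χ A B ≤ p * (A.card * B.card) := by
  unfold cyc
  rw [sum_comm]
  have h1 : ∀ a' ∈ A, ∑ a ∈ A, ‖∑ b ∈ B, χ (a + b) * (starRingEnd ℂ) (χ (a' + b))‖ ^ 2 ≤
      p * B.card := by
    intro a' _
    have h2 := wsecond χ hχ B (fun b => (starRingEnd ℂ) (χ (a' + b)))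
    have h3 : ∑ b ∈ B, ‖(starRingEnd ℂ) (χ (a' + b))‖ ^ 2 ≤ B.card := by
      calc _ ≤ ∑ b ∈ B, (1 : ℝ) := by
            refine sum_le_sum fun b _ => ?_
            rw [RCLike.norm_conj]
            exact pow_le_one₀ (norm_nonneg _) (χ.norm_le_one _)
        _ = _ := by simp
    calc ∑ a ∈ A, ‖∑ b ∈ B, χ (a + b) * (starRingEnd ℂ) (χ (a' + b))‖ ^ 2 ≤
        ∑ a : ZMod p, ‖∑ b ∈ B, χ (a + b) * (starRingEnd ℂ) (χ (a' + b))‖ ^ 2 :=
          sum_le_sum_of_subset_of_nonneg (subset_univ _) fun _ _ _ => by positivity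
      _ = ∑ a : ZMod p, ‖∑ b ∈ B, (starRingEnd ℂ) (χ (a' + b)) * χ (a + b)‖ ^ 2 := by
          refine sum_congr rfl fun a _ => ?_
          congr 2
          exact sum_congr rfl fun b _ => mul_comm _ _
      _ ≤ _ := h2.trans (mul_le_mul_of_nonneg_left h3 (Nat.cast_nonneg _))
  refine (sum_le_sum h1).trans (le_of_eq ?_)
  rw [sum_const, nsmul_eq_mul]
  ring

/-- the sum of the characters of a set -/
noncomputable def Kx (X : Finset (DirichletCharacter ℂ p)) (w : ZMod p) : ℂ := ∑ χ ∈ X, χ w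

/-- the large spectrum -/
noncomputable def Zs (X : Finset (DirichletCharacter ℂ p)) (θ : ℝ) : Finset (ZMod p) := by
  classical
  exact univ.filter fun w => θ ^ 2 / 2 * X.card ≤ ‖Kx X w‖

lemma mem_Zs (X : Finset (DirichletCharacter ℂ p)) (θ : ℝ) (w : ZMod p) :
    w ∈ Zs X θ ↔ θ ^ 2 / 2 * X.card ≤ ‖Kx X w‖ := by
  unfold Zs
  simp

omit [Fact p.Prime] in
lemma Kx_le (X : Finset (DirichletCharacter ℂ p)) (w : ZMod p) : ‖Kx X w‖ ≤ X.card := by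
  unfold Kx
  refine (norm_sum_le _ _).trans ?_
  refine (sum_le_card_nsmul _ _ 1 fun χ _ => χ.norm_le_one _).trans ?_
  simp

lemma zero_Zs (X : Finset (DirichletCharacter ℂ p)) (θ : ℝ) (hθ : 0 < θ) (hX : X.Nonempty) :
    (0 : ZMod p) ∉ Zs X θ := by
  rw [mem_Zs]
  have h1 : Kx X (0 : ZMod p) = 0 := by
    unfold Kx
    exact sum_eq_zero fun χ _ => MulChar.map_zero χ
  rw [h1, norm_zero, not_le]
  have : (0 : ℝ) < X.card := by exact_mod_cast hX.card_pos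
  positivity

lemma Kx_sq (X : Finset (DirichletCharacter ℂ p)) : ∑ w : ZMod p, ‖Kx X w‖ ^ 2 ≤ p * X.card := by
  classical
  have h0 : ∀ χ χ' : DirichletCharacter ℂ p, (∑ w : ZMod p, χ w * (starRingEnd ℂ) (χ' w)).re ≤
      if χ = χ' then (p : ℝ) else 0 := by
    intro χ χ'
    split_ifs with h
    · refine (Complex.re_le_norm _).trans ((norm_sum_le _ _).trans ?_)
      calc ∑ w : ZMod p, ‖χ w * (starRingEnd ℂ) (χ' w)‖ ≤ ∑ _w : ZMod p, (1 : ℝ) := by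
            refine sum_le_sum fun x _ => ?_
            rw [norm_mul, RCLike.norm_conj]
            exact mul_le_one₀ (χ.norm_le_one _) (norm_nonneg _) (χ'.norm_le_one _)
        _ = p := by simp
    · have h1 : ∑ w : ZMod p, χ w * (starRingEnd ℂ) (χ' w) = ∑ w : ZMod p, (χ * χ'⁻¹) w := by
        refine sum_congr rfl fun w _ => ?_
        rw [MulChar.mul_apply, MulChar.inv_apply', conj_eq]
      have h2 : χ * χ'⁻¹ ≠ 1 := by
        intro h3
        exact h (mul_inv_eq_one.1 h3)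
      rw [h1, MulChar.sum_eq_zero_of_ne_one h2]
      simp
  have hexp : ((∑ w : ZMod p, ‖Kx X w‖ ^ 2 : ℝ) : ℂ) =
      ∑ χ ∈ X, ∑ χ' ∈ X, ∑ w : ZMod p, χ w * (starRingEnd ℂ) (χ' w) := by
    push_cast
    have h1 : ∀ w : ZMod p, ((‖Kx X w‖ : ℂ)) ^ 2 =
        ∑ χ ∈ X, ∑ χ' ∈ X, χ w * (starRingEnd ℂ) (χ' w) := by
      intro w
      unfold Kx
      rw [← Complex.mul_conj', map_sum, sum_mul_sum]
    rw [sum_congr rfl fun w _ => h1 w, sum_comm]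
    refine sum_congr rfl fun χ _ => ?_
    rw [sum_comm]
  have hre : (∑ w : ZMod p, ‖Kx X w‖ ^ 2 : ℝ) =
      ∑ χ ∈ X, ∑ χ' ∈ X, (∑ w : ZMod p, χ w * (starRingEnd ℂ) (χ' w)).re := by
    have := congrArg Complex.re hexp
    rw [Complex.ofReal_re] at this
    rw [this]
    simp only [Complex.re_sum]
  rw [hre]
  calc _ ≤ ∑ χ ∈ X, ∑ χ' ∈ X, (if χ = χ' then (p : ℝ) else 0) :=
        sum_le_sum fun χ _ => sum_le_sum fun χ' _ => h0 χ χ'
    _ = ∑ χ ∈ X, (p : ℝ) := by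
        refine sum_congr rfl fun χ hχ => ?_
        rw [sum_ite_eq X χ, if_pos hχ]
    _ = _ := by rw [sum_const, nsmul_eq_mul, mul_comm]

lemma card_Zs (X : Finset (DirichletCharacter ℂ p)) (θ : ℝ) (hX : X.Nonempty) :
    (Zs X θ).card * (θ ^ 4 * X.card) ≤ 4 * p := by
  have hXc : (0 : ℝ) < X.card := by exact_mod_cast hX.card_pos
  have h1 : ((Zs X θ).card : ℝ) * (θ ^ 2 / 2 * X.card) ^ 2 ≤ p * X.card := by
    calc ((Zs X θ).card : ℝ) * (θ ^ 2 / 2 * X.card) ^ 2 ≤ ∑ w ∈ Zs X θ, ‖Kx X w‖ ^ 2 := by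
          rw [← nsmul_eq_mul]
          refine card_nsmul_le_sum _ _ _ fun w hw => ?_
          exact pow_le_pow_left₀ (by positivity) ((mem_Zs X θ w).1 hw) 2
      _ ≤ ∑ w : ZMod p, ‖Kx X w‖ ^ 2 :=
          sum_le_sum_of_subset_of_nonneg (subset_univ _) fun _ _ _ => by positivity
      _ ≤ _ := Kx_sq X
  have h2 : ((Zs X θ).card * (θ ^ 4 * X.card)) * X.card ≤ (4 * p) * X.card := by
    calc _ = 4 * (((Zs X θ).card : ℝ) * (θ ^ 2 / 2 * X.card) ^ 2) := by ring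
      _ ≤ 4 * (p * X.card) := mul_le_mul_of_nonneg_left h1 (by norm_num)
      _ = _ := by ring
  exact le_of_mul_le_mul_right h2 hXc

/-- many pairs of quadruples with the product of the cross-ratios in the large spectrum -/
lemma spec (X : Finset (DirichletCharacter ℂ p)) (A B : Finset (ZMod p)) (θ : ℝ) (hθ : 0 < θ)
    (hX : X.Nonempty) (h : ∀ χ ∈ X, θ * ((A.card : ℝ) * B.card) ^ 2 ≤ cyc χ A B) :
    θ ^ 2 / 2 * ((A.card : ℝ) * B.card) ^ 4 ≤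
      (((V A B ×ˢ V A B).filter fun q => Rv q.1 * Rv q.2 ∈ Zs X θ).card : ℝ) := by
  classical
  have hXc : (0 : ℝ) < X.card := by exact_mod_cast hX.card_pos
  obtain ⟨N, hN⟩ : ∃ N : ℝ, N = (A.card : ℝ) * B.card := ⟨_, rfl⟩
  have hN0 : 0 ≤ N := by rw [hN]; positivity
  rw [← hN] at h ⊢
  have h1 : (X.card : ℝ) * (θ ^ 2 * N ^ 4) ≤ ∑ χ ∈ X, cyc χ A B ^ 2 := by
    rw [← nsmul_eq_mul]
    refine card_nsmul_le_sum _ _ _ fun χ hχ => ?_
    calc θ ^ 2 * N ^ 4 = (θ * N ^ 2) ^ 2 := by ring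
      _ ≤ _ := pow_le_pow_left₀ (by positivity) (h χ hχ) 2
  have h2 : ((∑ χ ∈ X, cyc χ A B ^ 2 : ℝ) : ℂ) = ∑ q ∈ V A B ×ˢ V A B, Kx X (Rv q.1 * Rv q.2) := by
    push_cast
    unfold Kx
    rw [sum_comm]
    refine sum_congr rfl fun χ _ => ?_
    rw [cyc_eq, sq, sum_mul_sum, Finset.sum_product]
    refine sum_congr rfl fun v _ => sum_congr rfl fun v' _ => ?_
    rw [map_mul]
  have h3 : ∑ χ ∈ X, cyc χ A B ^ 2 ≤ ∑ q ∈ V A B ×ˢ V A B, ‖Kx X (Rv q.1 * Rv q.2)‖ := by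
    have h4 : 0 ≤ ∑ χ ∈ X, cyc χ A B ^ 2 := by positivity
    have h5 : ∑ χ ∈ X, cyc χ A B ^ 2 = ‖((∑ χ ∈ X, cyc χ A B ^ 2 : ℝ) : ℂ)‖ := by
      rw [Complex.norm_real, Real.norm_of_nonneg h4]
    rw [h5, h2]
    exact norm_sum_le _ _
  have h6 : ∑ q ∈ V A B ×ˢ V A B, ‖Kx X (Rv q.1 * Rv q.2)‖ ≤
      (((V A B ×ˢ V A B).filter fun q => Rv q.1 * Rv q.2 ∈ Zs X θ).card : ℝ) * X.card +
        N ^ 4 * (θ ^ 2 / 2 * X.card) := by
    rw [← sum_filter_add_sum_filter_not (V A B ×ˢ V A B) (fun q => Rv q.1 * Rv q.2 ∈ Zs X θ)]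
    refine add_le_add ?_ ?_
    · rw [← nsmul_eq_mul]
      exact sum_le_card_nsmul _ _ _ fun q _ => Kx_le X _
    · have h7 : ∑ q ∈ (V A B ×ˢ V A B).filter (fun q => ¬ Rv q.1 * Rv q.2 ∈ Zs X θ),
          ‖Kx X (Rv q.1 * Rv q.2)‖ ≤
          (((V A B ×ˢ V A B).filter (fun q => ¬ Rv q.1 * Rv q.2 ∈ Zs X θ)).card : ℝ) *
            (θ ^ 2 / 2 * X.card) := by
        rw [← nsmul_eq_mul]
        refine sum_le_card_nsmul _ _ _ fun q hq => ?_
        have h8 := (mem_filter.1 hq).2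
        rw [mem_Zs] at h8
        exact (not_le.1 h8).le
      refine h7.trans (mul_le_mul_of_nonneg_right ?_ (by positivity))
      have h9 : (((V A B ×ˢ V A B).filter (fun q => ¬ Rv q.1 * Rv q.2 ∈ Zs X θ)).card : ℝ) ≤
          ((V A B ×ˢ V A B).card : ℝ) := by exact_mod_cast card_filter_le _ _
      refine h9.trans (le_of_eq ?_)
      rw [card_product]
      push_cast
      rw [card_V, ← hN]
      ring
  have h10 : (X.card : ℝ) * (θ ^ 2 / 2 * N ^ 4) ≤ X.card *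
      (((V A B ×ˢ V A B).filter fun q => Rv q.1 * Rv q.2 ∈ Zs X θ).card : ℝ) := by
    have := h1.trans (h3.trans h6)
    linarith
  exact le_of_mul_le_mul_left h10 hXc

end

end Pool.Agent.R111.PG
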