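import Pool.Agent.R111.PG.Main

set_option autoImplicit false

/-! # Almost all characters: difference sums over all dense subsets of a set -/

open Finset

namespace Pool.Agent.R111.PG

/-- the power saving for all large subsets of `A`, for all but few characters -/
theorem few_diff (δ : ℝ) (hδ : 0 < δ) : ∃ c : ℝ, 0 < c ∧ ∃ τ : ℝ, 0 < τ ∧ ∃ P : ℕ,
    ∀ p : ℕ, p.Prime → P ≤ p → ∀ A : Finset (ZMod p), (p : ℝ) ^ δ < A.card →
    (({χ : DirichletCharacter ℂ p | χ ≠ 1 ∧ ∃ D ⊆ A, (A.card : ℝ) ^ (1 - τ) ≤ D.card ∧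
      (D.card : ℝ) ^ (2 - τ) ≤ ‖∑ a ∈ D, ∑ b ∈ D, χ (a - b)‖}.ncard : ℕ) : ℝ) ≤
        (p : ℝ) ^ (1 - c) / A.card := by
  classical
  obtain ⟨c, hc, δ', hδ', p₀, h⟩ := few_forms δ hδ
  obtain ⟨τ, hτ⟩ : ∃ τ : ℝ, τ = min (δ' / 4) (1 / 2) := ⟨_, rfl⟩
  have hτ0 : 0 < τ := by rw [hτ]; positivity
  have hτ1 : τ ≤ δ' / 4 := by rw [hτ]; exact min_le_left _ _
  have hτ2 : τ ≤ 1 / 2 := by rw [hτ]; exact min_le_right _ _
  refine ⟨c, hc, τ, hτ0, p₀, fun p hpp hp A hA => ?_⟩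
  have : Fact p.Prime := ⟨hpp⟩
  have hp2 : (2 : ℝ) ≤ p := by exact_mod_cast (Fact.out : p.Prime).two_le
  have hp0 : (0 : ℝ) < p := by linarith
  have hp1 : (1 : ℝ) < p := by linarith
  have hA0 : (0 : ℝ) < A.card := lt_trans (by positivity) hA
  have hA1 : (1 : ℝ) ≤ A.card := by
    have : 0 < A.card := by exact_mod_cast hA0
    exact_mod_cast this
  have hBc : (A.image fun x => -x).card = A.card := card_image_of_injective _ neg_injective
  have h1 := h p hp A (A.image fun x => -x) hA.le (by rw [hBc]; exact hA.le)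
  rw [hBc, max_self] at h1
  refine le_trans ?_ h1
  refine Nat.cast_le.2 (Set.ncard_le_ncard ?_ (Set.toFinite _))
  rintro χ ⟨hχ, D, hDA, hD1, hD2⟩
  refine ⟨hχ, fun a => if a ∈ D then 1 else 0, fun b => if -b ∈ D then 1 else 0, ?_⟩
  have e1 : ∑ a ∈ A, ‖(if a ∈ D then (1 : ℂ) else 0)‖ ^ 2 = D.card := by
    have h2 : ∀ a ∈ A, ‖(if a ∈ D then (1 : ℂ) else 0)‖ ^ 2 = if a ∈ D then (1 : ℝ) else 0 := by
      intro a _
      split_ifs <;> simp
    rw [sum_congr rfl h2, ← sum_filter, sum_const, nsmul_eq_mul, mul_one]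
    congr 2
    ext x
    rw [mem_filter]
    exact ⟨fun hx => hx.2, fun hx => ⟨hDA hx, hx⟩⟩
  have e2 : ∑ b ∈ A.image (fun x => -x), ‖(if -b ∈ D then (1 : ℂ) else 0)‖ ^ 2 = D.card := by
    rw [sum_image fun x _ y _ hxy => neg_injective hxy, ← e1]
    exact sum_congr rfl fun a _ => by rw [neg_neg]
  have e3 : ∑ a ∈ A, ∑ b ∈ A.image (fun x => -x), (if a ∈ D then (1 : ℂ) else 0) *
      (if -b ∈ D then (1 : ℂ) else 0) * χ (a + b) = ∑ a ∈ D, ∑ b ∈ D, χ (a - b) := by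
    have h3 : ∀ a ∈ A, ∑ b ∈ A.image (fun x => -x), (if a ∈ D then (1 : ℂ) else 0) *
        (if -b ∈ D then (1 : ℂ) else 0) * χ (a + b) =
        if a ∈ D then ∑ b ∈ D, χ (a - b) else 0 := by
      intro a _
      rw [sum_image fun x _ y _ hxy => neg_injective hxy]
      split_ifs with ha
      · simp only [neg_neg, one_mul, ite_mul, zero_mul]
        rw [← sum_filter]
        refine sum_congr ?_ fun b _ => by rw [sub_eq_add_neg]
        ext x
        rw [mem_filter]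
        exact ⟨fun hx => hx.2, fun hx => ⟨hDA hx, hx⟩⟩
      · simp
    rw [sum_congr rfl h3, ← sum_filter]
    refine sum_congr ?_ fun b _ => rfl
    ext x
    rw [mem_filter]
    exact ⟨fun hx => hx.2, fun hx => ⟨hDA hx, hx⟩⟩
  rw [e1, e2, e3]
  refine lt_of_lt_of_le ?_ hD2
  obtain ⟨d, hd⟩ : ∃ d : ℝ, d = D.card := ⟨_, rfl⟩
  obtain ⟨n, hn⟩ : ∃ n : ℝ, n = A.card := ⟨_, rfl⟩
  rw [← hd, ← hn] at hD1
  rw [← hn] at hA0 hA1
  rw [← hd, ← hn]
  have hd1 : 1 ≤ d := by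
    have h4 : (0 : ℝ) < n ^ (1 - τ) := by positivity
    have h5 : 0 < d := lt_of_lt_of_le h4 hD1
    rw [hd] at h5 ⊢
    have : 0 < D.card := by exact_mod_cast h5
    exact_mod_cast this
  have hd0 : 0 < d := by linarith
  have hnp : n ≤ p := by
    rw [hn]
    have : A.card ≤ p := by
      have := card_le_univ A
      rwa [ZMod.card] at this
    exact_mod_cast this
  have s1 : Real.sqrt (n * n) = n := Real.sqrt_mul_self hA0.le
  have s2 : Real.sqrt d * Real.sqrt d = d := Real.mul_self_sqrt hd0.le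
  rw [s1, s2]
  -- `p^(-δ') n d < d^(2-τ)`
  have k1 : n < (p : ℝ) ^ δ' * d ^ (1 - τ) := by
    have k2 : n ^ (1 - 2 * τ) ≤ d ^ (1 - τ) := by
      calc n ^ (1 - 2 * τ) ≤ n ^ ((1 - τ) * (1 - τ)) := by
            refine Real.rpow_le_rpow_of_exponent_le hA1 ?_
            nlinarith
        _ = (n ^ (1 - τ)) ^ (1 - τ) := Real.rpow_mul hA0.le _ _
        _ ≤ d ^ (1 - τ) := Real.rpow_le_rpow (by positivity) hD1 (by linarith)
    have k3 : n ^ (2 * τ) < (p : ℝ) ^ δ' := by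
      calc n ^ (2 * τ) ≤ (p : ℝ) ^ (2 * τ) := Real.rpow_le_rpow hA0.le hnp (by linarith)
        _ < (p : ℝ) ^ δ' := Real.rpow_lt_rpow_of_exponent_lt hp1 (by linarith)
    calc n = n ^ (2 * τ) * n ^ (1 - 2 * τ) := by
          rw [← Real.rpow_add hA0]
          rw [show 2 * τ + (1 - 2 * τ) = 1 by ring, Real.rpow_one]
      _ < (p : ℝ) ^ δ' * n ^ (1 - 2 * τ) := mul_lt_mul_of_pos_right k3 (by positivity)
      _ ≤ _ := mul_le_mul_of_nonneg_left k2 (by positivity)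
  have k4 : (p : ℝ) ^ (-δ') * (n * d) < (p : ℝ) ^ (-δ') * (((p : ℝ) ^ δ' * d ^ (1 - τ)) * d) :=
    mul_lt_mul_of_pos_left (mul_lt_mul_of_pos_right k1 hd0) (by positivity)
  refine lt_of_lt_of_eq k4 ?_
  have e4 : (p : ℝ) ^ (-δ') * (p : ℝ) ^ δ' = 1 := by
    rw [← Real.rpow_add hp0]
    simp
  have e5 : d ^ (1 - τ) * d = d ^ (2 - τ) := by
    have : d ^ (1 - τ) * d = d ^ (1 - τ) * d ^ (1 : ℝ) := by rw [Real.rpow_one]
    rw [this, ← Real.rpow_add hd0]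
    congr 1
    ring
  calc (p : ℝ) ^ (-δ') * (((p : ℝ) ^ δ' * d ^ (1 - τ)) * d) =
        ((p : ℝ) ^ (-δ') * (p : ℝ) ^ δ') * (d ^ (1 - τ) * d) := by ring
    _ = _ := by rw [e4, e5, one_mul]

end Pool.Agent.R111.PG
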