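import Pool.Agent.R111.PG.Cyc

set_option autoImplicit false

/-! # Few characters with a large 4-cycle sum -/

open Finset

namespace Pool.Agent.R111.PG

open Pool.Agent.H435R3.Paley (norm_unit exists_large)

section
variable {p : ℕ} [Fact p.Prime]

/-- the triples for given parameters -/
noncomputable def Tr (A B Z : Finset (ZMod p)) (a' b' a2 a2' b2' : ZMod p) :
    Finset (ZMod p × ZMod p × ZMod p) :=
  (A ×ˢ B ×ˢ B).filter fun r => r.2.1 ≠ b' ∧ rho r.1 a' r.2.1 b' * rho a2 a2' r.2.2 b2' ∈ Z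

open Classical in
lemma param (A B Z : Finset (ZMod p)) (hA : A.Nonempty) (hB : B.Nonempty) (y : ℝ) (hy : 0 < y)
    (h : ((A.card : ℝ) ^ 3 * (B.card : ℝ) ^ 2) * y + (A.card : ℝ) ^ 4 * (B.card : ℝ) ^ 3 +
      (A.card : ℝ) ^ 3 * (B.card : ℝ) ^ 4 ≤
      (((V A B ×ˢ V A B).filter fun q => Rv q.1 * Rv q.2 ∈ Z).card : ℝ)) :
    ∃ a' b' a2 a2' b2' : ZMod p, a2 ≠ a2' ∧ y ≤ ((Tr A B Z a' b' a2 a2' b2').card : ℝ) := by
  obtain ⟨C, hC⟩ : ∃ C, C = (V A B ×ˢ V A B).filter fun q => Rv q.1 * Rv q.2 ∈ Z := ⟨_, rfl⟩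
  rw [← hC] at h
  obtain ⟨C1, hC1⟩ : ∃ C1, C1 = C.filter fun q => q.1.2.2.1 ≠ q.1.2.2.2 ∧ q.2.1 ≠ q.2.2.1 :=
    ⟨_, rfl⟩
  have hmem : ∀ q ∈ C, (q.1.1 ∈ A ∧ q.1.2.1 ∈ A ∧ q.1.2.2.1 ∈ B ∧ q.1.2.2.2 ∈ B) ∧
      (q.2.1 ∈ A ∧ q.2.2.1 ∈ A ∧ q.2.2.2.1 ∈ B ∧ q.2.2.2.2 ∈ B) := by
    intro q hq
    rw [hC] at hq
    have h1 := (mem_filter.1 hq).1
    unfold V at h1
    simp only [mem_product] at h1
    exact ⟨⟨h1.1.1, h1.1.2.1, h1.1.2.2.1, h1.1.2.2.2⟩, ⟨h1.2.1, h1.2.2.1, h1.2.2.2.1, h1.2.2.2.2⟩⟩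
  have hsplit : C.card ≤ C1.card + (A ×ˢ A ×ˢ B ×ˢ V A B).card +
      (V A B ×ˢ (A ×ˢ B ×ˢ B)).card := by
    have h1 : C ⊆ (C1 ∪ C.filter (fun q => q.1.2.2.1 = q.1.2.2.2)) ∪
        C.filter (fun q => q.2.1 = q.2.2.1) := by
      intro q hq
      rw [mem_union, mem_union, hC1]
      by_cases e1 : q.1.2.2.1 = q.1.2.2.2
      · exact Or.inl (Or.inr (mem_filter.2 ⟨hq, e1⟩))
      · by_cases e2 : q.2.1 = q.2.2.1
        · exact Or.inr (mem_filter.2 ⟨hq, e2⟩)
        · exact Or.inl (Or.inl (mem_filter.2 ⟨hq, e1, e2⟩))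
    refine (card_le_card h1).trans ((card_union_le _ _).trans ?_)
    refine add_le_add ((card_union_le _ _).trans (add_le_add le_rfl ?_)) ?_
    · refine card_le_card_of_injOn (fun q => (q.1.1, q.1.2.1, q.1.2.2.1, q.2)) ?_ ?_
      · intro q hq
        have h2 := mem_filter.1 hq
        obtain ⟨h3, h4⟩ := hmem q h2.1
        refine mem_coe.2 ?_
        unfold V
        simp only [mem_product]
        exact ⟨h3.1, h3.2.1, h3.2.2.1, h4.1, h4.2.1, h4.2.2.1, h4.2.2.2⟩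
      · intro q hq q' hq' hqq
        have h2 := (mem_filter.1 hq).2
        have h2' := (mem_filter.1 hq').2
        simp only [Prod.mk.injEq] at hqq
        obtain ⟨e1, e2, e3, e4⟩ := hqq
        refine Prod.ext (Prod.ext e1 (Prod.ext e2 (Prod.ext e3 ?_))) e4
        rw [← h2, ← h2', e3]
    · refine card_le_card_of_injOn (fun q => (q.1, q.2.1, q.2.2.2.1, q.2.2.2.2)) ?_ ?_
      · intro q hq
        have h2 := mem_filter.1 hq
        obtain ⟨h3, h4⟩ := hmem q h2.1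
        refine mem_coe.2 ?_
        unfold V
        simp only [mem_product]
        exact ⟨⟨h3.1, h3.2.1, h3.2.2.1, h3.2.2.2⟩, h4.1, h4.2.2.1, h4.2.2.2⟩
      · intro q hq q' hq' hqq
        have h2 := (mem_filter.1 hq).2
        have h2' := (mem_filter.1 hq').2
        simp only [Prod.mk.injEq] at hqq
        obtain ⟨e1, e2, e3, e4⟩ := hqq
        refine Prod.ext e1 (Prod.ext e2 (Prod.ext ?_ (Prod.ext e3 e4)))
        rw [← h2, ← h2', e2]
  have hC1c : ((A.card : ℝ) ^ 3 * (B.card : ℝ) ^ 2) * y ≤ C1.card := by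
    have h1 : (C.card : ℝ) ≤ C1.card + (A.card : ℝ) ^ 4 * (B.card : ℝ) ^ 3 +
        (A.card : ℝ) ^ 3 * (B.card : ℝ) ^ 4 := by
      have h2 : (C.card : ℝ) ≤ ((C1.card + (A ×ˢ A ×ˢ B ×ˢ V A B).card +
        (V A B ×ˢ (A ×ˢ B ×ˢ B)).card : ℕ) : ℝ) := by exact_mod_cast hsplit
      refine h2.trans (le_of_eq ?_)
      simp only [card_product]
      push_cast
      rw [card_V]
      ring
    linarith
  obtain ⟨π, hπ⟩ : ∃ π : (ZMod p × ZMod p × ZMod p × ZMod p) ×
      (ZMod p × ZMod p × ZMod p × ZMod p) → ZMod p × ZMod p × ZMod p × ZMod p × ZMod p,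
      π = fun q => (q.1.2.1, q.1.2.2.2, q.2.1, q.2.2.1, q.2.2.2.2) := ⟨_, rfl⟩
  obtain ⟨P, hP⟩ : ∃ P, P = A ×ˢ B ×ˢ A ×ˢ A ×ˢ B := ⟨_, rfl⟩
  have hmaps : ∀ q ∈ C1, π q ∈ P := by
    intro q hq
    rw [hC1] at hq
    obtain ⟨h3, h4⟩ := hmem q (mem_filter.1 hq).1
    rw [hP, hπ]
    simp only [mem_product]
    exact ⟨h3.2.1, h3.2.2.2, h4.1, h4.2.1, h4.2.2.2⟩
  have hPc : (P.card : ℝ) = (A.card : ℝ) ^ 3 * (B.card : ℝ) ^ 2 := by
    rw [hP]
    simp only [card_product]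
    push_cast
    ring
  rw [← hPc] at hC1c
  have hsum := card_eq_sum_card_fiberwise hmaps
  obtain ⟨t, ht, hty⟩ : ∃ t ∈ P, y ≤ ((C1.filter fun q => π q = t).card : ℝ) := by
    by_contra hcon
    push Not at hcon
    have hPne : P.Nonempty := by
      rw [hP]
      exact hA.product (hB.product (hA.product (hA.product hB)))
    have h1 : (C1.card : ℝ) < ∑ t ∈ P, y := by
      rw [hsum]
      push_cast
      exact sum_lt_sum_of_nonempty hPne fun t ht => hcon t ht
    rw [sum_const, nsmul_eq_mul] at h1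
    linarith
  refine ⟨t.1, t.2.1, t.2.2.1, t.2.2.2.1, t.2.2.2.2, ?_, ?_⟩
  · have hpos : (0 : ℝ) < ((C1.filter fun q => π q = t).card : ℝ) := lt_of_lt_of_le hy hty
    have hne : (C1.filter fun q => π q = t).Nonempty := by
      rw [← card_pos]
      exact_mod_cast hpos
    obtain ⟨q, hq⟩ := hne
    have h1 := mem_filter.1 hq
    have h2 := h1.2
    rw [hπ] at h2
    rw [hC1] at h1
    have h3 := (mem_filter.1 h1.1).2.2
    rw [← h2]
    exact h3
  · refine hty.trans ?_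
    have h1 : (C1.filter fun q => π q = t).card ≤
        (Tr A B Z t.1 t.2.1 t.2.2.1 t.2.2.2.1 t.2.2.2.2).card := by
      refine card_le_card_of_injOn (fun q => (q.1.1, q.1.2.2.1, q.2.2.2.1)) ?_ ?_
      · intro q hq
        have h2 := mem_filter.1 hq
        have h3 := h2.2
        rw [hπ] at h3
        have h4 := h2.1
        rw [hC1] at h4
        have h5 := mem_filter.1 h4
        obtain ⟨h6, h7⟩ := hmem q h5.1
        have h8 := h5.1
        rw [hC] at h8
        have h9 := (mem_filter.1 h8).2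
        subst h3
        refine mem_coe.2 ?_
        unfold Tr
        rw [mem_filter]
        refine ⟨?_, h5.2.1, ?_⟩
        · simp only [mem_product]
          exact ⟨h6.1, h6.2.2.1, h7.2.2.1⟩
        · exact h9
      · intro q hq q' hq' hqq
        have h2 := (mem_filter.1 hq).2
        have h2' := (mem_filter.1 hq').2
        rw [← h2'] at h2
        rw [hπ] at h2
        simp only [Prod.mk.injEq] at hqq h2
        obtain ⟨e1, e2, e3⟩ := hqq
        obtain ⟨f1, f2, f3, f4, f5⟩ := h2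
        exact Prod.ext (Prod.ext e1 (Prod.ext f1 (Prod.ext e2 f2)))
          (Prod.ext f3 (Prod.ext f4 (Prod.ext e3 f5)))
    exact_mod_cast h1

lemma rho_eq (a a' b b' : ZMod p) (h1 : a' + b ≠ 0) (h2 : a + b' ≠ 0) :
    rho a a' b b' = 1 - (1 - (a' + b') * (a' + b)⁻¹) * (1 - (a' + b') * (a + b')⁻¹) := by
  unfold rho
  field_simp
  ring

lemma rho_ne (a a' b b' : ZMod p) (h : rho a a' b b' ≠ 0) :
    a + b ≠ 0 ∧ a' + b ≠ 0 ∧ a + b' ≠ 0 ∧ a' + b' ≠ 0 := by
  unfold rho at h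
  refine ⟨fun h0 => ?_, fun h0 => ?_, fun h0 => ?_, fun h0 => ?_⟩ <;>
  · apply h
    rw [h0]
    simp

open Classical in
/-- passing to the equation `u (1 - h s) ∈ Z` -/
lemma inject (A B Z : Finset (ZMod p)) (hZ0 : (0 : ZMod p) ∉ Z) (a' b' a2 a2' b2' : ZMod p)
    (hne : a2 ≠ a2') (hpos : (Tr A B Z a' b' a2 a2' b2').Nonempty) :
    ∃ S H U : Finset (ZMod p), (0 : ZMod p) ∉ H ∧ (0 : ZMod p) ∉ U ∧ S.card ≤ A.card ∧
      H.card ≤ B.card ∧ U.card ≤ B.card ∧ A.card ≤ S.card + 1 ∧ B.card ≤ H.card + 2 ∧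
      B.card ≤ U.card + 2 ∧ ((Tr A B Z a' b' a2 a2' b2').card : ℝ) ≤
        ∑ s ∈ S, (((H ×ˢ U).filter fun i => i.2 * (1 - i.1 * s) ∈ Z).card : ℝ) := by
  have hprod : ∀ r ∈ Tr A B Z a' b' a2 a2' b2', rho r.1 a' r.2.1 b' ≠ 0 ∧
      rho a2 a2' r.2.2 b2' ≠ 0 := by
    intro r hr
    unfold Tr at hr
    have h1 := (mem_filter.1 hr).2.2
    have h2 : rho r.1 a' r.2.1 b' * rho a2 a2' r.2.2 b2' ≠ 0 := fun h => hZ0 (h ▸ h1)
    exact ⟨left_ne_zero_of_mul h2, right_ne_zero_of_mul h2⟩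
  obtain ⟨r0, hr0⟩ := hpos
  obtain ⟨k1, k2⟩ := hprod r0 hr0
  have hσ : a' + b' ≠ 0 := (rho_ne _ _ _ _ k1).2.2.2
  have hs1 : a2 + b2' ≠ 0 := (rho_ne _ _ _ _ k2).2.2.1
  have hs2 : a2' + b2' ≠ 0 := (rho_ne _ _ _ _ k2).2.2.2
  obtain ⟨g, hg⟩ : ∃ g : ZMod p → ZMod p, g = fun a => 1 - (a' + b') * (a + b')⁻¹ := ⟨_, rfl⟩
  obtain ⟨f, hf⟩ : ∃ f : ZMod p → ZMod p, f = fun b => 1 - (a' + b') * (a' + b)⁻¹ := ⟨_, rfl⟩
  obtain ⟨w, hw⟩ : ∃ w : ZMod p → ZMod p, w = fun b => rho a2 a2' b b2' := ⟨_, rfl⟩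
  have hgi : ∀ x y, g x = g y → x = y := by
    intro x y hxy
    rw [hg] at hxy
    have h1 : (a' + b') * (x + b')⁻¹ = (a' + b') * (y + b')⁻¹ := by
      have h2 : 1 - (a' + b') * (x + b')⁻¹ = 1 - (a' + b') * (y + b')⁻¹ := hxy
      linear_combination -h2
    exact add_right_cancel (inv_injective (mul_left_cancel₀ hσ h1))
  have hfi : ∀ x y, f x = f y → x = y := by
    intro x y hxy
    rw [hf] at hxy
    have h1 : (a' + b') * (a' + x)⁻¹ = (a' + b') * (a' + y)⁻¹ := by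
      have h2 : 1 - (a' + b') * (a' + x)⁻¹ = 1 - (a' + b') * (a' + y)⁻¹ := hxy
      linear_combination -h2
    exact add_left_cancel (inv_injective (mul_left_cancel₀ hσ h1))
  have hwi : ∀ x y, a2' + x ≠ 0 → a2' + y ≠ 0 → w x = w y → x = y := by
    intro x y hx hy hxy
    rw [hw] at hxy
    have h1 : rho a2 a2' x b2' = rho a2 a2' y b2' := hxy
    unfold rho at h1
    have h2 : (a2 + b2')⁻¹ * (a2' + b2') ≠ 0 := mul_ne_zero (inv_ne_zero hs1) hs2
    have h3 := mul_right_cancel₀ h2 h1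
    have h4 : (a2 + x) * (a2' + y) = (a2 + y) * (a2' + x) := by
      field_simp at h3
      linear_combination h3
    have h5 : (a2 - a2') * x = (a2 - a2') * y := by linear_combination -h4
    exact mul_left_cancel₀ (sub_ne_zero.2 hne) h5
  obtain ⟨A1, hA1⟩ : ∃ A1, A1 = A.filter fun a => a + b' ≠ 0 := ⟨_, rfl⟩
  obtain ⟨B1, hB1⟩ : ∃ B1, B1 = B.filter fun b => b ≠ b' ∧ a' + b ≠ 0 := ⟨_, rfl⟩
  obtain ⟨B2, hB2⟩ : ∃ B2, B2 = B.filter fun b => a2 + b ≠ 0 ∧ a2' + b ≠ 0 := ⟨_, rfl⟩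
  have cA1 : A.card ≤ A1.card + 1 := by
    have h1 : A ⊆ A1 ∪ {-b'} := by
      intro a ha
      by_cases h : a + b' = 0
      · refine mem_union_right _ (mem_singleton.2 ?_)
        linear_combination h
      · exact mem_union_left _ (by rw [hA1]; exact mem_filter.2 ⟨ha, h⟩)
    exact (card_le_card h1).trans ((card_union_le _ _).trans (by simp))
  have cB1 : B.card ≤ B1.card + 2 := by
    have h1 : B ⊆ B1 ∪ {b', -a'} := by
      intro b hb
      by_cases h : b = b'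
      · exact mem_union_right _ (by simp [h])
      · by_cases h' : a' + b = 0
        · refine mem_union_right _ ?_
          rw [mem_insert, mem_singleton]
          right
          linear_combination h'
        · exact mem_union_left _ (by rw [hB1]; exact mem_filter.2 ⟨hb, h, h'⟩)
    exact (card_le_card h1).trans ((card_union_le _ _).trans (Nat.add_le_add_left card_le_two _))
  have cB2 : B.card ≤ B2.card + 2 := by
    have h1 : B ⊆ B2 ∪ {-a2, -a2'} := by
      intro b hb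
      by_cases h : a2 + b = 0
      · refine mem_union_right _ ?_
        rw [mem_insert, mem_singleton]
        left
        linear_combination h
      · by_cases h' : a2' + b = 0
        · refine mem_union_right _ ?_
          rw [mem_insert, mem_singleton]
          right
          linear_combination h'
        · exact mem_union_left _ (by rw [hB2]; exact mem_filter.2 ⟨hb, h, h'⟩)
    exact (card_le_card h1).trans ((card_union_le _ _).trans (Nat.add_le_add_left card_le_two _))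
  have iA : (A1.image g).card = A1.card := card_image_of_injective _ fun x y h => hgi x y h
  have iB : (B1.image f).card = B1.card := card_image_of_injective _ fun x y h => hfi x y h
  have iU : (B2.image w).card = B2.card := by
    refine card_image_of_injOn fun x hx y hy h => ?_
    rw [mem_coe, hB2] at hx hy
    exact hwi x y (mem_filter.1 hx).2.2 (mem_filter.1 hy).2.2 h
  refine ⟨A1.image g, B1.image f, B2.image w, ?_, ?_, ?_, ?_, ?_, ?_, ?_, ?_, ?_⟩
  · intro h0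
    obtain ⟨b, hb, hb0⟩ := mem_image.1 h0
    rw [hB1] at hb
    have h1 := (mem_filter.1 hb).2
    rw [hf] at hb0
    have h2 : (a' + b') * (a' + b)⁻¹ = 1 := by
      have h3 : 1 - (a' + b') * (a' + b)⁻¹ = 0 := hb0
      linear_combination -h3
    have h3 : a' + b' = a' + b := by
      rw [← div_eq_mul_inv, div_eq_one_iff_eq h1.2] at h2
      exact h2
    exact h1.1 (add_left_cancel h3).symm
  · intro h0
    obtain ⟨b, hb, hb0⟩ := mem_image.1 h0
    rw [hB2] at hb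
    have h1 := (mem_filter.1 hb).2
    rw [hw] at hb0
    have h2 : (a2 + b) * (a2' + b)⁻¹ * ((a2 + b2')⁻¹ * (a2' + b2')) ≠ 0 :=
      mul_ne_zero (mul_ne_zero h1.1 (inv_ne_zero h1.2)) (mul_ne_zero (inv_ne_zero hs1) hs2)
    exact h2 hb0
  · rw [iA, hA1]; exact card_filter_le _ _
  · rw [iB, hB1]; exact card_filter_le _ _
  · rw [iU, hB2]; exact card_filter_le _ _
  · rw [iA]; exact cA1
  · rw [iB]; exact cB1
  · rw [iU]; exact cB2
  · have h1 : (Tr A B Z a' b' a2 a2' b2').card ≤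
        (((A1.image g) ×ˢ ((B1.image f) ×ˢ (B2.image w))).filter
          fun q => q.2.2 * (1 - q.2.1 * q.1) ∈ Z).card := by
      refine card_le_card_of_injOn (fun r => (g r.1, f r.2.1, w r.2.2)) ?_ ?_
      · intro r hr
        obtain ⟨h2, h3⟩ := hprod r hr
        have h4 := rho_ne _ _ _ _ h2
        have h5 := rho_ne _ _ _ _ h3
        have hr' := mem_coe.1 hr
        unfold Tr at hr'
        rw [mem_filter] at hr'
        simp only [mem_product] at hr'
        refine mem_coe.2 (mem_filter.2 ⟨?_, ?_⟩)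
        · simp only [mem_product]
          refine ⟨mem_image_of_mem _ ?_, mem_image_of_mem _ ?_, mem_image_of_mem _ ?_⟩
          · rw [hA1]; exact mem_filter.2 ⟨hr'.1.1, h4.2.2.1⟩
          · rw [hB1]; exact mem_filter.2 ⟨hr'.1.2.1, hr'.2.1, h4.2.1⟩
          · rw [hB2]; exact mem_filter.2 ⟨hr'.1.2.2, h5.1, h5.2.1⟩
        · show w r.2.2 * (1 - f r.2.1 * g r.1) ∈ Z
          have e : w r.2.2 * (1 - f r.2.1 * g r.1) =
              rho r.1 a' r.2.1 b' * rho a2 a2' r.2.2 b2' := by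
            rw [rho_eq r.1 a' r.2.1 b' h4.2.1 h4.2.2.1, hw, hf, hg]
            ring
          rw [e]
          exact hr'.2.2
      · intro r hr r' hr' hrr
        have h5 := rho_ne _ _ _ _ (hprod r hr).2
        have h5' := rho_ne _ _ _ _ (hprod r' hr').2
        simp only [Prod.mk.injEq] at hrr
        exact Prod.ext (hgi _ _ hrr.1) (Prod.ext (hfi _ _ hrr.2.1)
          (hwi _ _ h5.2.1 h5'.2.1 hrr.2.2))
    calc ((Tr A B Z a' b' a2 a2' b2').card : ℝ) ≤
        ((((A1.image g) ×ˢ ((B1.image f) ×ˢ (B2.image w))).filter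
          fun q => q.2.2 * (1 - q.2.1 * q.1) ∈ Z).card : ℝ) := by exact_mod_cast h1
      _ = _ := by simp only [card_filter, Nat.cast_sum, Finset.sum_product]

end

end Pool.Agent.R111.PG
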