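import Pool.Agent.R111.PG.Prune

set_option autoImplicit false

/-! # Level sets of the walk are not nearly invariant -/

open Finset

namespace Pool.Agent.R111.PG

section
variable {p : ℕ} [Fact p.Prime]

/-- the ratio of a label -/
noncomputable def rt (l : ZMod p × ZMod p × ZMod p) : ZMod p :=
  (l.2.1 - l.1) * (l.2.2 - l.1)⁻¹

/-- the good labels -/
def gd (l : ZMod p × ZMod p × ZMod p) : Prop := l.2.1 ≠ l.1 ∧ l.2.2 ≠ l.1

instance (l : ZMod p × ZMod p × ZMod p) : Decidable (gd l) := by unfold gd; infer_instance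

/-- two steps of the walk -/
lemma two (A : Finset (ZMod p)) (Z : Finset (ZMod p × ZMod p)) (Y s : ZMod p) (θ lam : ℝ)
    (hθ : 0 < θ) (hZ : ∀ z ∈ Z, z.1 ≠ z.2)
    (hN : ∀ z ∈ Z, θ * (A.card : ℝ) ^ 3 ≤ (((A ×ˢ A ×ˢ A).filter fun l =>
      (z.1, z.1 + (l.2.2 - l.1) * (l.2.1 - l.1)⁻¹ * (z.2 - z.1)) ∈ Z).card : ℝ))
    (hN2 : ∀ z ∈ Z, θ * (A.card : ℝ) ^ 3 ≤ (((A ×ˢ A ×ˢ A).filter fun l =>
      (z.2 + (l.2.2 - l.1) * (l.2.1 - l.1)⁻¹ * (z.1 - z.2), z.2) ∈ Z).card : ℝ))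
    (hlam : 0 < lam) (hs : lam ≤ wt Z Y s) :
    (θ / 2) ^ 2 * (A.card : ℝ) ^ 6 ≤ ((((A ×ˢ A ×ˢ A) ×ˢ (A ×ˢ A ×ˢ A)).filter fun q =>
      gd q.1 ∧ gd q.2 ∧
        (θ / 2) ^ 2 * lam ≤ wt Z Y (1 - rt q.2 * (1 - rt q.1 * s))).card : ℝ) := by
  classical
  obtain ⟨P, hP⟩ : ∃ P : Finset (ZMod p × ZMod p × ZMod p), P = A ×ˢ A ×ˢ A := ⟨_, rfl⟩
  have h1 := step A Z Y s θ hθ hZ hN (by
    have : (0 : ℝ) < wt Z Y s := lt_of_lt_of_le hlam hs
    exact_mod_cast this)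
  rw [← hP] at h1 ⊢
  obtain ⟨G, hG⟩ : ∃ G : Finset (ZMod p × ZMod p × ZMod p),
    G = P.filter fun l => l.2.1 ≠ l.1 ∧ l.2.2 ≠ l.1 ∧
      θ / 2 * wt Z Y s ≤ wt Z Y (s * ((l.2.1 - l.1) * (l.2.2 - l.1)⁻¹)) := ⟨_, rfl⟩
  rw [← hG] at h1
  have hGP : G ⊆ P := by rw [hG]; exact filter_subset _ _
  have e : (((P ×ˢ P).filter fun q => gd q.1 ∧ gd q.2 ∧
        (θ / 2) ^ 2 * lam ≤ wt Z Y (1 - rt q.2 * (1 - rt q.1 * s))).card : ℝ) =
      ∑ l ∈ P, ((P.filter fun m => gd l ∧ gd m ∧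
        (θ / 2) ^ 2 * lam ≤ wt Z Y (1 - rt m * (1 - rt l * s))).card : ℝ) := by
    simp only [card_filter]
    push_cast
    rw [sum_product]
  rw [e]
  have h2 : ∑ l ∈ G, (θ / 2 * (A.card : ℝ) ^ 3) ≤ ∑ l ∈ P, ((P.filter fun m => gd l ∧ gd m ∧
        (θ / 2) ^ 2 * lam ≤ wt Z Y (1 - rt m * (1 - rt l * s))).card : ℝ) := by
    refine (sum_le_sum fun l hl => ?_).trans
      (sum_le_sum_of_subset_of_nonneg hGP fun _ _ _ => Nat.cast_nonneg _)
    have hl2 : gd l ∧ θ / 2 * wt Z Y s ≤ wt Z Y (rt l * s) := by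
      rw [hG, mem_filter] at hl
      refine ⟨⟨hl.2.1, hl.2.2.1⟩, ?_⟩
      have := hl.2.2.2
      unfold rt
      rwa [mul_comm _ s]
    have hw1 : θ / 2 * lam ≤ wt Z Y (rt l * s) :=
      (mul_le_mul_of_nonneg_left hs (by positivity)).trans hl2.2
    have hsw : wt (Z.image Prod.swap) Y (1 - rt l * s) = wt Z Y (rt l * s) := wt_swap _ _ _
    have h3 := step A (Z.image Prod.swap) Y (1 - rt l * s) θ hθ (by
        intro z hz
        rw [mem_image] at hz
        obtain ⟨y, hy, rfl⟩ := hz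
        exact (hZ y hy).symm) (by
        intro z hz
        rw [mem_image] at hz
        obtain ⟨y, hy, rfl⟩ := hz
        refine (hN2 y hy).trans ?_
        refine Nat.cast_le.2 (card_le_card fun l hl => ?_)
        rw [mem_filter] at hl ⊢
        refine ⟨hl.1, ?_⟩
        rw [mem_image]
        exact ⟨_, hl.2, rfl⟩) (by
        rw [hsw]
        have : (0 : ℝ) < wt Z Y (rt l * s) := lt_of_lt_of_le (by positivity) hw1
        exact_mod_cast this)
    rw [← hP] at h3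
    refine h3.trans (Nat.cast_le.2 (card_le_card fun m hm => ?_))
    rw [mem_filter] at hm ⊢
    refine ⟨hm.1, hl2.1, ⟨hm.2.1, hm.2.2.1⟩, ?_⟩
    have h4 := hm.2.2.2
    rw [hsw] at h4
    have h5 : wt (Z.image Prod.swap) Y ((1 - rt l * s) * ((m.2.1 - m.1) * (m.2.2 - m.1)⁻¹)) =
        wt Z Y (1 - rt m * (1 - rt l * s)) := by
      rw [← wt_swap Z Y (1 - rt m * (1 - rt l * s))]
      congr 1
      unfold rt
      ring
    rw [h5] at h4
    calc (θ / 2) ^ 2 * lam = θ / 2 * (θ / 2 * lam) := by ring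
      _ ≤ θ / 2 * (wt Z Y (rt l * s)) := mul_le_mul_of_nonneg_left hw1 (by positivity)
      _ ≤ _ := h4
  refine le_trans ?_ h2
  rw [sum_const, nsmul_eq_mul]
  calc (θ / 2) ^ 2 * (A.card : ℝ) ^ 6 = (θ / 2 * (A.card : ℝ) ^ 3) * (θ / 2 * (A.card : ℝ) ^ 3) := by
        ring
    _ ≤ G.card * (θ / 2 * (A.card : ℝ) ^ 3) := mul_le_mul_of_nonneg_right h1 (by positivity)

lemma card_prod_filter {α β : Type*} (S : Finset α) (T : Finset β) (R : α → β → Prop)
    [∀ a b, Decidable (R a b)] :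
    ((S ×ˢ T).filter fun x => R x.1 x.2).card = ∑ s ∈ S, (T.filter fun t => R s t).card := by
  simp only [card_filter]
  rw [sum_product]

/-- the ratios of the differences -/
lemma ratio_set (A : Finset (ZMod p)) (a b : ZMod p) (hab : b ≠ a) (ha : a ∈ A) :
    (((A.erase a).image fun x => (x - a) * (b - a)⁻¹).card = A.card - 1) ∧
      (0 : ZMod p) ∉ ((A.erase a).image fun x => (x - a) * (b - a)⁻¹) := by
  classical
  have hb : (b - a)⁻¹ ≠ 0 := inv_ne_zero (sub_ne_zero.2 hab)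
  refine ⟨?_, ?_⟩
  · rw [card_image_of_injective, card_erase_of_mem ha]
    intro x y h
    exact sub_left_injective (mul_right_cancel₀ hb h)
  · intro h
    rw [mem_image] at h
    obtain ⟨x, hx, hx2⟩ := h
    rcases mul_eq_zero.1 hx2 with h1 | h1
    · exact (mem_erase.1 hx).1 (sub_eq_zero.1 h1)
    · exact hb h1

/-- the upper bound for the number of two-step moves into a small set -/
lemma upper (A S S' : Finset (ZMod p)) (η : ℝ) (hη : 0 ≤ η)
    (nf : ∀ H U : Finset (ZMod p), (0 : ZMod p) ∉ H → (0 : ZMod p) ∉ U → H.card = A.card - 1 →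
      U.card = A.card - 1 →
      ∑ s ∈ S, (((H ×ˢ U).filter fun i => i.2 * (1 - i.1 * s) ∈ S'.image (fun x => 1 - x)).card : ℝ)
        ≤ η * (S.card * (H.card * U.card))) :
    (((S ×ˢ ((A ×ˢ A ×ˢ A) ×ˢ (A ×ˢ A ×ˢ A))).filter fun x => gd x.2.1 ∧ gd x.2.2 ∧
      1 - rt x.2.2 * (1 - rt x.2.1 * x.1) ∈ S').card : ℝ) ≤ η * S.card * (A.card : ℝ) ^ 6 := by
  classical
  obtain ⟨Ω, hΩ⟩ : ∃ Ω, Ω = ((S ×ˢ ((A ×ˢ A ×ˢ A) ×ˢ (A ×ˢ A ×ˢ A))).filter fun x =>
    gd x.2.1 ∧ gd x.2.2 ∧ 1 - rt x.2.2 * (1 - rt x.2.1 * x.1) ∈ S') := ⟨_, rfl⟩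
  rw [← hΩ]
  have h := card_eq_sum_card_fiberwise (s := Ω) (t := (A ×ˢ A) ×ˢ (A ×ˢ A))
    (f := fun x => ((x.2.1.1, x.2.1.2.2), (x.2.2.1, x.2.2.2.2))) (by
      intro x hx
      rw [mem_coe, hΩ, mem_filter] at hx
      simp only [mem_product] at hx
      simp only [coe_product, Set.mem_prod, mem_coe]
      exact ⟨⟨hx.1.2.1.1, hx.1.2.1.2.2⟩, ⟨hx.1.2.2.1, hx.1.2.2.2.2⟩⟩)
  rw [h]
  push_cast
  have hb : ∀ q ∈ (A ×ˢ A) ×ˢ (A ×ˢ A), ((Ω.filter fun x =>
      ((x.2.1.1, x.2.1.2.2), (x.2.2.1, x.2.2.2.2)) = q).card : ℝ) ≤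
        η * S.card * (A.card : ℝ) ^ 2 := by
    intro q hq
    obtain ⟨⟨a, b⟩, ⟨c, d⟩⟩ := q
    simp only [mem_product] at hq
    obtain ⟨⟨ha, hb⟩, ⟨hc, hd⟩⟩ := hq
    by_cases hab : b = a
    · have : (Ω.filter fun x =>
        ((x.2.1.1, x.2.1.2.2), (x.2.2.1, x.2.2.2.2)) = ((a, b), (c, d))) = ∅ := by
        rw [filter_eq_empty_iff]
        intro x hx hx2
        rw [hΩ, mem_filter] at hx
        simp only [Prod.mk.injEq] at hx2
        exact hx.2.1.2 (by rw [hx2.1.2, hx2.1.1, hab])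
      rw [this]
      simp only [card_empty, Nat.cast_zero]
      positivity
    by_cases hcd : d = c
    · have : (Ω.filter fun x =>
        ((x.2.1.1, x.2.1.2.2), (x.2.2.1, x.2.2.2.2)) = ((a, b), (c, d))) = ∅ := by
        rw [filter_eq_empty_iff]
        intro x hx hx2
        rw [hΩ, mem_filter] at hx
        simp only [Prod.mk.injEq] at hx2
        exact hx.2.2.1.2 (by rw [hx2.2.2, hx2.2.1, hcd])
      rw [this]
      simp only [card_empty, Nat.cast_zero]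
      positivity
    obtain ⟨hHc, hH0⟩ := ratio_set A a b hab ha
    obtain ⟨hUc, hU0⟩ := ratio_set A c d hcd hc
    obtain ⟨H, hH⟩ : ∃ H : Finset (ZMod p),
      H = (A.erase a).image fun x => (x - a) * (b - a)⁻¹ := ⟨_, rfl⟩
    obtain ⟨U, hU⟩ : ∃ U : Finset (ZMod p),
      U = (A.erase c).image fun x => (x - c) * (d - c)⁻¹ := ⟨_, rfl⟩
    rw [← hH] at hHc hH0
    rw [← hU] at hUc hU0
    have h1 := nf H U hH0 hU0 hHc hUc
    have h2 : (Ω.filter fun x =>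
        ((x.2.1.1, x.2.1.2.2), (x.2.2.1, x.2.2.2.2)) = ((a, b), (c, d))).card ≤
        ((S ×ˢ (H ×ˢ U)).filter fun x =>
          x.2.2 * (1 - x.2.1 * x.1) ∈ S'.image (fun x => 1 - x)).card := by
      refine card_le_card_of_injOn (fun x => (x.1, (rt x.2.1, rt x.2.2))) ?_ ?_
      · intro x hx
        rw [mem_coe, mem_filter, hΩ, mem_filter] at hx
        obtain ⟨⟨hx1, hx2, hx3, hx4⟩, hx5⟩ := hx
        simp only [Prod.mk.injEq] at hx5
        simp only [mem_product] at hx1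
        rw [mem_coe, mem_filter, mem_product, mem_product]
        refine ⟨⟨hx1.1, ?_, ?_⟩, ?_⟩
        · rw [hH, mem_image]
          refine ⟨x.2.1.2.1, ?_, ?_⟩
          · rw [mem_erase]
            exact ⟨by rw [← hx5.1.1]; exact hx2.1, hx1.2.1.2.1⟩
          · change _ = rt x.2.1
            unfold rt
            rw [hx5.1.1, hx5.1.2]
        · rw [hU, mem_image]
          refine ⟨x.2.2.2.1, ?_, ?_⟩
          · rw [mem_erase]
            exact ⟨by rw [← hx5.2.1]; exact hx3.1, hx1.2.2.2.1⟩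
          · change _ = rt x.2.2
            unfold rt
            rw [hx5.2.1, hx5.2.2]
        · rw [mem_image]
          exact ⟨_, hx4, by ring⟩
      · intro x hx y hy hxy
        rw [mem_coe, mem_filter] at hx hy
        have hx5 := hx.2
        have hy5 := hy.2
        simp only [Prod.mk.injEq] at hx5 hy5 hxy
        obtain ⟨e1, e2, e3⟩ := hxy
        unfold rt at e2 e3
        rw [hx5.1.1, hx5.1.2, hy5.1.1, hy5.1.2] at e2
        rw [hx5.2.1, hx5.2.2, hy5.2.1, hy5.2.2] at e3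
        have f2 := sub_left_injective (mul_right_cancel₀
          (inv_ne_zero (sub_ne_zero.2 hab)) e2)
        have f3 := sub_left_injective (mul_right_cancel₀
          (inv_ne_zero (sub_ne_zero.2 hcd)) e3)
        refine Prod.ext e1 (Prod.ext (Prod.ext ?_ (Prod.ext f2 ?_)) (Prod.ext ?_ (Prod.ext f3 ?_)))
        · rw [hx5.1.1, hy5.1.1]
        · rw [hx5.1.2, hy5.1.2]
        · rw [hx5.2.1, hy5.2.1]
        · rw [hx5.2.2, hy5.2.2]
    have h3 : (((S ×ˢ (H ×ˢ U)).filter fun x =>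
          x.2.2 * (1 - x.2.1 * x.1) ∈ S'.image (fun x => 1 - x)).card : ℝ) =
        ∑ s ∈ S, (((H ×ˢ U).filter fun i =>
          i.2 * (1 - i.1 * s) ∈ S'.image (fun x => 1 - x)).card : ℝ) := by
      rw [card_prod_filter S (H ×ˢ U)
        (fun s i => i.2 * (1 - i.1 * s) ∈ S'.image (fun x => 1 - x))]
      push_cast
      rfl
    have h4 : (H.card : ℝ) ≤ A.card := by rw [hHc]; exact_mod_cast Nat.sub_le _ _
    have h5 : (U.card : ℝ) ≤ A.card := by rw [hUc]; exact_mod_cast Nat.sub_le _ _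
    calc _ ≤ (((S ×ˢ (H ×ˢ U)).filter fun x =>
          x.2.2 * (1 - x.2.1 * x.1) ∈ S'.image (fun x => 1 - x)).card : ℝ) := by exact_mod_cast h2
      _ ≤ η * (S.card * (H.card * U.card)) := by rw [h3]; exact h1
      _ ≤ η * (S.card * (A.card * A.card)) := by gcongr
      _ = _ := by ring
  refine (sum_le_sum hb).trans (le_of_eq ?_)
  rw [sum_const, nsmul_eq_mul, card_product, card_product]
  push_cast
  ring

end

end Pool.Agent.R111.PG
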