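import Pool.Agent.R111.PG.Few

set_option autoImplicit false

/-! # Almost all characters: uniform bounds for bilinear forms with kernel `χ (a + b)` -/

open Finset

namespace Pool.Agent.R111.PG

open Pool.Agent.H435R3.Paley (norm_unit exists_large)

/-- one of the sets is the larger one -/
theorem few_cyc' (ε : ℝ) (hε : 0 < ε) : ∃ c : ℝ, 0 < c ∧ ∃ τ : ℝ, 0 < τ ∧ ∃ p₀ : ℕ,
    ∀ (p : ℕ) [Fact p.Prime], p₀ ≤ p → ∀ A B : Finset (ZMod p), B.card ≤ A.card →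
    (p : ℝ) ^ ε ≤ B.card → ∀ X : Finset (DirichletCharacter ℂ p),
    (∀ χ ∈ X, χ ≠ 1 ∧ (p : ℝ) ^ (-τ) * ((A.card : ℝ) * B.card) ^ 2 ≤ cyc χ A B) →
    (X.card : ℝ) * A.card ≤ (p : ℝ) ^ (1 - c) := by
  classical
  obtain ⟨c0, hc0, p₁, hfix⟩ := no_fix (ε / 2) (by positivity)
  obtain ⟨τ, hτ⟩ : ∃ τ : ℝ, τ = min (c0 / 16) (ε / 4) := ⟨_, rfl⟩
  have hτ0 : 0 < τ := by rw [hτ]; positivity
  have hτc : τ ≤ c0 / 16 := by rw [hτ]; exact min_le_left _ _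
  have hτε : τ ≤ ε / 4 := by rw [hτ]; exact min_le_right _ _
  obtain ⟨p₂, hp₂2, hp₂⟩ := exists_large 9 (c0 / 2) (by positivity)
  obtain ⟨p₃, hp₃2, hp₃⟩ := exists_large 9 (ε / 2) (by positivity)
  refine ⟨c0 / 4, by positivity, τ, hτ0, p₁ + p₂ + p₃, fun p _ hp A B hBA hB X hX => ?_⟩
  have hp2 : (2 : ℝ) ≤ p := by exact_mod_cast (Fact.out : p.Prime).two_le
  have hp0 : (0 : ℝ) < p := by linarith
  have hp1 : (1 : ℝ) ≤ p := by linarith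
  have hmono : ∀ x y : ℝ, x ≤ y → (p : ℝ) ^ x ≤ (p : ℝ) ^ y := fun x y h =>
    Real.rpow_le_rpow_of_exponent_le hp1 h
  by_contra hcon
  have hcon := not_le.1 hcon
  have hXne : X.Nonempty := by
    by_contra h
    rw [not_nonempty_iff_eq_empty] at h
    rw [h] at hcon
    simp only [card_empty, Nat.cast_zero, zero_mul] at hcon
    have : (0 : ℝ) < (p : ℝ) ^ (1 - c0 / 4) := by positivity
    linarith
  obtain ⟨β, hβ⟩ : ∃ β : ℝ, β = B.card := ⟨_, rfl⟩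
  obtain ⟨α, hα⟩ : ∃ α : ℝ, α = A.card := ⟨_, rfl⟩
  obtain ⟨ξ, hξ⟩ : ∃ ξ : ℝ, ξ = X.card := ⟨_, rfl⟩
  obtain ⟨θ, hθ⟩ : ∃ θ : ℝ, θ = (p : ℝ) ^ (-τ) := ⟨_, rfl⟩
  have hθ0 : 0 < θ := by rw [hθ]; positivity
  have hβ0 : 0 < β := by rw [hβ]; exact lt_of_lt_of_le (by positivity) hB
  have hβα : β ≤ α := by rw [hβ, hα]; exact_mod_cast hBA
  have hα0 : 0 < α := by linarith
  have hξ0 : 0 < ξ := by rw [hξ]; exact_mod_cast hXne.card_pos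
  have hAne : A.Nonempty := by
    rw [← card_pos]
    have : (0 : ℝ) < A.card := by rw [← hα]; exact hα0
    exact_mod_cast this
  have hBne : B.Nonempty := by
    rw [← card_pos]
    have : (0 : ℝ) < B.card := by rw [← hβ]; exact hβ0
    exact_mod_cast this
  have hcon2 : (p : ℝ) ^ (1 - c0 / 4) < ξ * α := by rw [hξ, hα]; exact hcon
  -- the size of `A`
  have hαs : α ≤ (p : ℝ) ^ (1 - ε / 2) := by
    obtain ⟨χ, hχ⟩ := hXne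
    obtain ⟨h1, h2⟩ := hX χ hχ
    have h3 := h2.trans (cyc_le χ h1 A B)
    rw [← hθ, ← hα, ← hβ] at h3
    have h4 : θ * (α * β) ≤ p := by
      have h5 : (θ * (α * β)) * (α * β) ≤ p * (α * β) := by
        calc _ = θ * (α * β) ^ 2 := by ring
          _ ≤ _ := h3
      exact le_of_mul_le_mul_right h5 (by positivity)
    have h6 : α * β ≤ (p : ℝ) ^ (1 + τ) := by
      have h7 : (p : ℝ) ^ τ * (θ * (α * β)) ≤ (p : ℝ) ^ τ * p :=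
        mul_le_mul_of_nonneg_left h4 (by positivity)
      have e1 : (p : ℝ) ^ τ * (θ * (α * β)) = α * β := by
        rw [hθ, Real.rpow_neg hp0.le]
        field_simp
      have e2 : (p : ℝ) ^ τ * p = (p : ℝ) ^ (1 + τ) := by
        rw [add_comm, Real.rpow_add hp0, Real.rpow_one]
      rw [e1, e2] at h7
      exact h7
    have h8 : α * (p : ℝ) ^ ε ≤ (p : ℝ) ^ (1 - ε / 2) * (p : ℝ) ^ ε := by
      calc α * (p : ℝ) ^ ε ≤ α * β := by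
            rw [hβ]
            exact mul_le_mul_of_nonneg_left hB hα0.le
        _ ≤ (p : ℝ) ^ (1 + τ) := h6
        _ ≤ (p : ℝ) ^ (1 - ε / 2 + ε) := hmono _ _ (by linarith)
        _ = _ := Real.rpow_add hp0 _ _
    exact le_of_mul_le_mul_right h8 (by positivity)
  -- the spectrum
  have hspec := spec X A B θ hθ0 hXne fun χ hχ => by rw [hθ]; exact (hX χ hχ).2
  rw [← hα, ← hβ] at hspec
  obtain ⟨y, hy⟩ : ∃ y : ℝ, y = θ ^ 2 / 4 * (α * β ^ 2) := ⟨_, rfl⟩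
  have hy0 : 0 < y := by rw [hy]; positivity
  have h9ε : 9 ≤ (p : ℝ) ^ (ε / 2) := hp₃ p (by omega)
  have h9c : 9 ≤ (p : ℝ) ^ (c0 / 2) := hp₂ p (by omega)
  have hθβ : 8 ≤ θ ^ 2 * β := by
    have e1 : θ ^ 2 = (p : ℝ) ^ (-(2 * τ)) := by
      rw [hθ, ← Real.rpow_natCast, ← Real.rpow_mul hp0.le]
      congr 1
      push_cast
      ring
    rw [e1]
    calc (8 : ℝ) ≤ 9 := by norm_num
      _ ≤ (p : ℝ) ^ (ε / 2) := h9ε
      _ ≤ (p : ℝ) ^ (-(2 * τ) + ε) := hmono _ _ (by linarith)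
      _ = (p : ℝ) ^ (-(2 * τ)) * (p : ℝ) ^ ε := Real.rpow_add hp0 _ _
      _ ≤ (p : ℝ) ^ (-(2 * τ)) * β := by
          rw [hβ]
          exact mul_le_mul_of_nonneg_left hB (by positivity)
  obtain ⟨Z, hZ⟩ : ∃ Z, Z = Zs X θ := ⟨_, rfl⟩
  rw [← hZ] at hspec
  obtain ⟨a', b', a2, a2', b2', hne, hTr⟩ := param A B Z hAne hBne y hy0 (by
    rw [← hα, ← hβ]
    refine le_trans ?_ hspec
    rw [hy]
    have h1 : α ^ 3 * β ^ 4 ≤ α ^ 4 * β ^ 3 := by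
      calc α ^ 3 * β ^ 4 = (α ^ 3 * β ^ 3) * β := by ring
        _ ≤ (α ^ 3 * β ^ 3) * α := mul_le_mul_of_nonneg_left hβα (by positivity)
        _ = _ := by ring
    have h2 : 8 * (α ^ 4 * β ^ 3) ≤ θ ^ 2 * β * (α ^ 4 * β ^ 3) :=
      mul_le_mul_of_nonneg_right hθβ (by positivity)
    have h3 : θ ^ 2 / 2 * (α * β) ^ 4 = θ ^ 2 / 4 * (α ^ 4 * β ^ 4) + θ ^ 2 / 4 * (α ^ 4 * β ^ 4) := by
      ring
    have h4 : α ^ 3 * β ^ 2 * (θ ^ 2 / 4 * (α * β ^ 2)) = θ ^ 2 / 4 * (α ^ 4 * β ^ 4) := by ring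
    have h5 : θ ^ 2 * β * (α ^ 4 * β ^ 3) = 4 * (θ ^ 2 / 4 * (α ^ 4 * β ^ 4)) := by ring
    rw [h3, h4]
    linarith)
  have hTrne : (Tr A B Z a' b' a2 a2' b2').Nonempty := by
    rw [← card_pos]
    have : (0 : ℝ) < ((Tr A B Z a' b' a2 a2' b2').card : ℝ) := lt_of_lt_of_le hy0 hTr
    exact_mod_cast this
  have hZ0 : (0 : ZMod p) ∉ Z := by rw [hZ]; exact zero_Zs X θ hθ0 hXne
  obtain ⟨S, H, U, hH0, hU0, hSA, hHB, hUB, hAS, hBH, hBU, hcount⟩ :=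
    inject A B Z hZ0 a' b' a2 a2' b2' hne hTrne
  have hSA' : (S.card : ℝ) ≤ α := by rw [hα]; exact_mod_cast hSA
  have hHB' : (H.card : ℝ) ≤ β := by rw [hβ]; exact_mod_cast hHB
  have hUB' : (U.card : ℝ) ≤ β := by rw [hβ]; exact_mod_cast hUB
  have hAS' : α ≤ S.card + 1 := by rw [hα]; exact_mod_cast hAS
  have hBH' : β ≤ H.card + 2 := by rw [hβ]; exact_mod_cast hBH
  have hBU' : β ≤ U.card + 2 := by rw [hβ]; exact_mod_cast hBU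
  have hββ : (p : ℝ) ^ (ε / 2) + 2 ≤ β := by
    have h1 : (p : ℝ) ^ ε = (p : ℝ) ^ (ε / 2) * (p : ℝ) ^ (ε / 2) := by
      rw [← Real.rpow_add hp0]
      congr 1
      ring
    have h2 : (p : ℝ) ^ (ε / 2) * (p : ℝ) ^ (ε / 2) ≤ β := by rw [← h1, hβ]; exact hB
    have h3 : 9 * (p : ℝ) ^ (ε / 2) ≤ (p : ℝ) ^ (ε / 2) * (p : ℝ) ^ (ε / 2) :=
      mul_le_mul_of_nonneg_right h9ε (by positivity)
    linarith
  have hS1 : 1 ≤ (S.card : ℝ) := by linarith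
  have hα2 : α ≤ 2 * S.card := by linarith
  have hZs : (Z.card : ℝ) ≤ (p : ℝ) ^ c0 * S.card := by
    have h1 := card_Zs X θ hXne
    rw [← hZ, ← hξ] at h1
    have h2 : (Z.card : ℝ) * (θ ^ 4 * (ξ * α)) ≤ 4 * p * α := by
      calc _ = (Z.card * (θ ^ 4 * ξ)) * α := by ring
        _ ≤ _ := mul_le_mul_of_nonneg_right h1 hα0.le
    have h3 : (Z.card : ℝ) * (θ ^ 4 * (p : ℝ) ^ (1 - c0 / 4)) ≤ 4 * p * α := by
      refine le_trans ?_ h2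
      exact mul_le_mul_of_nonneg_left (mul_le_mul_of_nonneg_left hcon2.le (by positivity))
        (Nat.cast_nonneg _)
    have e1 : θ ^ 4 * (p : ℝ) ^ (1 - c0 / 4) = (p : ℝ) ^ (1 - c0 / 4 - 4 * τ) := by
      rw [hθ, ← Real.rpow_natCast, ← Real.rpow_mul hp0.le, ← Real.rpow_add hp0]
      congr 1
      push_cast
      ring
    rw [e1] at h3
    have h4 : (Z.card : ℝ) ≤ (4 * α) * (p : ℝ) ^ (c0 / 4 + 4 * τ) := by
      have h5 : (Z.card : ℝ) * (p : ℝ) ^ (1 - c0 / 4 - 4 * τ) ≤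
          ((4 * α) * (p : ℝ) ^ (c0 / 4 + 4 * τ)) * (p : ℝ) ^ (1 - c0 / 4 - 4 * τ) := by
        refine h3.trans (le_of_eq ?_)
        rw [mul_assoc (4 * α), ← Real.rpow_add hp0]
        rw [show c0 / 4 + 4 * τ + (1 - c0 / 4 - 4 * τ) = 1 by ring, Real.rpow_one]
        ring
      exact le_of_mul_le_mul_right h5 (by positivity)
    calc (Z.card : ℝ) ≤ (4 * α) * (p : ℝ) ^ (c0 / 4 + 4 * τ) := h4
      _ ≤ (4 * (2 * S.card)) * (p : ℝ) ^ (c0 / 2) :=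
          mul_le_mul (by linarith) (hmono _ _ (by linarith)) (by positivity) (by positivity)
      _ = 8 * ((p : ℝ) ^ (c0 / 2) * S.card) := by ring
      _ ≤ (p : ℝ) ^ (c0 / 2) * ((p : ℝ) ^ (c0 / 2) * S.card) :=
          mul_le_mul_of_nonneg_right (by linarith) (by positivity)
      _ = _ := by
          rw [← mul_assoc, ← Real.rpow_add hp0]
          congr 2
          ring
  have hfin := hfix p (by omega) H U S Z hH0 hU0 (by linarith) (by linarith)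
    (hSA'.trans hαs) hZs
  have h1 : y ≤ (p : ℝ) ^ (-c0) * (α * β ^ 2) := by
    calc y ≤ ((Tr A B Z a' b' a2 a2' b2').card : ℝ) := hTr
      _ ≤ _ := hcount
      _ ≤ (p : ℝ) ^ (-c0) * (S.card * (H.card * U.card)) := by
          refine le_trans (le_of_eq ?_) hfin
          refine sum_congr rfl fun s _ => ?_
          congr!
      _ ≤ (p : ℝ) ^ (-c0) * (α * (β * β)) := by gcongr
      _ = _ := by ring
  rw [hy] at h1
  have h2 : θ ^ 2 / 4 ≤ (p : ℝ) ^ (-c0) := le_of_mul_le_mul_right h1 (by positivity)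
  have e2 : θ ^ 2 = (p : ℝ) ^ (-(2 * τ)) := by
    rw [hθ, ← Real.rpow_natCast, ← Real.rpow_mul hp0.le]
    congr 1
    push_cast
    ring
  have h3 : (p : ℝ) ^ (c0 / 2) * (p : ℝ) ^ (-c0) ≤ (p : ℝ) ^ (-(2 * τ)) := by
    rw [← Real.rpow_add hp0]
    exact hmono _ _ (by linarith)
  have h4 : 9 * (p : ℝ) ^ (-c0) ≤ (p : ℝ) ^ (c0 / 2) * (p : ℝ) ^ (-c0) :=
    mul_le_mul_of_nonneg_right h9c (by positivity)
  have h5 : (0 : ℝ) < (p : ℝ) ^ (-c0) := by positivity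
  rw [e2] at h2
  linarith

/-- few characters with a large 4-cycle sum -/
theorem few_cyc (ε : ℝ) (hε : 0 < ε) : ∃ c : ℝ, 0 < c ∧ ∃ τ : ℝ, 0 < τ ∧ ∃ p₀ : ℕ,
    ∀ (p : ℕ) [Fact p.Prime], p₀ ≤ p → ∀ A B : Finset (ZMod p),
    (p : ℝ) ^ ε ≤ A.card → (p : ℝ) ^ ε ≤ B.card → ∀ X : Finset (DirichletCharacter ℂ p),
    (∀ χ ∈ X, χ ≠ 1 ∧ (p : ℝ) ^ (-τ) * ((A.card : ℝ) * B.card) ^ 2 ≤ cyc χ A B) →
    (X.card : ℝ) ≤ (p : ℝ) ^ (1 - c) / max (A.card : ℝ) B.card := by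
  obtain ⟨c, hc, τ, hτ, p₀, h⟩ := few_cyc' ε hε
  refine ⟨c, hc, τ, hτ, p₀, fun p _ hp A B hA hB X hX => ?_⟩
  have hp0 : (0 : ℝ) < p := by exact_mod_cast (Fact.out : p.Prime).pos
  have hA0 : (0 : ℝ) < A.card := lt_of_lt_of_le (by positivity) hA
  rw [le_div_iff₀ (lt_of_lt_of_le hA0 (le_max_left _ _))]
  rcases le_total B.card A.card with hle | hle
  · rw [max_eq_left (by exact_mod_cast hle)]
    exact h p hp A B hle hB X hX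
  · rw [max_eq_right (by exact_mod_cast hle)]
    refine h p hp B A hle hA X fun χ hχ => ⟨(hX χ hχ).1, ?_⟩
    rw [cyc_swap, mul_comm (B.card : ℝ)]
    exact (hX χ hχ).2

/-- **uniform bounds for bilinear forms for almost all characters** -/
theorem few_forms (ε : ℝ) (hε : 0 < ε) : ∃ c : ℝ, 0 < c ∧ ∃ δ : ℝ, 0 < δ ∧ ∃ p₀ : ℕ,
    ∀ (p : ℕ) [Fact p.Prime], p₀ ≤ p → ∀ A B : Finset (ZMod p),
    (p : ℝ) ^ ε ≤ A.card → (p : ℝ) ^ ε ≤ B.card →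
    (({χ : DirichletCharacter ℂ p | χ ≠ 1 ∧ ∃ α β : ZMod p → ℂ,
      (p : ℝ) ^ (-δ) * (Real.sqrt (A.card * B.card) * (Real.sqrt (∑ a ∈ A, ‖α a‖ ^ 2) *
        Real.sqrt (∑ b ∈ B, ‖β b‖ ^ 2))) < ‖∑ a ∈ A, ∑ b ∈ B, α a * β b * χ (a + b)‖}.ncard : ℕ) :
          ℝ) ≤ (p : ℝ) ^ (1 - c) / max (A.card : ℝ) B.card := by
  classical
  obtain ⟨c, hc, τ, hτ, p₀, h⟩ := few_cyc ε hε
  refine ⟨c, hc, τ / 4, by positivity, p₀, fun p _ hp A B hA hB => ?_⟩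
  have hp0 : (0 : ℝ) < p := by exact_mod_cast (Fact.out : p.Prime).pos
  obtain ⟨E, hE⟩ : ∃ E : Set (DirichletCharacter ℂ p), E = {χ : DirichletCharacter ℂ p |
      χ ≠ 1 ∧ ∃ α β : ZMod p → ℂ,
      (p : ℝ) ^ (-(τ / 4)) * (Real.sqrt (A.card * B.card) * (Real.sqrt (∑ a ∈ A, ‖α a‖ ^ 2) *
        Real.sqrt (∑ b ∈ B, ‖β b‖ ^ 2))) < ‖∑ a ∈ A, ∑ b ∈ B, α a * β b * χ (a + b)‖} :=
    ⟨_, rfl⟩
  rw [← hE]
  have hfin : E.Finite := Set.toFinite E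
  rw [Set.ncard_eq_toFinset_card E hfin]
  refine h p hp A B hA hB hfin.toFinset fun χ hχ => ?_
  rw [Set.Finite.mem_toFinset, hE] at hχ
  obtain ⟨h1, α, β, h2⟩ := hχ
  refine ⟨h1, ?_⟩
  have h3 := form_le χ A B α β
  obtain ⟨x, hx⟩ : ∃ x : ℝ, x = ∑ a ∈ A, ‖α a‖ ^ 2 := ⟨_, rfl⟩
  obtain ⟨y, hy⟩ : ∃ y : ℝ, y = ∑ b ∈ B, ‖β b‖ ^ 2 := ⟨_, rfl⟩
  obtain ⟨n, hn⟩ : ∃ n : ℝ, n = (A.card : ℝ) * B.card := ⟨_, rfl⟩
  have hx0 : 0 ≤ x := by rw [hx]; positivity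
  have hy0 : 0 ≤ y := by rw [hy]; positivity
  have hn0 : 0 ≤ n := by rw [hn]; positivity
  rw [← hx, ← hy] at h2 h3
  rw [← hn] at h2 ⊢
  have h4 : ((p : ℝ) ^ (-(τ / 4)) * (Real.sqrt n * (Real.sqrt x * Real.sqrt y))) ^ 4 <
      ‖∑ a ∈ A, ∑ b ∈ B, α a * β b * χ (a + b)‖ ^ 4 :=
    pow_lt_pow_left₀ h2 (by positivity) (by norm_num)
  have e1 : ((p : ℝ) ^ (-(τ / 4)) * (Real.sqrt n * (Real.sqrt x * Real.sqrt y))) ^ 4 =
      (x ^ 2 * y ^ 2) * ((p : ℝ) ^ (-τ) * n ^ 2) := by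
    have s1 := Real.sq_sqrt hn0
    have s2 := Real.sq_sqrt hx0
    have s3 := Real.sq_sqrt hy0
    have s4 : ((p : ℝ) ^ (-(τ / 4))) ^ 4 = (p : ℝ) ^ (-τ) := by
      rw [← Real.rpow_natCast, ← Real.rpow_mul hp0.le]
      congr 1
      push_cast
      ring
    calc _ = ((p : ℝ) ^ (-(τ / 4))) ^ 4 * ((Real.sqrt n ^ 2) ^ 2 * ((Real.sqrt x ^ 2) ^ 2 *
          (Real.sqrt y ^ 2) ^ 2)) := by ring
      _ = _ := by rw [s1, s2, s3, s4]; ring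
  have h5 : (x ^ 2 * y ^ 2) * ((p : ℝ) ^ (-τ) * n ^ 2) < (x ^ 2 * y ^ 2) * cyc χ A B := by
    rw [← e1]
    exact h4.trans_le h3
  have h6 : 0 < x ^ 2 * y ^ 2 := by
    rcases (show 0 ≤ x ^ 2 * y ^ 2 by positivity).eq_or_lt with h0 | h0
    · rw [← h0, zero_mul, zero_mul] at h5
      exact absurd h5 (lt_irrefl _)
    · exact h0
  exact (lt_of_mul_lt_mul_left h5 h6.le).le

end Pool.Agent.R111.PG
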