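import Pool.Agent.R111.PG.Pruned

set_option autoImplicit false

/-! # Affine maps sending many pairs of a set into a small set of pairs -/

open Finset

namespace Pool.Agent.R111.PG

open Pool.Agent.H435R3.Paley (exists_large)

/-- the choice of the exponent -/
lemma params (ε c1 : ℝ) (hε : 0 < ε) (hc1 : 0 < c1) : ∃ M : ℕ, 1 < c1 * M ∧ ∃ c : ℝ, 0 < c ∧
    c * 60 ≤ c1 ∧ c * (5 + 17 * M) ≤ ε / 2 := by
  obtain ⟨M, hM⟩ := exists_nat_gt (1 / c1)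
  have hM0 : (0 : ℝ) ≤ M := Nat.cast_nonneg _
  have hM1 : 1 < c1 * M := by
    rw [div_lt_iff₀ hc1] at hM
    linarith
  have hmin : 0 < min c1 ε := lt_min hc1 hε
  obtain ⟨c, hc⟩ : ∃ c : ℝ, c = min c1 ε / (60 * ((M : ℝ) + 1)) := ⟨_, rfl⟩
  have hc0 : 0 < c := by rw [hc]; positivity
  have hcM : c * (60 * ((M : ℝ) + 1)) = min c1 ε := by
    rw [hc]; field_simp
  have hcM' : 0 ≤ c * M := by positivity
  refine ⟨M, hM1, c, hc0, ?_, ?_⟩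
  · have := min_le_left c1 ε
    linarith
  · have := min_le_right c1 ε
    linarith

lemma kappa_ge (x : ℝ) (hx0 : 0 < x) (hx : x ≤ 1 / 16) : x ^ 17 ≤ ((x ^ 4) ^ 2 / 2) ^ 2 := by
  have : ((x ^ 4) ^ 2 / 2) ^ 2 = x ^ 16 * (1 / 4) := by ring
  rw [this]
  calc x ^ 17 = x ^ 16 * x := by ring
    _ ≤ x ^ 16 * (1 / 4) := mul_le_mul_of_nonneg_left (by linarith) (by positivity)

lemma kappa_le (x : ℝ) (hx0 : 0 < x) (hx : x ≤ 1 / 16) : ((x ^ 4) ^ 2 / 2) ^ 2 ≤ 1 := by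
  have : ((x ^ 4) ^ 2 / 2) ^ 2 = x ^ 16 * (1 / 4) := by ring
  rw [this]
  have : x ^ 16 ≤ 1 := pow_le_one₀ hx0.le (by linarith)
  linarith

/-- the size of the level sets -/
lemma level_size (P ε c : ℝ) (M n : ℕ) (hP : 1 ≤ P) (hn : n ≤ M)
    (hcε : c * (5 + 17 * M) ≤ ε / 2) (x κ α S ζ : ℝ) (hx : x = P ^ (-c)) (hx1 : x ≤ 1)
    (hκ : x ^ 17 ≤ κ) (hα : P ^ ε ≤ α) (hS0 : 0 ≤ S) (hζ : ζ ≤ P ^ (1 + c))
    (h : S * (κ ^ n * (x ^ 4 * α)) ≤ ζ) : S ≤ P ^ (1 - ε / 2) := by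
  have hP0 : 0 < P := by linarith
  have hx0 : 0 < x := by rw [hx]; positivity
  have hxn : ∀ n : ℕ, x ^ n = P ^ (-(c * n)) := by
    intro n
    rw [hx, ← Real.rpow_natCast, ← Real.rpow_mul hP0.le]
    congr 1
    ring
  have h5 : x ^ (4 + 17 * M) * P ^ ε ≤ κ ^ n * (x ^ 4 * α) := by
    have h6 : x ^ (17 * M) ≤ κ ^ n := by
      calc x ^ (17 * M) ≤ x ^ (17 * n) :=
            pow_le_pow_of_le_one hx0.le hx1 (by omega)
        _ = (x ^ 17) ^ n := by rw [pow_mul]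
        _ ≤ κ ^ n := pow_le_pow_left₀ (by positivity) hκ n
    calc x ^ (4 + 17 * M) * P ^ ε = x ^ (17 * M) * (x ^ 4 * P ^ ε) := by
          rw [pow_add]; ring
      _ ≤ κ ^ n * (x ^ 4 * α) := mul_le_mul h6 (mul_le_mul_of_nonneg_left hα (by positivity))
          (by positivity) (le_trans (by positivity) h6)
  have h6 : S * (x ^ (4 + 17 * M) * P ^ ε) ≤ P ^ (1 + c) :=
    ((mul_le_mul_of_nonneg_left h5 hS0).trans h).trans hζ
  rw [hxn, ← Real.rpow_add hP0] at h6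
  have h7 : P ^ (1 + c) = P ^ (1 + c - (-(c * ((4 + 17 * M : ℕ) : ℝ)) + ε)) *
      P ^ (-(c * ((4 + 17 * M : ℕ) : ℝ)) + ε) := by
    rw [← Real.rpow_add hP0]
    congr 1
    ring
  rw [h7] at h6
  have h8 := le_of_mul_le_mul_right h6 (by positivity)
  refine h8.trans (Real.rpow_le_rpow_of_exponent_le hP ?_)
  push_cast
  linarith

/-- there is no small stable set -/
theorem no_stable (ε : ℝ) (hε : 0 < ε) : ∃ c : ℝ, 0 < c ∧ ∃ p₀ : ℕ, ∀ (p : ℕ) [Fact p.Prime],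
    p₀ ≤ p → ∀ A : Finset (ZMod p), (p : ℝ) ^ ε ≤ A.card → ∀ Z : Finset (ZMod p × ZMod p),
      ∀ Y : ZMod p, (Z.card : ℝ) ≤ (p : ℝ) ^ (1 + c) → (p : ℝ) ^ (-c) ≤ 1 / 16 ∧
      ¬ Stable A Z Y ((p : ℝ) ^ (-c)) := by
  obtain ⟨c1, hc1, p₁, hfix⟩ := no_fix (ε / 2) (by positivity)
  obtain ⟨M, hM1, c, hc0, hcc1, hcε⟩ := params ε c1 hε hc1
  obtain ⟨p₂, hp₂2, hp₂⟩ := exists_large 16 c hc0
  obtain ⟨p₃, hp₃2, hp₃⟩ := exists_large 2 (ε / 2) (by positivity)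
  refine ⟨c, hc0, p₁ + p₂ + p₃, fun p _ hp A hA Z Y hZ => ?_⟩
  have hp2 : (2 : ℝ) ≤ p := by exact_mod_cast (Fact.out : p.Prime).two_le
  have hp0 : (0 : ℝ) < p := by linarith
  have hp1 : (1 : ℝ) ≤ p := by linarith
  obtain ⟨x, hx⟩ : ∃ x : ℝ, x = (p : ℝ) ^ (-c) := ⟨_, rfl⟩
  rw [← hx]
  have hx0 : 0 < x := by rw [hx]; positivity
  have hxc : x * (p : ℝ) ^ c = 1 := by
    rw [hx, ← Real.rpow_add hp0]; simp
  have hx16 : x ≤ 1 / 16 := by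
    have h1 := mul_le_mul_of_nonneg_left (hp₂ p (by omega)) hx0.le
    rw [hxc] at h1
    linarith
  refine ⟨hx16, fun hst => ?_⟩
  have hA0 : (0 : ℝ) < A.card := lt_of_lt_of_le (by positivity) hA
  obtain ⟨κ, hκ⟩ : ∃ κ : ℝ, κ = ((x ^ 4) ^ 2 / 2) ^ 2 := ⟨_, rfl⟩
  have hκ0 : 0 < κ := by rw [hκ]; positivity
  have hκ17 : x ^ 17 ≤ κ := by rw [hκ]; exact kappa_ge x hx0 hx16
  have hκ1 : κ ≤ 1 := by rw [hκ]; exact kappa_le x hx0 hx16
  obtain ⟨lam, hlam⟩ : ∃ lam : ℕ → ℝ, lam = fun n => κ ^ n * (x ^ 4 * A.card) := ⟨_, rfl⟩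
  have hlampos : ∀ n, 0 < lam n := by intro n; rw [hlam]; positivity
  have hlams : ∀ n, lam (n + 1) = κ * lam n := by
    intro n; rw [hlam]; simp only; rw [pow_succ]; ring
  have hlam0 : lam 0 ≤ wt Z Y 0 := by
    rw [hlam]
    simp only [pow_zero, one_mul]
    exact hst.2.2.2
  have h00 : ∀ n, (0 : ZMod p) ∈ lev Z Y (lam n) := by
    intro n
    rw [mem_lev]
    refine le_trans ?_ hlam0
    rw [hlam]
    simp only [pow_zero]
    exact mul_le_mul_of_nonneg_right (pow_le_one₀ hκ0.le hκ1) (by positivity)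
  have hne : ∀ n, (1 : ℝ) ≤ (lev Z Y (lam n)).card := by
    intro n
    have := card_pos.2 ⟨_, h00 n⟩
    exact_mod_cast this
  have hSp : ((lev Z Y (lam M)).card : ℝ) ≤ p := by
    have := card_le_univ (lev Z Y (lam M))
    rw [ZMod.card] at this
    exact_mod_cast this
  have hq : (p : ℝ) < ((p : ℝ) ^ c1) ^ M := by
    rw [← Real.rpow_natCast, ← Real.rpow_mul hp0.le]
    calc (p : ℝ) = (p : ℝ) ^ (1 : ℝ) := (Real.rpow_one _).symm
      _ < _ := Real.rpow_lt_rpow_of_exponent_lt (by linarith) hM1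
  obtain ⟨n, hnM, hn⟩ := no_growth (fun n => ((lev Z Y (lam n)).card : ℝ)) ((p : ℝ) ^ c1) p M
    (by positivity) (hne 0) hSp hq
  have hSn : ((lev Z Y (lam n)).card : ℝ) ≤ (p : ℝ) ^ (1 - ε / 2) := by
    refine level_size p ε c M n hp1 hnM.le hcε x κ A.card _ Z.card hx (by linarith) hκ17 hA
      (Nat.cast_nonneg _) hZ ?_
    have h3 := level_card Z hst.1 Y (lam n)
    rw [hlam] at h3 ⊢
    unfold lev
    convert h3
  have hAc : (p : ℝ) ^ (ε / 2) ≤ ((A.card - 1 : ℕ) : ℝ) := by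
    have h3 := hp₃ p (by omega)
    have h4 : (p : ℝ) ^ ε = (p : ℝ) ^ (ε / 2) * (p : ℝ) ^ (ε / 2) := by
      rw [← Real.rpow_add hp0]
      congr 1
      ring
    have h5 : (1 : ℕ) ≤ A.card := by exact_mod_cast hA0
    rw [Nat.cast_sub h5]
    push_cast
    have h6 := mul_le_mul_of_nonneg_right h3 (show 0 ≤ (p : ℝ) ^ (ε / 2) by positivity)
    rw [← h4] at h6
    linarith
  have hfin := level_step A Z Y x (lam n) ((p : ℝ) ^ (-c1)) hx0 hA0 hst (hlampos n)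
    (by positivity) (by linarith [hne n]) (by
      intro H U hH0 hU0 hH hU
      refine hfix p (by omega) H U _ _ hH0 hU0 (by rw [hH]; exact hAc) (by rw [hU]; exact hAc)
        hSn ?_
      rw [← hκ, ← hlams]
      exact le_trans (Nat.cast_le.2 card_image_le) hn)
  rw [← hκ] at hfin
  have h9 : (p : ℝ) ^ (-c1) < x ^ 17 := by
    rw [hx, ← Real.rpow_natCast, ← Real.rpow_mul hp0.le]
    refine Real.rpow_lt_rpow_of_exponent_lt (by linarith) ?_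
    push_cast
    linarith
  linarith

/-- the number of affine maps sending many pairs of `A` into a set of about `p` pairs -/
theorem few_maps (ε : ℝ) (hε : 0 < ε) : ∃ c : ℝ, 0 < c ∧ ∃ p₀ : ℕ, ∀ (p : ℕ) [Fact p.Prime],
    p₀ ≤ p → ∀ A : Finset (ZMod p), (p : ℝ) ^ ε ≤ A.card → ∀ Z T : Finset (ZMod p × ZMod p),
      (∀ z ∈ Z, z.1 ≠ z.2) → (Z.card : ℝ) ≤ (p : ℝ) ^ (1 + c) →
      (∀ g ∈ T, (p : ℝ) ^ (-c) * (A.card : ℝ) ^ 2 ≤ (((A ×ˢ A).filter fun q =>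
        (g.1 + g.2 * q.1, g.1 + g.2 * q.2) ∈ Z).card : ℝ)) →
      (T.card : ℝ) ≤ (p : ℝ) ^ (1 - c) := by
  obtain ⟨c, hc0, p₀, hno⟩ := no_stable ε hε
  refine ⟨c, hc0, p₀, fun p _ hp A hA Z T hZne hZ hT => ?_⟩
  have hp2 : (2 : ℝ) ≤ p := by exact_mod_cast (Fact.out : p.Prime).two_le
  have hp0 : (0 : ℝ) < p := by linarith
  by_contra hcon
  have hcon := not_le.1 hcon
  have hx16 := (hno p hp A hA Z 0 hZ).1
  have hT0 : (0 : ℝ) < T.card := lt_trans (by positivity) hcon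
  have hA0 : (0 : ℝ) < A.card := lt_of_lt_of_le (by positivity) hA
  have hZT : ((p : ℝ) ^ (-c)) ^ 2 * Z.card ≤ T.card := by
    have h1 : ((p : ℝ) ^ (-c)) ^ 2 * (p : ℝ) ^ (1 + c) = (p : ℝ) ^ (1 - c) := by
      rw [← Real.rpow_natCast, ← Real.rpow_mul hp0.le, ← Real.rpow_add hp0]
      congr 1
      push_cast
      ring
    calc ((p : ℝ) ^ (-c)) ^ 2 * Z.card ≤ ((p : ℝ) ^ (-c)) ^ 2 * (p : ℝ) ^ (1 + c) :=
          mul_le_mul_of_nonneg_left hZ (by positivity)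
      _ = (p : ℝ) ^ (1 - c) := h1
      _ ≤ T.card := hcon.le
  obtain ⟨Z', hZ'Z, Y, hst⟩ := pruned A Z T _ (by positivity) hx16 hA0 hT0 hZne hZT hT
  refine (hno p hp A hA Z' Y ?_).2 hst
  exact le_trans (Nat.cast_le.2 (card_le_card hZ'Z)) hZ

end Pool.Agent.R111.PG
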