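import Pool.Agent.R111.PG.Levels

set_option autoImplicit false

/-! # Incidences of affine maps and pairs, after pruning -/

open Finset

namespace Pool.Agent.R111.PG

section
variable {p : ℕ} [Fact p.Prime]

/-- the pair of values of an affine map at two points -/
def zz (j : (ZMod p × ZMod p) × ZMod p × ZMod p) : ZMod p × ZMod p :=
  (j.1.1 + j.1.2 * j.2.1, j.1.1 + j.1.2 * j.2.2)

/-- an affine map is determined by the values at two points -/
lemma zz_inj (j i : (ZMod p × ZMod p) × ZMod p × ZMod p) (h : zz j = zz i) (h2 : j.2 = i.2)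
    (hne : (zz j).1 ≠ (zz j).2) : j = i := by
  obtain ⟨⟨s, t⟩, a, b⟩ := j
  obtain ⟨⟨s', t'⟩, a', b'⟩ := i
  simp only [zz, Prod.mk.injEq] at h h2 hne
  obtain ⟨rfl, rfl⟩ := h2
  obtain ⟨e1, e2⟩ := h
  have hab : a - b ≠ 0 := by
    intro h0
    rw [sub_eq_zero.1 h0] at hne
    exact hne rfl
  have e3 : (t - t') * (a - b) = 0 := by linear_combination e1 - e2
  have e4 : t - t' = 0 := by
    rcases mul_eq_zero.1 e3 with h | h
    · exact h
    · exact absurd h hab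
  have e5 : t = t' := sub_eq_zero.1 e4
  have e6 : s = s' := by
    rw [e5] at e1
    exact add_right_cancel e1
  rw [e5, e6]

lemma moves1 (A : Finset (ZMod p)) (J : Finset ((ZMod p × ZMod p) × ZMod p × ZMod p)) (θ : ℝ)
    (hθ : 0 ≤ θ) (hA : ∀ j ∈ J, j.2.1 ∈ A ∧ j.2.2 ∈ A) (hne : ∀ j ∈ J, (zz j).1 ≠ (zz j).2)
    (h0 : ∀ j ∈ J, θ * (A.card : ℝ) ^ 2 ≤ ((J.filter fun i => zz i = zz j).card : ℝ))
    (h1 : ∀ j ∈ J, θ * (A.card : ℝ) ≤
      ((J.filter fun i => (i.1, i.2.1) = (j.1, j.2.1)).card : ℝ)) :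
    ∀ z ∈ J.image zz, θ ^ 2 * (A.card : ℝ) ^ 3 ≤ (((A ×ˢ A ×ˢ A).filter fun l =>
      (z.1, z.1 + (l.2.2 - l.1) * (l.2.1 - l.1)⁻¹ * (z.2 - z.1)) ∈ J.image zz).card : ℝ) := by
  classical
  intro z hz
  rw [mem_image] at hz
  obtain ⟨j0, hj0, rfl⟩ := hz
  obtain ⟨Q, hQ⟩ : ∃ Q, Q = ((J.filter fun i => zz i = zz j0) ×ˢ J).filter fun x =>
    (x.2.1, x.2.2.1) = (x.1.1, x.1.2.1) := ⟨_, rfl⟩
  have hQc : θ ^ 2 * (A.card : ℝ) ^ 3 ≤ (Q.card : ℝ) := by
    have e : (Q.card : ℝ) = ∑ i ∈ J.filter (fun i => zz i = zz j0),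
        ((J.filter fun i' => (i'.1, i'.2.1) = (i.1, i.2.1)).card : ℝ) := by
      rw [hQ, card_prod_filter (J.filter fun i => zz i = zz j0) J
        (fun i i' => (i'.1, i'.2.1) = (i.1, i.2.1))]
      push_cast
      rfl
    rw [e]
    have h2 : ∑ i ∈ J.filter (fun i => zz i = zz j0), (θ * (A.card : ℝ)) ≤
        ∑ i ∈ J.filter (fun i => zz i = zz j0),
          ((J.filter fun i' => (i'.1, i'.2.1) = (i.1, i.2.1)).card : ℝ) :=
      sum_le_sum fun i hi => h1 i (mem_filter.1 hi).1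
    refine le_trans ?_ h2
    rw [sum_const, nsmul_eq_mul]
    calc θ ^ 2 * (A.card : ℝ) ^ 3 = (θ * (A.card : ℝ) ^ 2) * (θ * A.card) := by ring
      _ ≤ _ := mul_le_mul_of_nonneg_right (h0 j0 hj0) (by positivity)
  refine hQc.trans (Nat.cast_le.2 ?_)
  refine card_le_card_of_injOn (fun x => (x.1.2.1, x.1.2.2, x.2.2.2)) ?_ ?_
  · intro x hx
    rw [mem_coe, hQ, mem_filter, mem_product, mem_filter] at hx
    obtain ⟨⟨⟨hx1, hx2⟩, hx3⟩, hx4⟩ := hx
    simp only [Prod.mk.injEq] at hx4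
    rw [mem_coe, mem_filter]
    refine ⟨?_, ?_⟩
    · simp only [mem_product]
      exact ⟨(hA _ hx1).1, (hA _ hx1).2, (hA _ hx3).2⟩
    · rw [mem_image]
      refine ⟨x.2, hx3, ?_⟩
      have hn := hne _ hx1
      rw [← hx2]
      unfold zz at hn ⊢
      simp only
      rw [hx4.1, hx4.2]
      have hn2 : x.1.2.2 - x.1.2.1 ≠ 0 := by
        intro h
        rw [sub_eq_zero.1 h] at hn
        exact hn rfl
      refine Prod.ext rfl ?_
      simp only
      field_simp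
      ring
  · intro x hx y hy hxy
    rw [mem_coe, hQ, mem_filter, mem_product, mem_filter] at hx hy
    obtain ⟨⟨⟨hx1, hx2⟩, hx3⟩, hx4⟩ := hx
    obtain ⟨⟨⟨hy1, hy2⟩, hy3⟩, hy4⟩ := hy
    simp only [Prod.mk.injEq] at hx4 hy4 hxy
    obtain ⟨e1, e2, e3⟩ := hxy
    have h5 : x.1 = y.1 := zz_inj _ _ (hx2.trans hy2.symm) (Prod.ext e1 e2) (hne _ hx1)
    refine Prod.ext h5 (Prod.ext ?_ (Prod.ext ?_ e3))
    · rw [hx4.1, hy4.1, h5]
    · rw [hx4.2, hy4.2, h5]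

lemma moves2 (A : Finset (ZMod p)) (J : Finset ((ZMod p × ZMod p) × ZMod p × ZMod p)) (θ : ℝ)
    (hθ : 0 ≤ θ) (hA : ∀ j ∈ J, j.2.1 ∈ A ∧ j.2.2 ∈ A) (hne : ∀ j ∈ J, (zz j).1 ≠ (zz j).2)
    (h0 : ∀ j ∈ J, θ * (A.card : ℝ) ^ 2 ≤ ((J.filter fun i => zz i = zz j).card : ℝ))
    (h1 : ∀ j ∈ J, θ * (A.card : ℝ) ≤
      ((J.filter fun i => (i.1, i.2.2) = (j.1, j.2.2)).card : ℝ)) :
    ∀ z ∈ J.image zz, θ ^ 2 * (A.card : ℝ) ^ 3 ≤ (((A ×ˢ A ×ˢ A).filter fun l =>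
      (z.2 + (l.2.2 - l.1) * (l.2.1 - l.1)⁻¹ * (z.1 - z.2), z.2) ∈ J.image zz).card : ℝ) := by
  classical
  intro z hz
  rw [mem_image] at hz
  obtain ⟨j0, hj0, rfl⟩ := hz
  obtain ⟨Q, hQ⟩ : ∃ Q, Q = ((J.filter fun i => zz i = zz j0) ×ˢ J).filter fun x =>
    (x.2.1, x.2.2.2) = (x.1.1, x.1.2.2) := ⟨_, rfl⟩
  have hQc : θ ^ 2 * (A.card : ℝ) ^ 3 ≤ (Q.card : ℝ) := by
    have e : (Q.card : ℝ) = ∑ i ∈ J.filter (fun i => zz i = zz j0),
        ((J.filter fun i' => (i'.1, i'.2.2) = (i.1, i.2.2)).card : ℝ) := by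
      rw [hQ, card_prod_filter (J.filter fun i => zz i = zz j0) J
        (fun i i' => (i'.1, i'.2.2) = (i.1, i.2.2))]
      push_cast
      rfl
    rw [e]
    have h2 : ∑ i ∈ J.filter (fun i => zz i = zz j0), (θ * (A.card : ℝ)) ≤
        ∑ i ∈ J.filter (fun i => zz i = zz j0),
          ((J.filter fun i' => (i'.1, i'.2.2) = (i.1, i.2.2)).card : ℝ) :=
      sum_le_sum fun i hi => h1 i (mem_filter.1 hi).1
    refine le_trans ?_ h2
    rw [sum_const, nsmul_eq_mul]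
    calc θ ^ 2 * (A.card : ℝ) ^ 3 = (θ * (A.card : ℝ) ^ 2) * (θ * A.card) := by ring
      _ ≤ _ := mul_le_mul_of_nonneg_right (h0 j0 hj0) (by positivity)
  refine hQc.trans (Nat.cast_le.2 ?_)
  refine card_le_card_of_injOn (fun x => (x.1.2.2, x.1.2.1, x.2.2.1)) ?_ ?_
  · intro x hx
    rw [mem_coe, hQ, mem_filter, mem_product, mem_filter] at hx
    obtain ⟨⟨⟨hx1, hx2⟩, hx3⟩, hx4⟩ := hx
    simp only [Prod.mk.injEq] at hx4
    rw [mem_coe, mem_filter]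
    refine ⟨?_, ?_⟩
    · simp only [mem_product]
      exact ⟨(hA _ hx1).2, (hA _ hx1).1, (hA _ hx3).1⟩
    · rw [mem_image]
      refine ⟨x.2, hx3, ?_⟩
      have hn := hne _ hx1
      rw [← hx2]
      unfold zz at hn ⊢
      simp only
      rw [hx4.1, hx4.2]
      have hn2 : x.1.2.1 - x.1.2.2 ≠ 0 := by
        intro h
        rw [sub_eq_zero.1 h] at hn
        exact hn rfl
      refine Prod.ext ?_ rfl
      simp only
      field_simp
      ring
  · intro x hx y hy hxy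
    rw [mem_coe, hQ, mem_filter, mem_product, mem_filter] at hx hy
    obtain ⟨⟨⟨hx1, hx2⟩, hx3⟩, hx4⟩ := hx
    obtain ⟨⟨⟨hy1, hy2⟩, hy3⟩, hy4⟩ := hy
    simp only [Prod.mk.injEq] at hx4 hy4 hxy
    obtain ⟨e1, e2, e3⟩ := hxy
    have h5 : x.1 = y.1 := zz_inj _ _ (hx2.trans hy2.symm) (Prod.ext e2 e1) (hne _ hx1)
    refine Prod.ext h5 (Prod.ext ?_ (Prod.ext e3 ?_))
    · rw [hx4.1, hy4.1, h5]
    · rw [hx4.2, hy4.2, h5]

/-- the number of pairs with a given first point -/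
lemma wt_zero (A : Finset (ZMod p)) (J : Finset ((ZMod p × ZMod p) × ZMod p × ZMod p)) (θ : ℝ)
    (hne : ∀ j ∈ J, (zz j).1 ≠ (zz j).2)
    (h1 : ∀ j ∈ J, θ * (A.card : ℝ) ≤
      ((J.filter fun i => (i.1, i.2.1) = (j.1, j.2.1)).card : ℝ)) :
    ∀ j ∈ J, θ * (A.card : ℝ) ≤ wt (J.image zz) (zz j).1 0 := by
  classical
  intro j hj
  refine (h1 j hj).trans (Nat.cast_le.2 ?_)
  unfold wt
  refine card_le_card_of_injOn zz ?_ ?_
  · intro i hi
    rw [mem_coe, mem_filter] at hi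
    rw [mem_coe, mem_filter]
    refine ⟨mem_image_of_mem _ hi.1, ?_⟩
    have := hi.2
    simp only [Prod.mk.injEq] at this
    unfold zz
    simp only
    rw [this.1, this.2]
    ring
  · intro x hx y hy hxy
    rw [mem_coe, mem_filter] at hx hy
    have h2 := hx.2
    have h3 := hy.2
    simp only [Prod.mk.injEq] at h2 h3
    refine Prod.ext (h2.1.trans h3.1.symm) (Prod.ext (h2.2.trans h3.2.symm) ?_)
    have h4 : (zz x).2 = (zz y).2 := by rw [hxy]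
    have hn := hne _ hx.1
    unfold zz at h4 hn
    simp only at h4 hn
    rw [h2.1, h3.1] at h4
    rw [h2.1] at hn
    have h5 : j.1.2 * x.2.2 = j.1.2 * y.2.2 := add_left_cancel h4
    have h6 : j.1.2 ≠ 0 := by
      intro h
      rw [h] at hn
      simp at hn
    exact mul_left_cancel₀ h6 h5

/-- level sets are small -/
lemma level_card (Z : Finset (ZMod p × ZMod p)) (hZ : ∀ z ∈ Z, z.1 ≠ z.2) (Y : ZMod p) (lam : ℝ) :
    ((univ.filter fun s : ZMod p => lam ≤ wt Z Y s).card : ℝ) * lam ≤ Z.card := by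
  classical
  rw [← wt_sum Z hZ Y, ← nsmul_eq_mul]
  refine (card_nsmul_le_sum _ (fun s => (wt Z Y s : ℝ)) _ fun s hs => (mem_filter.1 hs).2).trans ?_
  exact sum_le_sum_of_subset_of_nonneg (filter_subset _ _) fun _ _ _ => Nat.cast_nonneg _

end

/-- a scale without growth -/
lemma no_growth (n : ℕ → ℝ) (q P : ℝ) (M : ℕ) (hq : 0 < q) (h0 : 1 ≤ n 0) (hP : n M ≤ P)
    (hM : P < q ^ M) : ∃ i < M, n (i + 1) ≤ q * n i := by
  by_contra hcon
  have hcon : ∀ i < M, q * n i < n (i + 1) := by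
    intro i hi
    by_contra h
    exact hcon ⟨i, hi, not_lt.1 h⟩
  have : ∀ i ≤ M, q ^ i ≤ n i := by
    intro i
    induction i with
    | zero => intro _; simpa using h0
    | succ i ih =>
      intro hi
      have h1 := ih (by omega)
      have h2 := hcon i (by omega)
      calc q ^ (i + 1) = q * q ^ i := by ring
        _ ≤ q * n i := mul_le_mul_of_nonneg_left h1 hq.le
        _ ≤ _ := h2.le
  have := this M le_rfl
  linarith

end Pool.Agent.R111.PG
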