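import Pool.Agent.Y881.SP.CountGen

set_option autoImplicit false

/-! # No set is nearly invariant under many dilations about `0` and many dilations about `1` -/

open Finset

namespace Pool.Agent.R111.PG

open Pool.Agent.Y881.SP (fiber_cs prune_step no_inv_aff)

/-- popular elements -/
lemma popular {α : Type*} (S : Finset α) (M : α → ℝ) (m r : ℝ) (hr : 0 < r) (hm : 0 < m)
    (hM1 : ∀ s ∈ S, M s ≤ m) (h : (S.card : ℝ) * m ≤ r * ∑ s ∈ S, M s) :
    (S.card : ℝ) ≤ 2 * r * ((S.filter fun s => m ≤ 2 * r * M s).card : ℝ) := by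
  classical
  have h1 : ∑ s ∈ S, M s ≤ ((S.filter fun s => m ≤ 2 * r * M s).card : ℝ) * m +
      S.card * (m / (2 * r)) := by
    rw [← sum_filter_add_sum_filter_not S (fun s => m ≤ 2 * r * M s)]
    refine add_le_add ?_ ?_
    · rw [← nsmul_eq_mul]
      exact sum_le_card_nsmul _ _ _ fun s hs => hM1 s (mem_filter.1 hs).1
    · have h2 : ∑ s ∈ S.filter (fun s => ¬ m ≤ 2 * r * M s), M s ≤
          ((S.filter fun s => ¬ m ≤ 2 * r * M s).card : ℝ) * (m / (2 * r)) := by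
        rw [← nsmul_eq_mul]
        refine sum_le_card_nsmul _ _ _ fun s hs => ?_
        have h3 := not_le.1 (mem_filter.1 hs).2
        rw [le_div_iff₀ (by positivity)]
        linarith
      refine h2.trans (mul_le_mul_of_nonneg_right ?_ (by positivity))
      exact_mod_cast card_filter_le _ _
  have h4 : (S.card : ℝ) * m ≤
      r * (((S.filter fun s => m ≤ 2 * r * M s).card : ℝ) * m + S.card * (m / (2 * r))) :=
    h.trans (mul_le_mul_of_nonneg_left h1 hr.le)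
  have h5 : r * (((S.filter fun s => m ≤ 2 * r * M s).card : ℝ) * m + S.card * (m / (2 * r))) =
      (r * ((S.filter fun s => m ≤ 2 * r * M s).card : ℝ) + S.card / 2) * m := by
    field_simp
  rw [h5] at h4
  have h6 := le_of_mul_le_mul_right h4 hm
  linarith

section
variable {p : ℕ} [Fact p.Prime]

/-- the number of pairs with the same image -/
noncomputable def E (H S : Finset (ZMod p)) (u u' : ZMod p) : ℝ :=
  (((H ×ˢ (S ×ˢ S)).filter fun q => u * (1 - q.1 * q.2.1) = u' * (1 - q.1 * q.2.2)).card : ℝ)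

lemma collide (H U S Z : Finset (ZMod p)) :
    (∑ s ∈ S, (((H ×ˢ U).filter fun i => i.2 * (1 - i.1 * s) ∈ Z).card : ℝ)) ^ 2 ≤
      H.card * Z.card * ∑ u ∈ U, ∑ u' ∈ U, E H S u u' := by
  classical
  have e1 : ∑ s ∈ S, (((H ×ˢ U).filter fun i => i.2 * (1 - i.1 * s) ∈ Z).card : ℝ) =
      ∑ h ∈ H, (((S ×ˢ U).filter fun r => r.2 * (1 - h * r.1) ∈ Z).card : ℝ) := by
    simp only [card_filter, Nat.cast_sum, sum_product]
    rw [sum_comm]
  have e2 : ∑ u ∈ U, ∑ u' ∈ U, E H S u u' = ∑ h ∈ H, ((((S ×ˢ U) ×ˢ (S ×ˢ U)).filter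
      fun q => q.1.2 * (1 - h * q.1.1) = q.2.2 * (1 - h * q.2.1)).card : ℝ) := by
    unfold E
    simp only [card_filter, Nat.cast_sum, sum_product]
    -- both sides are sums over u, u', h, s, s'
    have r1 : ∀ u ∈ U, ∑ u' ∈ U, ∑ h ∈ H, ∑ s ∈ S, ∑ s' ∈ S,
        (((if u * (1 - h * s) = u' * (1 - h * s') then 1 else 0 : ℕ)) : ℝ) =
        ∑ h ∈ H, ∑ s ∈ S, ∑ s' ∈ S, ∑ u' ∈ U,
          (((if u * (1 - h * s) = u' * (1 - h * s') then 1 else 0 : ℕ)) : ℝ) := by
      intro u _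
      rw [sum_comm]
      refine sum_congr rfl fun h _ => ?_
      rw [sum_comm]
      refine sum_congr rfl fun s _ => ?_
      rw [sum_comm]
    rw [sum_congr rfl r1, sum_comm]
    refine sum_congr rfl fun h _ => ?_
    rw [sum_comm]
  rw [e1, e2]
  have h1 : ∀ h ∈ H, (((S ×ˢ U).filter fun r => r.2 * (1 - h * r.1) ∈ Z).card : ℝ) ^ 2 ≤
      Z.card * ((((S ×ˢ U) ×ˢ (S ×ˢ U)).filter
        fun q => q.1.2 * (1 - h * q.1.1) = q.2.2 * (1 - h * q.2.1)).card : ℝ) := by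
    intro h _
    have := fiber_cs (S ×ˢ U) Z (fun r : ZMod p × ZMod p => r.2 * (1 - h * r.1))
    exact_mod_cast this
  calc _ ≤ (H.card : ℝ) * ∑ h ∈ H,
        (((S ×ˢ U).filter fun r => r.2 * (1 - h * r.1) ∈ Z).card : ℝ) ^ 2 :=
        sq_sum_le_card_mul_sum_sq
    _ ≤ (H.card : ℝ) * ∑ h ∈ H, Z.card * ((((S ×ˢ U) ×ˢ (S ×ˢ U)).filter
        fun q => q.1.2 * (1 - h * q.1.1) = q.2.2 * (1 - h * q.2.1)).card : ℝ) :=
        mul_le_mul_of_nonneg_left (sum_le_sum h1) (Nat.cast_nonneg _)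
    _ = _ := by rw [← mul_sum]; ring

lemma E_diag (H S : Finset (ZMod p)) (u : ZMod p) (hu : u ≠ 0) (hH : (0 : ZMod p) ∉ H) :
    E H S u u ≤ H.card * S.card := by
  unfold E
  have h1 : ((H ×ˢ (S ×ˢ S)).filter
      fun q => u * (1 - q.1 * q.2.1) = u * (1 - q.1 * q.2.2)).card ≤ (H ×ˢ S).card := by
    refine card_le_card_of_injOn (fun q => (q.1, q.2.1)) ?_ ?_
    · intro q hq
      have h2 := mem_product.1 (mem_filter.1 hq).1
      exact mem_product.2 ⟨h2.1, (mem_product.1 h2.2).1⟩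
    · intro q hq q' hq' hqq
      have h2 := mem_filter.1 hq
      have h2' := mem_filter.1 hq'
      simp only [Prod.mk.injEq] at hqq
      obtain ⟨e1, e2⟩ := hqq
      have hz : q.1 ≠ 0 := fun h => hH (h ▸ (mem_product.1 h2.1).1)
      have hz' : q'.1 ≠ 0 := fun h => hH (h ▸ (mem_product.1 h2'.1).1)
      have e3 := mul_left_cancel₀ hu h2.2
      have e3' := mul_left_cancel₀ hu h2'.2
      have e4 : q.2.1 = q.2.2 := mul_left_cancel₀ hz (by linear_combination -e3)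
      have e4' : q'.2.1 = q'.2.2 := mul_left_cancel₀ hz' (by linear_combination -e3')
      refine Prod.ext e1 (Prod.ext e2 ?_)
      rw [← e4, ← e4', e2]
  rw [card_product] at h1
  exact_mod_cast h1

lemma E_le (H S : Finset (ZMod p)) (hH : (0 : ZMod p) ∉ H) (u u' : ZMod p) (hu : u ≠ 0)
    (hu' : u' ≠ 0) :
    E H S u u' ≤ ∑ s ∈ S, ((H.filter fun h => u / u' * (s + (u' / u - 1) * h⁻¹) ∈ S).card : ℝ) := by
  classical
  unfold E
  have h1 : ((H ×ˢ (S ×ˢ S)).filter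
      fun q => u * (1 - q.1 * q.2.1) = u' * (1 - q.1 * q.2.2)).card ≤
      ((S ×ˢ H).filter fun r => u / u' * (r.1 + (u' / u - 1) * r.2⁻¹) ∈ S).card := by
    have key : ∀ q ∈ ((H ×ˢ (S ×ˢ S)).filter
        fun q => u * (1 - q.1 * q.2.1) = u' * (1 - q.1 * q.2.2)),
        u / u' * (q.2.1 + (u' / u - 1) * q.1⁻¹) = q.2.2 := by
      intro q hq
      have h2 := mem_filter.1 hq
      have hz : q.1 ≠ 0 := fun h => hH (h ▸ (mem_product.1 h2.1).1)
      field_simp
      linear_combination -h2.2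
    refine card_le_card_of_injOn (fun q => (q.2.1, q.1)) ?_ ?_
    · intro q hq
      have h2 := mem_filter.1 hq
      have h3 := mem_product.1 h2.1
      have h4 := mem_product.1 h3.2
      refine mem_coe.2 (mem_filter.2 ⟨mem_product.2 ⟨h4.1, h3.1⟩, ?_⟩)
      show u / u' * (q.2.1 + (u' / u - 1) * q.1⁻¹) ∈ S
      rw [key q hq]
      exact h4.2
    · intro q hq q' hq' hqq
      simp only [Prod.mk.injEq] at hqq
      obtain ⟨e1, e2⟩ := hqq
      refine Prod.ext e2 (Prod.ext e1 ?_)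
      rw [← key q hq, ← key q' hq', e1, e2]
  calc (((H ×ˢ (S ×ˢ S)).filter
      fun q => u * (1 - q.1 * q.2.1) = u' * (1 - q.1 * q.2.2)).card : ℝ) ≤
      (((S ×ˢ H).filter fun r => u / u' * (r.1 + (u' / u - 1) * r.2⁻¹) ∈ S).card : ℝ) := by
        exact_mod_cast h1
    _ = _ := by
        simp only [card_filter, Nat.cast_sum, sum_product]

omit [Fact p.Prime] in
/-- choice of two different numbers -/
lemma pick (U : Finset (ZMod p)) (F : ZMod p → ZMod p → ℝ) (D X : ℝ)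
    (hD : ∀ u ∈ U, F u u ≤ D) (hU : U.Nonempty) (hX : 0 < X)
    (h : (U.card : ℝ) ^ 2 * X + U.card * D ≤ ∑ u ∈ U, ∑ u' ∈ U, F u u') :
    ∃ u ∈ U, ∃ u' ∈ U, u ≠ u' ∧ X ≤ F u u' := by
  classical
  by_contra hcon
  push Not at hcon
  have hUc : (0 : ℝ) < U.card := by exact_mod_cast hU.card_pos
  have h1 : ∀ u ∈ U, ∑ u' ∈ U, F u u' < U.card * X + D := by
    intro u hu
    rw [← add_sum_erase U _ hu]
    have h2 : ∑ u' ∈ U.erase u, F u u' ≤ ∑ u' ∈ U.erase u, X :=
      sum_le_sum fun u' hu' => (hcon u hu u' (mem_of_mem_erase hu')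
        (ne_of_mem_erase hu').symm).le
    rw [sum_const, nsmul_eq_mul] at h2
    have h3 : ((U.erase u).card : ℝ) = U.card - 1 := by
      rw [card_erase_of_mem hu, Nat.cast_sub hU.card_pos]
      simp
    rw [h3] at h2
    have h4 := hD u hu
    nlinarith
  have h5 := sum_lt_sum_of_nonempty hU h1
  rw [sum_const, nsmul_eq_mul] at h5
  nlinarith

end

/-- the numerical part of the choice of the two dilations -/
lemma num_pick (s h u z r W T : ℝ) (hs : 0 < s) (hh : 0 < h) (hu : 0 < u) (hr : 16 ≤ r)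
    (hru : r ^ 5 ≤ u) (hT : s * (h * u) ≤ 2 * r * T) (hW0 : 0 ≤ W)
    (hz : z ≤ 2 * r ^ 2 * s) (hc : T ^ 2 ≤ h * z * W) :
    u ^ 2 * (s * h / (16 * r ^ 4)) + u * (h * s) ≤ W := by
  have hr0 : 0 < r := by linarith
  have hT0 : 0 ≤ T := by
    by_contra hneg
    push Not at hneg
    have : 0 < s * (h * u) := by positivity
    nlinarith
  have h1 : (s * (h * u)) ^ 2 ≤ (2 * r) ^ 2 * T ^ 2 := by
    rw [← mul_pow]
    exact pow_le_pow_left₀ (by positivity) hT 2
  have h2 : (s * (h * u)) ^ 2 ≤ (2 * r) ^ 2 * (h * (2 * r ^ 2 * s) * W) := by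
    refine h1.trans (mul_le_mul_of_nonneg_left (hc.trans ?_) (by positivity))
    gcongr
  have h3 : s * h * u ^ 2 ≤ 8 * r ^ 4 * W := by
    have h4 : (s * h) * (s * h * u ^ 2) ≤ (s * h) * (8 * r ^ 4 * W) := by
      calc (s * h) * (s * h * u ^ 2) = (s * (h * u)) ^ 2 := by ring
        _ ≤ _ := h2
        _ = _ := by ring
    exact le_of_mul_le_mul_left h4 (by positivity)
  have h5 : u * (h * s) * (16 * r ^ 4) ≤ s * h * u ^ 2 := by
    have h6 : 16 * r ^ 4 ≤ u := by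
      calc 16 * r ^ 4 ≤ r * r ^ 4 := mul_le_mul_of_nonneg_right hr (by positivity)
        _ = r ^ 5 := by ring
        _ ≤ u := hru
    calc u * (h * s) * (16 * r ^ 4) ≤ u * (h * s) * u :=
          mul_le_mul_of_nonneg_left h6 (by positivity)
      _ = _ := by ring
  have h7 : (u ^ 2 * (s * h / (16 * r ^ 4)) + u * (h * s)) * (16 * r ^ 4) ≤ W * (16 * r ^ 4) := by
    have e : (u ^ 2 * (s * h / (16 * r ^ 4)) + u * (h * s)) * (16 * r ^ 4) =
        s * h * u ^ 2 + u * (h * s) * (16 * r ^ 4) := by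
      field_simp
    rw [e]
    linarith
  exact le_of_mul_le_mul_right h7 (by positivity)

open Classical in
/-- **few solutions of `u (1 - h s) ∈ Z`** -/
theorem no_fix (ε : ℝ) (hε : 0 < ε) : ∃ c : ℝ, 0 < c ∧ ∃ p₀ : ℕ, ∀ (p : ℕ) [Fact p.Prime],
    p₀ ≤ p → ∀ H U S Z : Finset (ZMod p), (0 : ZMod p) ∉ H → (0 : ZMod p) ∉ U →
      (p : ℝ) ^ ε ≤ H.card → (p : ℝ) ^ ε ≤ U.card → (S.card : ℝ) ≤ (p : ℝ) ^ (1 - ε) →
      (Z.card : ℝ) ≤ (p : ℝ) ^ c * S.card →
      ∑ s ∈ S, (((H ×ˢ U).filter fun i => i.2 * (1 - i.1 * s) ∈ Z).card : ℝ) ≤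
        (p : ℝ) ^ (-c) * (S.card * (H.card * U.card)) := by
  obtain ⟨k, hk, p₁, hno⟩ := no_inv_aff ε hε
  obtain ⟨c, hc⟩ : ∃ c : ℝ, c = min (k / 24) (ε / 8) := ⟨_, rfl⟩
  have hc0 : 0 < c := by rw [hc]; positivity
  have hck : c * 21 ≤ k := by
    have := min_le_left (k / 24) (ε / 8)
    rw [← hc] at this
    linarith
  have hcε : c * 5 ≤ ε := by
    have := min_le_right (k / 24) (ε / 8)
    rw [← hc] at this
    linarith
  obtain ⟨p₂, hp₂2, hp₂⟩ := Pool.Agent.H435R3.Paley.exists_large 16 c hc0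
  refine ⟨c, hc0, p₁ + p₂, fun p _ hp H U S Z hH0 hU0 hH hU hS hZ => ?_⟩
  by_contra hcon
  have hcon := not_le.1 hcon
  have hp2 : (2 : ℝ) ≤ p := by exact_mod_cast (Fact.out : p.Prime).two_le
  have hp0 : (0 : ℝ) < p := by linarith
  have hp1 : (1 : ℝ) ≤ p := by linarith
  have hr16 : 16 ≤ (p : ℝ) ^ c := hp₂ p (by omega)
  have hrk : ((p : ℝ) ^ c) ^ 21 ≤ (p : ℝ) ^ k := by
    rw [← Real.rpow_natCast, ← Real.rpow_mul hp0.le]
    exact Real.rpow_le_rpow_of_exponent_le hp1 (by push_cast; exact hck)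
  have hrU : ((p : ℝ) ^ c) ^ 5 ≤ U.card := by
    refine le_trans ?_ hU
    rw [← Real.rpow_natCast, ← Real.rpow_mul hp0.le]
    exact Real.rpow_le_rpow_of_exponent_le hp1 (by push_cast; exact hcε)
  have hqi : (p : ℝ) ^ (-c) = ((p : ℝ) ^ c)⁻¹ := Real.rpow_neg hp0.le c
  rw [hqi] at hcon
  generalize (p : ℝ) ^ c = r at hr16 hrk hrU hcon hZ
  have hr0 : 0 < r := by linarith
  have hr1 : 1 ≤ r := by linarith
  have hHc : (0 : ℝ) < H.card := lt_of_lt_of_le (by positivity) hH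
  have hUc : (0 : ℝ) < U.card := lt_of_lt_of_le (by positivity) hU
  have hHne : H.Nonempty := by rw [← card_pos]; exact_mod_cast hHc
  have hUne : U.Nonempty := by rw [← card_pos]; exact_mod_cast hUc
  have hSne : S.Nonempty := by
    by_contra h
    rw [not_nonempty_iff_eq_empty] at h
    rw [h] at hcon
    simp at hcon
  have hSc : (0 : ℝ) < S.card := by exact_mod_cast hSne.card_pos
  obtain ⟨I, hI⟩ : ∃ I, I = H ×ˢ U := ⟨_, rfl⟩
  have hIc : (I.card : ℝ) = H.card * U.card := by rw [hI, card_product]; push_cast; rfl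
  have hIne : I.Nonempty := by rw [hI]; exact hHne.product hUne
  obtain ⟨M, hM⟩ : ∃ M : ZMod p → ℝ, M = fun s =>
    ((I.filter fun i => i.2 * (1 - i.1 * s) ∈ Z).card : ℝ) := ⟨_, rfl⟩
  have hMs : ∀ s, M s = ((I.filter fun i => i.2 * (1 - i.1 * s) ∈ Z).card : ℝ) := fun s => by
    rw [hM]
  have hMle : ∀ s, M s ≤ I.card := fun s => by
    rw [hMs]
    exact_mod_cast card_filter_le _ _
  have hM0 : ∀ s, 0 ≤ M s := fun s => by rw [hMs]; positivity
  have hcon2 : (S.card : ℝ) * I.card ≤ r * ∑ s ∈ S, M s := by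
    have h1 : r⁻¹ * (S.card * (H.card * U.card)) < ∑ s ∈ S, M s := by
      rw [hM, hI]
      exact hcon
    rw [hIc]
    rw [inv_mul_lt_iff₀ hr0] at h1
    exact h1.le
  have hIc0 : (0 : ℝ) < I.card := by rw [hIc]; positivity
  obtain ⟨S', hS'⟩ : ∃ S', S' = S.filter fun s => (I.card : ℝ) ≤ 2 * r * M s := ⟨_, rfl⟩
  have hSS' : (S.card : ℝ) ≤ 2 * r * S'.card := by
    rw [hS']
    exact popular S M I.card r hr0 hIc0 (fun s _ => hMle s) hcon2
  have hS'c : (0 : ℝ) < S'.card := by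
    by_contra h
    have h2 : (S'.card : ℝ) = 0 := le_antisymm (not_lt.1 h) (Nat.cast_nonneg _)
    rw [h2, mul_zero] at hSS'
    linarith
  have hS'ne : S'.Nonempty := by rw [← card_pos]; exact_mod_cast hS'c
  have hS'S : (S'.card : ℝ) ≤ S.card := by
    rw [hS']
    exact_mod_cast card_filter_le _ _
  have hMS' : ∀ s ∈ S', (I.card : ℝ) ≤ 2 * r * M s := fun s hs => by
    rw [hS'] at hs
    exact (mem_filter.1 hs).2
  have hZ' : (Z.card : ℝ) ≤ 2 * r ^ 2 * S'.card := by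
    calc (Z.card : ℝ) ≤ r * S.card := hZ
      _ ≤ r * (2 * r * S'.card) := mul_le_mul_of_nonneg_left hSS' hr0.le
      _ = _ := by ring
  -- the two dilations
  have hT : (S'.card : ℝ) * (H.card * U.card) ≤ 2 * r * ∑ s ∈ S', M s := by
    rw [← hIc, mul_sum, ← nsmul_eq_mul]
    exact card_nsmul_le_sum _ _ _ hMS'
  have hcol := collide H U S' Z
  rw [← hI] at hcol
  have hcol2 : (∑ s ∈ S', M s) ^ 2 ≤ H.card * Z.card * ∑ u ∈ U, ∑ u' ∈ U, E H S' u u' := by
    rw [hM]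
    exact hcol
  have hE0 : ∀ u u' : ZMod p, 0 ≤ E H S' u u' := fun u u' => by unfold E; positivity
  have hW0 : 0 ≤ ∑ u ∈ U, ∑ u' ∈ U, E H S' u u' :=
    sum_nonneg fun u _ => sum_nonneg fun u' _ => hE0 u u'
  have hnum := num_pick S'.card H.card U.card Z.card r _ _ hS'c hHc hUc hr16 hrU hT hW0
    hZ' hcol2
  obtain ⟨u, hu, u', hu', huu, hX⟩ := pick U (E H S') (H.card * S'.card)
    (S'.card * H.card / (16 * r ^ 4))
    (fun u hu => E_diag H S' u (fun h => hU0 (h ▸ hu)) hH0) hUne (by positivity) hnum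
  have hu0 : u ≠ 0 := fun h => hU0 (h ▸ hu)
  have hu'0 : u' ≠ 0 := fun h => hU0 (h ▸ hu')
  have hX2 := hX.trans (E_le H S' hH0 u u' hu0 hu'0)
  obtain ⟨N, hN⟩ : ∃ N : ZMod p → ℝ, N = fun s =>
    ((H.filter fun h => u / u' * (s + (u' / u - 1) * h⁻¹) ∈ S').card : ℝ) / H.card := ⟨_, rfl⟩
  have hNs : ∀ s, N s = ((H.filter fun h => u / u' * (s + (u' / u - 1) * h⁻¹) ∈ S').card : ℝ) /
    H.card := fun s => by rw [hN]
  have hN0 : ∀ s, 0 ≤ N s := fun s => by rw [hNs]; positivity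
  have hN1 : ∀ s, N s ≤ 1 := fun s => by
    rw [hNs]
    refine div_le_one_of_le₀ ?_ hHc.le
    exact_mod_cast card_filter_le _ _
  have hNsum : (S'.card : ℝ) ≤ 16 * r ^ 4 * ∑ s ∈ S', N s := by
    have h1 : ∑ s ∈ S', N s = (∑ s ∈ S',
        ((H.filter fun h => u / u' * (s + (u' / u - 1) * h⁻¹) ∈ S').card : ℝ)) / H.card := by
      rw [sum_div]
      exact sum_congr rfl fun s _ => hNs s
    rw [h1]
    have h2 : (S'.card : ℝ) = 16 * r ^ 4 * ((S'.card * H.card / (16 * r ^ 4)) / H.card) := by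
      field_simp
    rw [h2]
    refine mul_le_mul_of_nonneg_left ?_ (by positivity)
    exact div_le_div_of_nonneg_right hX2 hHc.le
  obtain ⟨d, hd⟩ : ∃ d : ZMod p × ZMod p → ZMod p, d = fun i => -(i.1 * i.2)⁻¹ := ⟨_, rfl⟩
  obtain ⟨g, hg⟩ : ∃ g : ZMod p × ZMod p → ZMod p, g = fun i => -i.1⁻¹ := ⟨_, rfl⟩
  have hI0 : ∀ i ∈ I, i.1 ≠ 0 ∧ i.2 ≠ 0 := by
    intro i hi
    rw [hI, mem_product] at hi
    exact ⟨fun h => hH0 (h ▸ hi.1), fun h => hU0 (h ▸ hi.2)⟩
  have hd0 : ∀ i ∈ I, d i ≠ 0 := by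
    intro i hi
    rw [hd]
    exact neg_ne_zero.2 (inv_ne_zero (mul_ne_zero (hI0 i hi).1 (hI0 i hi).2))
  have hgd : ∀ s, ∀ i ∈ I, (g i + s) / d i = i.2 * (1 - i.1 * s) := by
    intro s i hi
    obtain ⟨h1, h2⟩ := hI0 i hi
    rw [hd, hg]
    field_simp
    ring
  have hMgd : ∀ s, M s = ((I.filter fun i => (g i + s) / d i ∈ Z).card : ℝ) := by
    intro s
    rw [hMs]
    congr 2
    refine filter_congr fun i hi => ?_
    rw [hgd s i hi]
  have hstep : (S'.card : ℝ) * I.card ≤ (r ^ 4) ^ 2 * ∑ s ∈ S', N s *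
      ((I.filter fun i => (g i + s) / d i ∈ Z).card : ℝ) := by
    have h1 : (I.card : ℝ) * ∑ s ∈ S', N s ≤ 2 * r * ∑ s ∈ S', N s * M s := by
      rw [mul_sum, mul_sum]
      refine sum_le_sum fun s hs => ?_
      have h2 := mul_le_mul_of_nonneg_left (hMS' s hs) (hN0 s)
      linarith
    have h3 : (S'.card : ℝ) * I.card ≤ (32 * r ^ 5) * ∑ s ∈ S', N s * M s := by
      calc (S'.card : ℝ) * I.card ≤ (16 * r ^ 4 * ∑ s ∈ S', N s) * I.card :=
            mul_le_mul_of_nonneg_right hNsum hIc0.le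
        _ = 16 * r ^ 4 * (I.card * ∑ s ∈ S', N s) := by ring
        _ ≤ 16 * r ^ 4 * (2 * r * ∑ s ∈ S', N s * M s) :=
            mul_le_mul_of_nonneg_left h1 (by positivity)
        _ = _ := by ring
    have h4 : 32 * r ^ 5 ≤ (r ^ 4) ^ 2 := by
      have h5 : (32 : ℝ) ≤ r ^ 3 := by
        calc (32 : ℝ) ≤ 16 ^ 3 := by norm_num
          _ ≤ r ^ 3 := pow_le_pow_left₀ (by norm_num) hr16 3
      calc 32 * r ^ 5 ≤ r ^ 3 * r ^ 5 := mul_le_mul_of_nonneg_right h5 (by positivity)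
        _ = _ := by ring
    have h6 : 0 ≤ ∑ s ∈ S', N s * M s := sum_nonneg fun s _ => mul_nonneg (hN0 s) (hM0 s)
    have h7 : ∑ s ∈ S', N s * ((I.filter fun i => (g i + s) / d i ∈ Z).card : ℝ) =
        ∑ s ∈ S', N s * M s := sum_congr rfl fun s _ => by rw [hMgd s]
    rw [h7]
    exact h3.trans (mul_le_mul_of_nonneg_right h4 h6)
  have hZq : (Z.card : ℝ) ≤ r ^ 4 * S'.card := by
    refine hZ'.trans (mul_le_mul_of_nonneg_right ?_ hS'c.le)
    have h5 : (2 : ℝ) ≤ r ^ 2 := by nlinarith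
    calc 2 * r ^ 2 ≤ r ^ 2 * r ^ 2 := mul_le_mul_of_nonneg_right h5 (by positivity)
      _ = _ := by ring
  obtain ⟨Y, hYS, hYbig, hY2⟩ := prune_step I hIne d g hd0 S' Z hS'ne N hN0 hN1 (r ^ 4)
    (by positivity) hZq hstep
  have hYc0 : (0 : ℝ) < Y.card := by
    by_contra h
    have h2 : (Y.card : ℝ) = 0 := le_antisymm (not_lt.1 h) (Nat.cast_nonneg _)
    rw [h2, mul_zero] at hYbig
    linarith
  have hYne : Y.Nonempty := by rw [← card_pos]; exact_mod_cast hYc0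
  have h4k : 4 * (r ^ 4) ^ 5 ≤ (p : ℝ) ^ k := by
    refine le_trans ?_ hrk
    calc 4 * (r ^ 4) ^ 5 ≤ r * (r ^ 4) ^ 5 :=
          mul_le_mul_of_nonneg_right (by linarith) (by positivity)
      _ = _ := by ring
  have h2k : 2 * (r ^ 4) ^ 5 ≤ (p : ℝ) ^ k := by
    refine le_trans ?_ h4k
    have : 0 < (r ^ 4) ^ 5 := by positivity
    linarith
  have hκ : u' / u - 1 ≠ 0 := by
    intro h
    have h1 : u' / u = 1 := by linear_combination h
    rw [div_eq_one_iff_eq hu0] at h1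
    exact huu h1.symm
  have hinj : Set.InjOn (fun h : ZMod p => (u' / u - 1) * h⁻¹) H := by
    intro a _ b _ hab
    exact inv_injective (mul_left_cancel₀ hκ hab)
  have hAcard : (H.image fun h => (u' / u - 1) * h⁻¹).card = H.card := card_image_of_injOn hinj
  refine hno p (by omega) I d g (H.image fun h => (u' / u - 1) * h⁻¹) Y
    (S'.image fun s => u' / u * s) hIne hd0 ?_ ?_ hYne ?_ ?_ ?_ ?_
  · -- multiplicities
    intro x
    have h1 : (I.filter fun i => d i = x).card ≤ H.card := by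
      refine card_le_card_of_injOn (fun i => i.1) ?_ ?_
      · intro i hi
        have h2 := (mem_filter.1 hi).1
        rw [hI, mem_product] at h2
        exact h2.1
      · intro i hi j hj hij
        have h2 := mem_filter.1 hi
        have h3 := mem_filter.1 hj
        obtain ⟨n1, n2⟩ := hI0 i h2.1
        obtain ⟨m1, m2⟩ := hI0 j h3.1
        have e : d i = d j := h2.2.trans h3.2.symm
        rw [hd] at e
        have e2 := inv_injective (neg_injective e)
        have hij' : i.1 = j.1 := hij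
        rw [hij'] at e2
        exact Prod.ext hij' (mul_left_cancel₀ m1 e2)
    have h2 : ((I.filter fun i => d i = x).card : ℝ) ≤ H.card := by exact_mod_cast h1
    refine h2.trans ?_
    rw [hIc, Real.rpow_neg hp0.le]
    have h3 : (0 : ℝ) < (p : ℝ) ^ ε := by positivity
    rw [inv_mul_eq_div, le_div_iff₀ h3]
    exact mul_le_mul_of_nonneg_left hU hHc.le
  · rw [hAcard]
    exact hH
  · have h2 : (Y.card : ℝ) ≤ S'.card := by exact_mod_cast card_le_card hYS
    exact h2.trans (hS'S.trans hS)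
  · have h2 : ((S'.image fun s => u' / u * s).card : ℝ) ≤ S'.card := by
      exact_mod_cast card_image_le
    calc ((S'.image fun s => u' / u * s).card : ℝ) ≤ 2 * (r ^ 4) ^ 5 * Y.card := h2.trans hYbig
      _ ≤ _ := mul_le_mul_of_nonneg_right h2k hYc0.le
  · intro y hy
    have h4 := (hY2 y hy).1
    rw [hAcard]
    have h5 : ((H.filter fun h => u / u' * (y + (u' / u - 1) * h⁻¹) ∈ S').card : ℝ) ≤
        (((H.image fun h => (u' / u - 1) * h⁻¹).filter
          fun a => y + a ∈ S'.image fun s => u' / u * s).card : ℝ) := by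
      have h6 : (H.filter fun h => u / u' * (y + (u' / u - 1) * h⁻¹) ∈ S').card ≤
          ((H.image fun h => (u' / u - 1) * h⁻¹).filter
            fun a => y + a ∈ S'.image fun s => u' / u * s).card := by
        refine card_le_card_of_injOn (fun h => (u' / u - 1) * h⁻¹) ?_ ?_
        · intro h hh
          have h7 := mem_filter.1 hh
          refine mem_coe.2 (mem_filter.2 ⟨mem_image.2 ⟨h, h7.1, rfl⟩, ?_⟩)
          refine mem_image.2 ⟨_, h7.2, ?_⟩
          field_simp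
        · intro a ha b hb hab
          exact hinj (mem_filter.1 ha).1 (mem_filter.1 hb).1 hab
      exact_mod_cast h6
    rw [hNs] at h4
    have hn0 : (0 : ℝ) ≤ ((H.filter fun h => u / u' * (y + (u' / u - 1) * h⁻¹) ∈ S').card : ℝ) :=
      Nat.cast_nonneg _
    generalize ((H.filter fun h => u / u' * (y + (u' / u - 1) * h⁻¹) ∈ S').card : ℝ) = n
      at h4 h5 hn0
    have h8 : (H.card : ℝ) ≤ 4 * (r ^ 4) ^ 5 * n := by
      have h9 := mul_le_mul_of_nonneg_right h4 hHc.le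
      rw [one_mul] at h9
      refine h9.trans (le_of_eq ?_)
      field_simp
    calc (H.card : ℝ) ≤ 4 * (r ^ 4) ^ 5 * n := h8
      _ ≤ (p : ℝ) ^ k * n := mul_le_mul_of_nonneg_right h4k hn0
      _ ≤ _ := mul_le_mul_of_nonneg_left h5 (by positivity)
  · intro y hy
    exact (hY2 y hy).2.trans (mul_le_mul_of_nonneg_right h4k (Nat.cast_nonneg _))

end Pool.Agent.R111.PG
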