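import Pool.Agent.R111.PG.Maps
import Pool.Agent.Y881.PG.Main

set_option autoImplicit false

/-! # Almost all affine maps: uniform bounds for bilinear forms with kernel `χ (a + g b)` -/

open Finset

namespace Pool.Agent.R111.PG

open Pool.Agent.H435R3.Paley (norm_unit exists_large)
open Pool.Agent.Y881.PG (CC CC_nonneg m2)

section
variable {p : ℕ} [Fact p.Prime]

/-- the correlation of two shifts -/
noncomputable def kk (χ : DirichletCharacter ℂ p) (A : Finset (ZMod p)) (z : ZMod p × ZMod p) : ℂ :=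
  ∑ a ∈ A, χ (z.1 + a) * (starRingEnd ℂ) (χ (z.2 + a))

lemma kk_le (χ : DirichletCharacter ℂ p) (A : Finset (ZMod p)) (z : ZMod p × ZMod p) :
    ‖kk χ A z‖ ≤ A.card := by
  unfold kk
  refine (norm_sum_le _ _).trans ?_
  rw [← nsmul_one]
  refine sum_le_card_nsmul _ _ _ fun a _ => ?_
  rw [norm_mul, RCLike.norm_conj]
  exact mul_le_one₀ (DirichletCharacter.norm_le_one χ _) (norm_nonneg _)
    (DirichletCharacter.norm_le_one χ _)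

/-- the large correlations -/
noncomputable def ZZ (χ : DirichletCharacter ℂ p) (A : Finset (ZMod p)) (θ : ℝ) :
    Finset (ZMod p × ZMod p) := by
  classical
  exact univ.filter fun z => z.1 ≠ z.2 ∧ θ * A.card < ‖kk χ A z‖

lemma mem_ZZ (χ : DirichletCharacter ℂ p) (A : Finset (ZMod p)) (θ : ℝ) (z : ZMod p × ZMod p) :
    z ∈ ZZ χ A θ ↔ z.1 ≠ z.2 ∧ θ * A.card < ‖kk χ A z‖ := by
  classical
  unfold ZZ
  rw [mem_filter]
  exact ⟨fun h => h.2, fun h => ⟨mem_univ _, h⟩⟩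

lemma card_ZZ (χ : DirichletCharacter ℂ p) (hχ : χ ≠ 1) (r : ℕ) (hr : 1 ≤ r)
    (A : Finset (ZMod p)) (hA : (p : ℝ) ≤ (A.card : ℝ) ^ r) (hA0 : 0 < (A.card : ℝ)) (θ : ℝ)
    (hθ : 0 < θ) : ((ZZ χ A θ).card : ℝ) * θ ^ (2 * r) ≤ CC r * p := by
  classical
  have h := m2 χ hχ r hr A hA
  have h1 : ((ZZ χ A θ).card : ℝ) * (θ * A.card) ^ (2 * r) ≤
      ∑ z : ZMod p × ZMod p, ‖kk χ A z‖ ^ (2 * r) := by
    rw [← nsmul_eq_mul]
    refine (card_nsmul_le_sum _ (fun z => ‖kk χ A z‖ ^ (2 * r)) _ fun z hz => ?_).trans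
      (sum_le_sum_of_subset_of_nonneg (subset_univ _) fun _ _ _ => by positivity)
    rw [mem_ZZ] at hz
    exact pow_le_pow_left₀ (by positivity) hz.2.le _
  have h2 : ∑ z : ZMod p × ZMod p, ‖kk χ A z‖ ^ (2 * r) =
      ∑ x : ZMod p, ∑ y : ZMod p,
        ‖∑ b ∈ A, χ (x + b) * (starRingEnd ℂ) (χ (y + b))‖ ^ (2 * r) := by
    rw [Fintype.sum_prod_type]
    rfl
  rw [h2] at h1
  have h3 := h1.trans h
  rw [mul_pow] at h3
  have h4 : (((ZZ χ A θ).card : ℝ) * θ ^ (2 * r)) * (A.card : ℝ) ^ (2 * r) ≤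
      (CC r * p) * (A.card : ℝ) ^ (2 * r) := by
    calc _ = ((ZZ χ A θ).card : ℝ) * (θ ^ (2 * r) * (A.card : ℝ) ^ (2 * r)) := by ring
      _ ≤ _ := h3
      _ = _ := by ring
  exact le_of_mul_le_mul_right h4 (by positivity)

/-- the form is bounded by the correlations -/
lemma form_maps (χ : DirichletCharacter ℂ p) (A B : Finset (ZMod p)) (s t : ZMod p) (ht : t ≠ 0)
    (α β : ZMod p → ℂ) :
    ‖∑ a ∈ A, ∑ b ∈ B, α a * β b * χ (a + (s + t * b))‖ ^ 4 ≤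
      (∑ a ∈ A, ‖α a‖ ^ 2) ^ 2 * (∑ b ∈ B, ‖β b‖ ^ 2) ^ 2 *
        ∑ q ∈ B ×ˢ B, ‖kk χ A (s + t * q.1, s + t * q.2)‖ ^ 2 := by
  classical
  obtain ⟨f, hf⟩ : ∃ f : ZMod p → ZMod p, f = fun b => s + t * b := ⟨_, rfl⟩
  have hinj : Function.Injective f := by
    intro x y h
    rw [hf] at h
    exact mul_left_cancel₀ ht (add_left_cancel h)
  obtain ⟨β', hβ'⟩ : ∃ β' : ZMod p → ℂ, β' = fun y => β ((y - s) * t⁻¹) := ⟨_, rfl⟩
  have hββ : ∀ b, β' (f b) = β b := by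
    intro b
    rw [hβ', hf]
    simp only
    congr 1
    field_simp
    ring
  have h := form_le χ (B.image f) A β' α
  have e1 : ∑ a ∈ B.image f, ∑ b ∈ A, β' a * α b * χ (a + b) =
      ∑ a ∈ A, ∑ b ∈ B, α a * β b * χ (a + (s + t * b)) := by
    rw [sum_image (fun x _ y _ h => hinj h), sum_comm]
    refine sum_congr rfl fun a _ => sum_congr rfl fun b _ => ?_
    rw [hββ, hf]
    simp only
    rw [add_comm (s + t * b) a, mul_comm (β b)]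
  have e2 : ∑ a ∈ B.image f, ‖β' a‖ ^ 2 = ∑ b ∈ B, ‖β b‖ ^ 2 := by
    rw [sum_image (fun x _ y _ h => hinj h)]
    exact sum_congr rfl fun b _ => by rw [hββ]
  have e3 : cyc χ (B.image f) A = ∑ q ∈ B ×ˢ B, ‖kk χ A (s + t * q.1, s + t * q.2)‖ ^ 2 := by
    unfold cyc kk
    rw [sum_image (fun x _ y _ h => hinj h), sum_product]
    refine sum_congr rfl fun b _ => ?_
    rw [sum_image (fun x _ y _ h => hinj h), hf]
  rw [e1, e2, e3] at h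
  calc _ ≤ _ := h
    _ = _ := by ring

/-- an exceptional map sends many pairs into the set of large correlations -/
lemma many_pairs (χ : DirichletCharacter ℂ p) (A B : Finset (ZMod p)) (s t : ZMod p) (ht : t ≠ 0)
    (θ : ℝ) (hθ : 0 < θ) (hA0 : 0 < (A.card : ℝ)) (α β : ZMod p → ℂ) (η : ℝ) (hη : 0 < η)
    (h : η * (Real.sqrt (A.card * B.card) * (Real.sqrt (∑ a ∈ A, ‖α a‖ ^ 2) *
        Real.sqrt (∑ b ∈ B, ‖β b‖ ^ 2))) <
        ‖∑ a ∈ A, ∑ b ∈ B, α a * β b * χ (a + (s + t * b))‖) :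
    η ^ 4 * (B.card : ℝ) ^ 2 ≤ (B.card : ℝ) + (((B ×ˢ B).filter fun q =>
      (s + t * q.1, s + t * q.2) ∈ ZZ χ A θ).card : ℝ) + θ ^ 2 * (B.card : ℝ) ^ 2 := by
  classical
  obtain ⟨X, hX⟩ : ∃ X : ℝ, X = ∑ a ∈ A, ‖α a‖ ^ 2 := ⟨_, rfl⟩
  obtain ⟨V, hV⟩ : ∃ V : ℝ, V = ∑ b ∈ B, ‖β b‖ ^ 2 := ⟨_, rfl⟩
  have hX0 : 0 ≤ X := by rw [hX]; positivity
  have hV0 : 0 ≤ V := by rw [hV]; positivity
  obtain ⟨C, hC⟩ : ∃ C : ℝ, C = ∑ q ∈ B ×ˢ B, ‖kk χ A (s + t * q.1, s + t * q.2)‖ ^ 2 := ⟨_, rfl⟩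
  have h1 := form_maps χ A B s t ht α β
  rw [← hX, ← hV, ← hC] at h1
  rw [← hX, ← hV] at h
  have h2 : η ^ 4 * (((A.card : ℝ) * B.card) ^ 2 * (X ^ 2 * V ^ 2)) < X ^ 2 * V ^ 2 * C := by
    have h3 : (η * (Real.sqrt (A.card * B.card) * (Real.sqrt X * Real.sqrt V))) ^ 4 <
        ‖∑ a ∈ A, ∑ b ∈ B, α a * β b * χ (a + (s + t * b))‖ ^ 4 :=
      pow_lt_pow_left₀ h (by positivity) (by norm_num)
    have e4 : ∀ y : ℝ, 0 ≤ y → Real.sqrt y ^ 4 = y ^ 2 := by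
      intro y hy
      rw [show (4 : ℕ) = 2 * 2 from rfl, pow_mul, Real.sq_sqrt hy]
    have e5 : (η * (Real.sqrt (A.card * B.card) * (Real.sqrt X * Real.sqrt V))) ^ 4 =
        η ^ 4 * (((A.card : ℝ) * B.card) ^ 2 * (X ^ 2 * V ^ 2)) := by
      rw [mul_pow, mul_pow, mul_pow, e4 _ (by positivity), e4 _ hX0, e4 _ hV0]
    rw [e5] at h3
    exact lt_of_lt_of_le h3 h1
  have hXV : 0 < X ^ 2 * V ^ 2 := by
    rcases eq_or_lt_of_le (show 0 ≤ X ^ 2 * V ^ 2 by positivity) with h0 | h0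
    · rw [← h0] at h2
      simp at h2
    · exact h0
  have h3 : η ^ 4 * ((A.card : ℝ) * B.card) ^ 2 ≤ C := by
    have : (η ^ 4 * ((A.card : ℝ) * B.card) ^ 2) * (X ^ 2 * V ^ 2) ≤ C * (X ^ 2 * V ^ 2) := by
      calc _ = η ^ 4 * (((A.card : ℝ) * B.card) ^ 2 * (X ^ 2 * V ^ 2)) := by ring
        _ ≤ X ^ 2 * V ^ 2 * C := h2.le
        _ = _ := by ring
    exact le_of_mul_le_mul_right this hXV
  have h4 : C ≤ ∑ q ∈ B ×ˢ B, ((if q.1 = q.2 then (A.card : ℝ) ^ 2 else 0) +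
      (if (s + t * q.1, s + t * q.2) ∈ ZZ χ A θ then (A.card : ℝ) ^ 2 else 0) +
        θ ^ 2 * (A.card : ℝ) ^ 2) := by
    rw [hC]
    refine sum_le_sum fun q _ => ?_
    have hk := kk_le χ A (s + t * q.1, s + t * q.2)
    have hk2 : ‖kk χ A (s + t * q.1, s + t * q.2)‖ ^ 2 ≤ (A.card : ℝ) ^ 2 :=
      pow_le_pow_left₀ (norm_nonneg _) hk 2
    have hpos : 0 ≤ θ ^ 2 * (A.card : ℝ) ^ 2 := by positivity
    have hpos2 : 0 ≤ (A.card : ℝ) ^ 2 := by positivity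
    by_cases hq : q.1 = q.2
    · rw [if_pos hq]
      split_ifs <;> linarith
    · rw [if_neg hq]
      by_cases hz : (s + t * q.1, s + t * q.2) ∈ ZZ χ A θ
      · rw [if_pos hz]; linarith
      · rw [if_neg hz]
        rw [mem_ZZ] at hz
        have hne : s + t * q.1 ≠ s + t * q.2 := fun h =>
          hq (mul_left_cancel₀ ht (add_left_cancel h))
        have hle : ‖kk χ A (s + t * q.1, s + t * q.2)‖ ≤ θ * A.card := by
          by_contra hh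
          exact hz ⟨hne, not_le.1 hh⟩
        have := pow_le_pow_left₀ (norm_nonneg _) hle 2
        rw [mul_pow] at this
        linarith
  rw [sum_add_distrib, sum_add_distrib, sum_const, nsmul_eq_mul, card_product] at h4
  have h5 : ∑ q ∈ B ×ˢ B, (if q.1 = q.2 then (A.card : ℝ) ^ 2 else 0) =
      B.card * (A.card : ℝ) ^ 2 := by
    rw [sum_product]
    have : ∀ x ∈ B, ∑ y ∈ B, (if x = y then (A.card : ℝ) ^ 2 else 0) = (A.card : ℝ) ^ 2 := by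
      intro x hx
      rw [sum_ite_eq, if_pos hx]
    rw [sum_congr rfl this, sum_const, nsmul_eq_mul]
  have h6 : ∑ q ∈ B ×ˢ B, (if (s + t * q.1, s + t * q.2) ∈ ZZ χ A θ then (A.card : ℝ) ^ 2 else 0) =
      (((B ×ˢ B).filter fun q => (s + t * q.1, s + t * q.2) ∈ ZZ χ A θ).card : ℝ) *
        (A.card : ℝ) ^ 2 := by
    rw [← sum_filter, sum_const, nsmul_eq_mul]
  rw [h5, h6] at h4
  push_cast at h4
  have hA2 : (0 : ℝ) < (A.card : ℝ) ^ 2 := by positivity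
  have h7 := h3.trans h4
  have h8 : (η ^ 4 * (B.card : ℝ) ^ 2) * (A.card : ℝ) ^ 2 ≤ ((B.card : ℝ) +
      (((B ×ˢ B).filter fun q => (s + t * q.1, s + t * q.2) ∈ ZZ χ A θ).card : ℝ) +
        θ ^ 2 * (B.card : ℝ) ^ 2) * (A.card : ℝ) ^ 2 := by
    calc _ = η ^ 4 * ((A.card : ℝ) * B.card) ^ 2 := by ring
      _ ≤ _ := h7
      _ = _ := by ring
  exact le_of_mul_le_mul_right h8 hA2

end

theorem few_affine (ε : ℝ) (hε : 0 < ε) : ∃ c : ℝ, 0 < c ∧ ∃ δ : ℝ, 0 < δ ∧ ∃ p₀ : ℕ,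
    ∀ (p : ℕ) [Fact p.Prime], p₀ ≤ p → ∀ χ : DirichletCharacter ℂ p, χ ≠ 1 →
    ∀ A B : Finset (ZMod p), (p : ℝ) ^ ε ≤ A.card → (p : ℝ) ^ ε ≤ B.card →
      (({g : ZMod p × ZMod p | g.2 ≠ 0 ∧ ∃ α β : ZMod p → ℂ,
        (p : ℝ) ^ (-δ) * (Real.sqrt (A.card * B.card) * (Real.sqrt (∑ a ∈ A, ‖α a‖ ^ 2) *
          Real.sqrt (∑ b ∈ B, ‖β b‖ ^ 2))) <
            ‖∑ a ∈ A, ∑ b ∈ B, α a * β b * χ (a + (g.1 + g.2 * b))‖}.ncard : ℕ) : ℝ) ≤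
        (p : ℝ) ^ (1 - c) := by
  classical
  obtain ⟨c, hc0, p₁, hmaps⟩ := few_maps ε hε
  obtain ⟨r, hr⟩ := exists_nat_gt (1 / ε)
  have hrε : 1 < ε * r := by
    rw [div_lt_iff₀ hε] at hr
    linarith
  have hr0 : (0 : ℝ) < r := by
    rcases Nat.eq_zero_or_pos r with h | h
    · rw [h] at hrε; simp at hrε; linarith
    · exact_mod_cast h
  have hr1 : 1 ≤ r := by exact_mod_cast hr0
  have hr1' : (1 : ℝ) ≤ r := by exact_mod_cast hr1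
  obtain ⟨m, hm⟩ : ∃ m : ℝ, m = min c ε := ⟨_, rfl⟩
  have hm0 : 0 < m := by rw [hm]; exact lt_min hc0 hε
  have hmc : m ≤ c := by rw [hm]; exact min_le_left _ _
  have hmε : m ≤ ε := by rw [hm]; exact min_le_right _ _
  obtain ⟨δ, hδ⟩ : ∃ δ : ℝ, δ = m / (16 * r) := ⟨_, rfl⟩
  have hδ0 : 0 < δ := by rw [hδ]; positivity
  have hδr : δ * r = m / 16 := by rw [hδ]; field_simp
  have hδm : δ ≤ m / 16 := by
    rw [← hδr]
    nlinarith
  obtain ⟨p₂, hp₂2, hp₂⟩ := exists_large (CC r * 2 ^ (2 * r)) (c / 2) (by positivity)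
  obtain ⟨p₃, hp₃2, hp₃⟩ := exists_large 4 (ε / 2) (by positivity)
  obtain ⟨p₄, hp₄2, hp₄⟩ := exists_large 2 (c / 2) (by positivity)
  refine ⟨c, hc0, δ, hδ0, p₁ + p₂ + p₃ + p₄, fun p _ hp χ hχ A B hA hB => ?_⟩
  have hp2 : (2 : ℝ) ≤ p := by exact_mod_cast (Fact.out : p.Prime).two_le
  have hp0 : (0 : ℝ) < p := by linarith
  have hp1 : (1 : ℝ) ≤ p := by linarith
  have hmono : ∀ x y : ℝ, x ≤ y → (p : ℝ) ^ x ≤ (p : ℝ) ^ y := fun x y h =>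
    Real.rpow_le_rpow_of_exponent_le hp1 h
  have hA0 : (0 : ℝ) < A.card := lt_of_lt_of_le (by positivity) hA
  have hB0 : (0 : ℝ) < B.card := lt_of_lt_of_le (by positivity) hB
  have hAr : (p : ℝ) ≤ (A.card : ℝ) ^ r := by
    calc (p : ℝ) = (p : ℝ) ^ (1 : ℝ) := (Real.rpow_one _).symm
      _ ≤ (p : ℝ) ^ (ε * r) := hmono _ _ hrε.le
      _ = ((p : ℝ) ^ ε) ^ r := by rw [← Real.rpow_natCast, ← Real.rpow_mul hp0.le]
      _ ≤ _ := pow_le_pow_left₀ (by positivity) hA r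
  obtain ⟨θ, hθ⟩ : ∃ θ : ℝ, θ = (p : ℝ) ^ (-(2 * δ)) / 2 := ⟨_, rfl⟩
  have hθ0 : 0 < θ := by rw [hθ]; positivity
  -- the set of large correlations
  have hZc : ((ZZ χ A θ).card : ℝ) ≤ (p : ℝ) ^ (1 + c) := by
    have h1 := card_ZZ χ hχ r hr1 A hAr hA0 θ hθ0
    have h2 : θ ^ (2 * r) * 2 ^ (2 * r) = (p : ℝ) ^ (-(m / 4)) := by
      rw [← mul_pow, hθ, div_mul_cancel₀ _ (by norm_num), ← Real.rpow_natCast,
        ← Real.rpow_mul hp0.le]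
      congr 1
      push_cast
      linear_combination (-4) * hδr
    have h3 : ((ZZ χ A θ).card : ℝ) * (p : ℝ) ^ (-(m / 4)) ≤ (p : ℝ) ^ (c / 2) * p := by
      rw [← h2]
      calc ((ZZ χ A θ).card : ℝ) * (θ ^ (2 * r) * 2 ^ (2 * r)) =
            (((ZZ χ A θ).card : ℝ) * θ ^ (2 * r)) * 2 ^ (2 * r) := by ring
        _ ≤ (CC r * p) * 2 ^ (2 * r) := mul_le_mul_of_nonneg_right h1 (by positivity)
        _ = (CC r * 2 ^ (2 * r)) * p := by ring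
        _ ≤ _ := mul_le_mul_of_nonneg_right (hp₂ p (by omega)) hp0.le
    have h4 : (p : ℝ) ^ (c / 2) * p = (p : ℝ) ^ (c / 2 + 1 + m / 4) * (p : ℝ) ^ (-(m / 4)) := by
      rw [← Real.rpow_add hp0]
      nth_rewrite 2 [← Real.rpow_one (p : ℝ)]
      rw [← Real.rpow_add hp0]
      congr 1
      ring
    rw [h4] at h3
    have h5 := le_of_mul_le_mul_right h3 (by positivity)
    exact h5.trans (hmono _ _ (by linarith))
  -- the exceptional maps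
  obtain ⟨T, hT⟩ : ∃ T : Finset (ZMod p × ZMod p), T = univ.filter fun g => g.2 ≠ 0 ∧
      ∃ α β : ZMod p → ℂ,
        (p : ℝ) ^ (-δ) * (Real.sqrt (A.card * B.card) * (Real.sqrt (∑ a ∈ A, ‖α a‖ ^ 2) *
          Real.sqrt (∑ b ∈ B, ‖β b‖ ^ 2))) <
            ‖∑ a ∈ A, ∑ b ∈ B, α a * β b * χ (a + (g.1 + g.2 * b))‖ := ⟨_, rfl⟩
  have hTn : {g : ZMod p × ZMod p | g.2 ≠ 0 ∧ ∃ α β : ZMod p → ℂ,
        (p : ℝ) ^ (-δ) * (Real.sqrt (A.card * B.card) * (Real.sqrt (∑ a ∈ A, ‖α a‖ ^ 2) *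
          Real.sqrt (∑ b ∈ B, ‖β b‖ ^ 2))) <
            ‖∑ a ∈ A, ∑ b ∈ B, α a * β b * χ (a + (g.1 + g.2 * b))‖} = (T : Set _) := by
    rw [hT, coe_filter]
    simp
  rw [hTn, Set.ncard_coe_finset]
  refine hmaps p (by omega) B hB (ZZ χ A θ) T (fun z hz => ((mem_ZZ _ _ _ _).1 hz).1) hZc ?_
  intro g hg
  rw [hT, mem_filter] at hg
  obtain ⟨-, hg2, α, β, hαβ⟩ := hg
  have h1 := many_pairs χ A B g.1 g.2 hg2 θ hθ0 hA0 α β _ (by positivity) hαβ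
  obtain ⟨N, hN⟩ : ∃ N : ℝ, N = (((B ×ˢ B).filter fun q =>
      (g.1 + g.2 * q.1, g.1 + g.2 * q.2) ∈ ZZ χ A θ).card : ℝ) := ⟨_, rfl⟩
  rw [← hN] at h1 ⊢
  obtain ⟨u, hu⟩ : ∃ u : ℝ, u = (p : ℝ) ^ (-(4 * δ)) := ⟨_, rfl⟩
  have hu0 : 0 < u := by rw [hu]; positivity
  have e1 : ((p : ℝ) ^ (-δ)) ^ 4 = u := by
    rw [hu, ← Real.rpow_natCast, ← Real.rpow_mul hp0.le]
    congr 1
    push_cast
    ring
  have e2 : θ ^ 2 = u / 4 := by
    rw [hθ, hu, div_pow, ← Real.rpow_natCast, ← Real.rpow_mul hp0.le]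
    congr 1
    · congr 1
      push_cast
      ring
    · norm_num
  rw [e1, e2] at h1
  obtain ⟨β', hβ'⟩ : ∃ β' : ℝ, β' = B.card := ⟨_, rfl⟩
  rw [← hβ'] at h1 hB hB0 ⊢
  have h3 : 4 ≤ u * β' := by
    have h4 : (p : ℝ) ^ (ε / 2) ≤ u * β' := by
      calc (p : ℝ) ^ (ε / 2) ≤ (p : ℝ) ^ (-(4 * δ) + ε) := hmono _ _ (by linarith)
        _ = u * (p : ℝ) ^ ε := by rw [Real.rpow_add hp0, hu]
        _ ≤ _ := mul_le_mul_of_nonneg_left hB hu0.le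
    exact (hp₃ p (by omega)).trans h4
  have h5 : (p : ℝ) ^ (-c) ≤ u / 2 := by
    have h6 := hp₄ p (by omega)
    have h7 : (p : ℝ) ^ (-c) * (p : ℝ) ^ (c / 2) ≤ u := by
      rw [← Real.rpow_add hp0, hu]
      exact hmono _ _ (by linarith)
    have h8 : 0 < (p : ℝ) ^ (-c) := by positivity
    nlinarith
  have h9 : (p : ℝ) ^ (-c) * β' ^ 2 ≤ u / 2 * β' ^ 2 :=
    mul_le_mul_of_nonneg_right h5 (by positivity)
  have h10 : β' ≤ u / 4 * β' ^ 2 := by nlinarith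
  linarith

end Pool.Agent.R111.PG
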