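import Pool.Agent.R111.PG.Cyc

set_option autoImplicit false

/-! # Pruning, and walks on a set of pairs of residues -/

open Finset

namespace Pool.Agent.R111.PG

/-- pruning: a nonempty subset all of whose fibres are large -/
lemma prune {α κ ι : Type*} [DecidableEq α] [DecidableEq κ] [Fintype ι] (J : Finset α)
    (k : ι → α → κ) (t : ι → ℝ) (ht : ∀ i, 0 ≤ t i)
    (h : ∑ i, t i * ((J.image (k i)).card : ℝ) < J.card) :
    ∃ J' ⊆ J, J'.Nonempty ∧
      ∀ j ∈ J', ∀ i, t i ≤ ((J'.filter fun j1 => k i j1 = k i j).card : ℝ) := by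
  classical
  obtain ⟨J', hJ', hmax⟩ := exists_max_image J.powerset
    (fun I => (I.card : ℝ) - ∑ i, t i * ((I.image (k i)).card : ℝ)) ⟨J, mem_powerset_self J⟩
  rw [mem_powerset] at hJ'
  refine ⟨J', hJ', ?_, ?_⟩
  · by_contra hne
    rw [not_nonempty_iff_eq_empty] at hne
    have := hmax J (mem_powerset_self J)
    rw [hne] at this
    simp only [card_empty, Nat.cast_zero, image_empty, mul_zero, sum_const_zero, sub_zero] at this
    linarith
  · intro j hj i
    by_contra hlt
    have hlt := not_le.1 hlt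
    obtain ⟨I, hI⟩ : ∃ I : Finset α, I = J'.filter fun j1 => ¬ k i j1 = k i j := ⟨_, rfl⟩
    have hIJ : I ⊆ J' := by rw [hI]; exact filter_subset _ _
    have hm := hmax I (mem_powerset.2 (hIJ.trans hJ'))
    have hcard : ((J'.filter fun j1 => k i j1 = k i j).card : ℝ) + I.card = J'.card := by
      rw [hI]
      exact_mod_cast card_filter_add_card_filter_not (s := J') (fun j1 => k i j1 = k i j)
    have himg : ∀ i', ((I.image (k i')).card : ℝ) ≤ (J'.image (k i')).card := fun i' => by
      exact_mod_cast card_le_card (image_subset_image hIJ)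
    have himg2 : ((I.image (k i)).card : ℝ) + 1 ≤ (J'.image (k i)).card := by
      have hss : I.image (k i) ⊂ J'.image (k i) := by
        rw [Finset.ssubset_iff_of_subset (image_subset_image hIJ)]
        refine ⟨k i j, mem_image_of_mem _ hj, fun hmem => ?_⟩
        rw [mem_image] at hmem
        obtain ⟨x, hx, hx2⟩ := hmem
        rw [hI, mem_filter] at hx
        exact hx.2 hx2
      exact_mod_cast card_lt_card hss
    have hsum : ∑ i', t i' * ((I.image (k i')).card : ℝ) + t i ≤
        ∑ i', t i' * ((J'.image (k i')).card : ℝ) := by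
      rw [← add_sum_erase univ (fun i' => t i' * ((I.image (k i')).card : ℝ)) (mem_univ i),
        ← add_sum_erase univ (fun i' => t i' * ((J'.image (k i')).card : ℝ)) (mem_univ i)]
      have h1 : ∑ i' ∈ univ.erase i, t i' * ((I.image (k i')).card : ℝ) ≤
          ∑ i' ∈ univ.erase i, t i' * ((J'.image (k i')).card : ℝ) :=
        sum_le_sum fun i' _ => mul_le_mul_of_nonneg_left (himg i') (ht i')
      have h2 := mul_le_mul_of_nonneg_left himg2 (ht i)
      linarith
    linarith

section
variable {p : ℕ} [Fact p.Prime]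

/-- the number of pairs of `Z` in whose frame `Y` has the coordinate `s` -/
def wt (Z : Finset (ZMod p × ZMod p)) (Y s : ZMod p) : ℕ :=
  (Z.filter fun z => Y = z.1 + s * (z.2 - z.1)).card

lemma wt_sum (Z : Finset (ZMod p × ZMod p)) (hZ : ∀ z ∈ Z, z.1 ≠ z.2) (Y : ZMod p) :
    ∑ s, (wt Z Y s : ℝ) = Z.card := by
  classical
  have h := card_eq_sum_card_fiberwise (s := Z) (t := (univ : Finset (ZMod p)))
    (f := fun z => (Y - z.1) * (z.2 - z.1)⁻¹) (fun _ _ => mem_coe.2 (mem_univ _))
  rw [h]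
  push_cast
  refine sum_congr rfl fun s _ => ?_
  unfold wt
  congr 2
  refine filter_congr fun z hz => ?_
  have hne : z.2 - z.1 ≠ 0 := sub_ne_zero.2 (hZ z hz).symm
  constructor
  · intro h1
    rw [h1]
    field_simp
    ring
  · intro h1
    rw [← h1]
    field_simp
    ring

lemma wt_swap (Z : Finset (ZMod p × ZMod p)) (Y s : ZMod p) :
    wt (Z.image Prod.swap) Y (1 - s) = wt Z Y s := by
  classical
  unfold wt
  rw [filter_image, card_image_of_injective _ Prod.swap_injective]
  congr 1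
  refine filter_congr fun z _ => ?_
  simp only [Prod.fst_swap, Prod.snd_swap]
  constructor
  · intro h; rw [h]; ring
  · intro h; rw [h]; ring

/-- one step of the walk -/
lemma step (A : Finset (ZMod p)) (Z : Finset (ZMod p × ZMod p)) (Y s : ZMod p) (θ : ℝ)
    (hθ : 0 < θ) (hZ : ∀ z ∈ Z, z.1 ≠ z.2)
    (hN : ∀ z ∈ Z, θ * (A.card : ℝ) ^ 3 ≤ (((A ×ˢ A ×ˢ A).filter fun l =>
      (z.1, z.1 + (l.2.2 - l.1) * (l.2.1 - l.1)⁻¹ * (z.2 - z.1)) ∈ Z).card : ℝ))
    (hs : 0 < wt Z Y s) :
    θ / 2 * (A.card : ℝ) ^ 3 ≤ (((A ×ˢ A ×ˢ A).filter fun l => l.2.1 ≠ l.1 ∧ l.2.2 ≠ l.1 ∧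
      θ / 2 * wt Z Y s ≤ wt Z Y (s * ((l.2.1 - l.1) * (l.2.2 - l.1)⁻¹))).card : ℝ) := by
  classical
  obtain ⟨P, hP⟩ : ∃ P : Finset (ZMod p × ZMod p × ZMod p), P = A ×ˢ A ×ˢ A := ⟨_, rfl⟩
  obtain ⟨W, hW⟩ : ∃ W : Finset (ZMod p × ZMod p),
    W = Z.filter fun z => Y = z.1 + s * (z.2 - z.1) := ⟨_, rfl⟩
  obtain ⟨w, hw⟩ : ∃ w : ℝ, w = wt Z Y s := ⟨_, rfl⟩
  have hw0 : 0 < w := by rw [hw]; exact_mod_cast hs
  have hWc : (W.card : ℝ) = w := by rw [hw, hW]; rfl
  have hPc : (P.card : ℝ) = (A.card : ℝ) ^ 3 := by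
    rw [hP, card_product, card_product]; push_cast; ring
  obtain ⟨G, hG⟩ : ∃ G : Finset (ZMod p × ZMod p × ZMod p),
    G = P.filter fun l => l.2.1 ≠ l.1 ∧ l.2.2 ≠ l.1 ∧
      θ / 2 * wt Z Y s ≤ wt Z Y (s * ((l.2.1 - l.1) * (l.2.2 - l.1)⁻¹)) := ⟨_, rfl⟩
  rw [← hP, ← hG]
  rw [← hP] at hN
  by_contra hcon
  have hcon := not_le.1 hcon
  obtain ⟨R, hR⟩ : ∃ R : ZMod p × ZMod p → ZMod p × ZMod p × ZMod p → Prop, R = fun z l =>
    (z.1, z.1 + (l.2.2 - l.1) * (l.2.1 - l.1)⁻¹ * (z.2 - z.1)) ∈ Z := ⟨_, rfl⟩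
  have hdc : ∑ z ∈ W, ((P.filter fun l => R z l).card : ℝ) =
      ∑ l ∈ P, ((W.filter fun z => R z l).card : ℝ) := by
    simp only [card_filter]
    push_cast
    exact sum_comm
  have hlow : w * (θ * (A.card : ℝ) ^ 3) ≤ ∑ z ∈ W, ((P.filter fun l => R z l).card : ℝ) := by
    rw [← hWc, ← nsmul_eq_mul]
    refine card_nsmul_le_sum _ _ _ fun z hz => ?_
    simp only [hR]
    exact hN z (by rw [hW] at hz; exact (mem_filter.1 hz).1)
  have hup : ∑ l ∈ P, ((W.filter fun z => R z l).card : ℝ) ≤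
      ∑ l ∈ P, ((if l ∈ G then w else 0) + θ / 2 * w) := by
    refine sum_le_sum fun l hl => ?_
    have htriv : ((W.filter fun z => R z l).card : ℝ) ≤ w := by
      rw [← hWc]; exact_mod_cast card_le_card (filter_subset _ _)
    have hpos : 0 ≤ θ / 2 * w := by positivity
    by_cases hlG : l ∈ G
    · rw [if_pos hlG]; linarith
    · rw [if_neg hlG, zero_add]
      by_cases h1 : l.2.1 = l.1
      · have : (W.filter fun z => R z l) = ∅ := by
          rw [filter_eq_empty_iff]
          intro z _ hz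
          rw [hR] at hz
          simp only [h1, sub_self, inv_zero, mul_zero, zero_mul, add_zero] at hz
          exact hZ _ hz rfl
        rw [this]; simpa using hpos
      · by_cases h2 : l.2.2 = l.1
        · have : (W.filter fun z => R z l) = ∅ := by
            rw [filter_eq_empty_iff]
            intro z _ hz
            rw [hR] at hz
            simp only [h2, sub_self, zero_mul, add_zero] at hz
            exact hZ _ hz rfl
          rw [this]; simpa using hpos
        · have hn : ¬ θ / 2 * wt Z Y s ≤ wt Z Y (s * ((l.2.1 - l.1) * (l.2.2 - l.1)⁻¹)) := by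
            intro hh
            exact hlG (by rw [hG, mem_filter]; exact ⟨hl, h1, h2, hh⟩)
          have hn := not_le.1 hn
          have d1 : l.2.1 - l.1 ≠ 0 := sub_ne_zero.2 h1
          have d2 : l.2.2 - l.1 ≠ 0 := sub_ne_zero.2 h2
          have hinj : (W.filter fun z => R z l).card ≤
              wt Z Y (s * ((l.2.1 - l.1) * (l.2.2 - l.1)⁻¹)) := by
            unfold wt
            refine card_le_card_of_injOn
              (fun z => (z.1, z.1 + (l.2.2 - l.1) * (l.2.1 - l.1)⁻¹ * (z.2 - z.1))) ?_ ?_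
            · intro z hz
              rw [mem_coe, mem_filter, hR, hW, mem_filter] at hz
              rw [mem_coe, mem_filter]
              refine ⟨hz.2, ?_⟩
              have := hz.1.2
              rw [this]
              field_simp
              ring
            · intro z _ z' _ h
              simp only [Prod.mk.injEq] at h
              obtain ⟨e1, e2⟩ := h
              rw [e1] at e2
              have e3 : (l.2.2 - l.1) * (l.2.1 - l.1)⁻¹ * (z.2 - z'.1) =
                (l.2.2 - l.1) * (l.2.1 - l.1)⁻¹ * (z'.2 - z'.1) := add_left_cancel e2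
              have e4 := mul_left_cancel₀ (mul_ne_zero d2 (inv_ne_zero d1)) e3
              exact Prod.ext e1 (sub_left_injective e4)
          have : ((W.filter fun z => R z l).card : ℝ) ≤
              wt Z Y (s * ((l.2.1 - l.1) * (l.2.2 - l.1)⁻¹)) := by exact_mod_cast hinj
          rw [hw]
          linarith
  have hsum : ∑ l ∈ P, ((if l ∈ G then w else 0) + θ / 2 * w) =
      G.card * w + P.card * (θ / 2 * w) := by
    rw [sum_add_distrib, sum_const, nsmul_eq_mul, ← sum_filter, sum_const, nsmul_eq_mul]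
    congr 3
    have hGP : G ⊆ P := by rw [hG]; exact filter_subset _ _
    congr 1
    ext l
    rw [mem_filter]
    exact ⟨fun h => h.2, fun h => ⟨hGP h, h⟩⟩
  rw [hsum, hPc] at hup
  rw [hdc] at hlow
  have h3 : (G.card : ℝ) * w < θ / 2 * (A.card : ℝ) ^ 3 * w :=
    mul_lt_mul_of_pos_right hcon hw0
  nlinarith

end

end Pool.Agent.R111.PG
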