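import Pool.Agent.R111.PG.Moves

set_option autoImplicit false

/-! # The pruned set of pairs -/

open Finset

namespace Pool.Agent.R111.PG

section
variable {p : ℕ} [Fact p.Prime]

/-- the structure obtained by pruning: a set of pairs such that the moves stay in the set with a
large probability -/
def Stable (A : Finset (ZMod p)) (Z : Finset (ZMod p × ZMod p)) (Y : ZMod p) (x : ℝ) : Prop :=
  (∀ z ∈ Z, z.1 ≠ z.2) ∧
  (∀ z ∈ Z, (x ^ 4) ^ 2 * (A.card : ℝ) ^ 3 ≤ (((A ×ˢ A ×ˢ A).filter fun l =>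
      (z.1, z.1 + (l.2.2 - l.1) * (l.2.1 - l.1)⁻¹ * (z.2 - z.1)) ∈ Z).card : ℝ)) ∧
  (∀ z ∈ Z, (x ^ 4) ^ 2 * (A.card : ℝ) ^ 3 ≤ (((A ×ˢ A ×ˢ A).filter fun l =>
      (z.2 + (l.2.2 - l.1) * (l.2.1 - l.1)⁻¹ * (z.1 - z.2), z.2) ∈ Z).card : ℝ)) ∧
  x ^ 4 * (A.card : ℝ) ≤ wt Z Y 0

/-- the incidences -/
def JJ (A : Finset (ZMod p)) (Z T : Finset (ZMod p × ZMod p)) :
    Finset ((ZMod p × ZMod p) × ZMod p × ZMod p) :=
  (T ×ˢ (A ×ˢ A)).filter fun j => (j.1.1 + j.1.2 * j.2.1, j.1.1 + j.1.2 * j.2.2) ∈ Z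

lemma mem_JJ (A : Finset (ZMod p)) (Z T : Finset (ZMod p × ZMod p))
    (j : (ZMod p × ZMod p) × ZMod p × ZMod p) :
    j ∈ JJ A Z T → j.1 ∈ T ∧ j.2.1 ∈ A ∧ j.2.2 ∈ A ∧ zz j ∈ Z := by
  intro hj
  unfold JJ at hj
  rw [mem_filter, mem_product, mem_product] at hj
  exact ⟨hj.1.1, hj.1.2.1, hj.1.2.2, hj.2⟩

/-- the three keys -/
def key (i : Fin 3) (j : (ZMod p × ZMod p) × ZMod p × ZMod p) : (ZMod p × ZMod p) × ZMod p :=
  if i = 0 then (zz j, 0) else if i = 1 then (j.1, j.2.1) else (j.1, j.2.2)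

/-- the three thresholds -/
noncomputable def thr (x α : ℝ) (i : Fin 3) : ℝ := if i = 0 then x ^ 4 * α ^ 2 else x ^ 4 * α

lemma card_key0 (A : Finset (ZMod p)) (Z T : Finset (ZMod p × ZMod p)) :
    (((JJ A Z T).image (key 0)).card : ℝ) ≤ Z.card := by
  classical
  have h1 : (JJ A Z T).image (key 0) ⊆ Z.image (fun z => (z, (0 : ZMod p))) := by
    intro y hy
    rw [mem_image] at hy ⊢
    obtain ⟨j, hj, rfl⟩ := hy
    exact ⟨zz j, (mem_JJ _ _ _ _ hj).2.2.2, by unfold key; rw [if_pos rfl]⟩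
  exact_mod_cast (card_le_card h1).trans card_image_le

lemma card_key1 (A : Finset (ZMod p)) (Z T : Finset (ZMod p × ZMod p)) :
    (((JJ A Z T).image (key 1)).card : ℝ) ≤ T.card * A.card := by
  classical
  have h1 : (JJ A Z T).image (key 1) ⊆ T ×ˢ A := by
    intro y hy
    rw [mem_image] at hy
    obtain ⟨j, hj, rfl⟩ := hy
    have := mem_JJ _ _ _ _ hj
    unfold key
    rw [if_neg (by decide), if_pos rfl, mem_product]
    exact ⟨this.1, this.2.1⟩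
  have h2 := card_le_card h1
  rw [card_product] at h2
  exact_mod_cast h2

lemma card_key2 (A : Finset (ZMod p)) (Z T : Finset (ZMod p × ZMod p)) :
    (((JJ A Z T).image (key 2)).card : ℝ) ≤ T.card * A.card := by
  classical
  have h1 : (JJ A Z T).image (key 2) ⊆ T ×ˢ A := by
    intro y hy
    rw [mem_image] at hy
    obtain ⟨j, hj, rfl⟩ := hy
    have := mem_JJ _ _ _ _ hj
    unfold key
    rw [if_neg (by decide), if_neg (by decide), mem_product]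
    exact ⟨this.1, this.2.2.1⟩
  have h2 := card_le_card h1
  rw [card_product] at h2
  exact_mod_cast h2

lemma num_sum (x α τ ζ n0 n1 n2 N : ℝ) (hx0 : 0 < x) (hx : x ≤ 1 / 16) (hα : 0 < α) (hτ : 0 < τ)
    (h0 : n0 ≤ ζ) (hζ : x ^ 2 * ζ ≤ τ) (h1 : n1 ≤ τ * α) (h2 : n2 ≤ τ * α)
    (hN : x * α ^ 2 * τ ≤ N) :
    x ^ 4 * α ^ 2 * n0 + x ^ 4 * α * n1 + x ^ 4 * α * n2 < N := by
  have h1' : x ^ 4 * α ^ 2 * n0 ≤ x ^ 2 * α ^ 2 * τ := by
    calc _ ≤ x ^ 4 * α ^ 2 * ζ := mul_le_mul_of_nonneg_left h0 (by positivity)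
      _ = x ^ 2 * α ^ 2 * (x ^ 2 * ζ) := by ring
      _ ≤ _ := mul_le_mul_of_nonneg_left hζ (by positivity)
  have h2' : x ^ 4 * α * n1 ≤ x ^ 4 * α ^ 2 * τ := by
    calc _ ≤ x ^ 4 * α * (τ * α) := mul_le_mul_of_nonneg_left h1 (by positivity)
      _ = _ := by ring
  have h3' : x ^ 4 * α * n2 ≤ x ^ 4 * α ^ 2 * τ := by
    calc _ ≤ x ^ 4 * α * (τ * α) := mul_le_mul_of_nonneg_left h2 (by positivity)
      _ = _ := by ring
  have h4 : x ^ 2 + 2 * x ^ 4 < x := by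
    have h5 : x ^ 2 ≤ x / 16 := by nlinarith
    have h6 : x ^ 4 ≤ x / 16 := by
      calc x ^ 4 = x ^ 2 * x ^ 2 := by ring
        _ ≤ (x / 16) * 1 := mul_le_mul h5 (by nlinarith) (by positivity) (by positivity)
        _ = _ := by ring
    linarith
  have h7 : (x ^ 2 + 2 * x ^ 4) * (α ^ 2 * τ) < x * (α ^ 2 * τ) :=
    mul_lt_mul_of_pos_right h4 (by positivity)
  calc _ ≤ x ^ 2 * α ^ 2 * τ + x ^ 4 * α ^ 2 * τ + x ^ 4 * α ^ 2 * τ := by linarith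
    _ = (x ^ 2 + 2 * x ^ 4) * (α ^ 2 * τ) := by ring
    _ < x * (α ^ 2 * τ) := h7
    _ = x * α ^ 2 * τ := by ring
    _ ≤ _ := hN

/-- many incidences give a stable set of pairs -/
theorem pruned (A : Finset (ZMod p)) (Z T : Finset (ZMod p × ZMod p)) (x : ℝ) (hx0 : 0 < x)
    (hx : x ≤ 1 / 16) (hA0 : 0 < (A.card : ℝ)) (hT0 : 0 < (T.card : ℝ))
    (hZne : ∀ z ∈ Z, z.1 ≠ z.2) (hZT : x ^ 2 * Z.card ≤ T.card)
    (hT : ∀ g ∈ T, x * (A.card : ℝ) ^ 2 ≤ (((A ×ˢ A).filter fun q =>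
        (g.1 + g.2 * q.1, g.1 + g.2 * q.2) ∈ Z).card : ℝ)) :
    ∃ Z' ⊆ Z, ∃ Y : ZMod p, Stable A Z' Y x := by
  classical
  have hJc : x * (A.card : ℝ) ^ 2 * T.card ≤ ((JJ A Z T).card : ℝ) := by
    have e : ((JJ A Z T).card : ℝ) = ∑ g ∈ T, (((A ×ˢ A).filter fun q =>
        (g.1 + g.2 * q.1, g.1 + g.2 * q.2) ∈ Z).card : ℝ) := by
      unfold JJ
      rw [card_prod_filter T (A ×ˢ A)
        (fun g q => (g.1 + g.2 * q.1, g.1 + g.2 * q.2) ∈ Z)]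
      push_cast
      rfl
    rw [e]
    have := sum_le_sum hT
    rw [sum_const, nsmul_eq_mul] at this
    linarith
  have hsum : ∑ i, thr x A.card i * (((JJ A Z T).image (key i)).card : ℝ) < (JJ A Z T).card := by
    rw [Fin.sum_univ_three]
    have e0 : thr x (A.card : ℝ) 0 = x ^ 4 * (A.card : ℝ) ^ 2 := by unfold thr; rw [if_pos rfl]
    have e1 : thr x (A.card : ℝ) 1 = x ^ 4 * (A.card : ℝ) := by
      unfold thr; rw [if_neg (by decide)]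
    have e2 : thr x (A.card : ℝ) 2 = x ^ 4 * (A.card : ℝ) := by
      unfold thr; rw [if_neg (by decide)]
    rw [e0, e1, e2]
    exact num_sum x A.card T.card Z.card _ _ _ _ hx0 hx hA0 hT0 (card_key0 A Z T) hZT
      (card_key1 A Z T) (card_key2 A Z T) hJc
  have htn : ∀ i, 0 ≤ thr x (A.card : ℝ) i := by
    intro i
    unfold thr
    split_ifs <;> positivity
  obtain ⟨J', hJ', ⟨j0, hj0⟩, hpr⟩ := prune (JJ A Z T) key _ htn hsum
  have h0 : ∀ j ∈ J', x ^ 4 * (A.card : ℝ) ^ 2 ≤ ((J'.filter fun i => zz i = zz j).card : ℝ) := by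
    intro j hj
    have h1 := hpr j hj 0
    unfold thr at h1
    rw [if_pos rfl] at h1
    refine h1.trans (Nat.cast_le.2 (card_le_card fun i hi => ?_))
    rw [mem_filter] at hi ⊢
    refine ⟨hi.1, ?_⟩
    have h3 := hi.2
    unfold key at h3
    rw [if_pos rfl, if_pos rfl] at h3
    exact (Prod.mk.inj h3).1
  have h1 : ∀ j ∈ J', x ^ 4 * (A.card : ℝ) ≤
      ((J'.filter fun i => (i.1, i.2.1) = (j.1, j.2.1)).card : ℝ) := by
    intro j hj
    have h1 := hpr j hj 1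
    unfold thr at h1
    rw [if_neg (by decide)] at h1
    refine h1.trans (Nat.cast_le.2 (card_le_card fun i hi => ?_))
    rw [mem_filter] at hi ⊢
    refine ⟨hi.1, ?_⟩
    have h3 := hi.2
    unfold key at h3
    rw [if_neg (by decide), if_pos rfl, if_neg (by decide), if_pos rfl] at h3
    exact h3
  have h2 : ∀ j ∈ J', x ^ 4 * (A.card : ℝ) ≤
      ((J'.filter fun i => (i.1, i.2.2) = (j.1, j.2.2)).card : ℝ) := by
    intro j hj
    have h1 := hpr j hj 2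
    unfold thr at h1
    rw [if_neg (by decide)] at h1
    refine h1.trans (Nat.cast_le.2 (card_le_card fun i hi => ?_))
    rw [mem_filter] at hi ⊢
    refine ⟨hi.1, ?_⟩
    have h3 := hi.2
    unfold key at h3
    rw [if_neg (by decide), if_neg (by decide), if_neg (by decide), if_neg (by decide)] at h3
    exact h3
  have hA' : ∀ j ∈ J', j.2.1 ∈ A ∧ j.2.2 ∈ A := fun j hj =>
    ⟨(mem_JJ _ _ _ _ (hJ' hj)).2.1, (mem_JJ _ _ _ _ (hJ' hj)).2.2.1⟩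
  have hZ'Z : J'.image zz ⊆ Z := by
    intro z hz
    rw [mem_image] at hz
    obtain ⟨j, hj, rfl⟩ := hz
    exact (mem_JJ _ _ _ _ (hJ' hj)).2.2.2
  have hne' : ∀ j ∈ J', (zz j).1 ≠ (zz j).2 := fun j hj =>
    hZne _ (hZ'Z (mem_image_of_mem _ hj))
  have hx4 : (0 : ℝ) ≤ x ^ 4 := by positivity
  refine ⟨J'.image zz, hZ'Z, (zz j0).1, fun z hz => hZne z (hZ'Z hz), ?_, ?_, ?_⟩
  · exact moves1 A J' (x ^ 4) hx4 hA' hne' h0 h1
  · exact moves2 A J' (x ^ 4) hx4 hA' hne' h0 h2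
  · exact wt_zero A J' (x ^ 4) hne' h1 j0 hj0

/-- the level sets -/
noncomputable def lev (Z : Finset (ZMod p × ZMod p)) (Y : ZMod p) (lam : ℝ) : Finset (ZMod p) := by
  classical
  exact univ.filter fun s : ZMod p => lam ≤ wt Z Y s

lemma mem_lev (Z : Finset (ZMod p × ZMod p)) (Y : ZMod p) (lam : ℝ) (s : ZMod p) :
    s ∈ lev Z Y lam ↔ lam ≤ wt Z Y s := by
  classical
  unfold lev
  rw [mem_filter]
  exact ⟨fun h => h.2, fun h => ⟨mem_univ _, h⟩⟩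

/-- a level set without growth is impossible -/
lemma level_step (A : Finset (ZMod p)) (Z : Finset (ZMod p × ZMod p)) (Y : ZMod p) (x lam η : ℝ)
    (hx0 : 0 < x) (hA0 : 0 < (A.card : ℝ)) (hst : Stable A Z Y x) (hlam : 0 < lam) (hη : 0 ≤ η)
    (hne : 0 < ((lev Z Y lam).card : ℝ))
    (nf : ∀ H U : Finset (ZMod p), (0 : ZMod p) ∉ H → (0 : ZMod p) ∉ U → H.card = A.card - 1 →
      U.card = A.card - 1 →
      ∑ s ∈ lev Z Y lam, (((H ×ˢ U).filter fun i => i.2 * (1 - i.1 * s) ∈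
        (lev Z Y (((x ^ 4) ^ 2 / 2) ^ 2 * lam)).image (fun x => 1 - x)).card : ℝ)
        ≤ η * ((lev Z Y lam).card * (H.card * U.card))) :
    ((x ^ 4) ^ 2 / 2) ^ 2 ≤ η := by
  classical
  obtain ⟨hZne, hN, hN2, -⟩ := hst
  obtain ⟨κ, hκ⟩ : ∃ κ : ℝ, κ = ((x ^ 4) ^ 2 / 2) ^ 2 := ⟨_, rfl⟩
  rw [← hκ] at nf ⊢
  have hup := upper A (lev Z Y lam) (lev Z Y (κ * lam)) η hη nf
  have hlow : ((lev Z Y lam).card : ℝ) * (κ * (A.card : ℝ) ^ 6) ≤
      (((lev Z Y lam ×ˢ ((A ×ˢ A ×ˢ A) ×ˢ (A ×ˢ A ×ˢ A))).filter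
      fun y => gd y.2.1 ∧ gd y.2.2 ∧
        1 - rt y.2.2 * (1 - rt y.2.1 * y.1) ∈ lev Z Y (κ * lam)).card : ℝ) := by
    rw [card_prod_filter (lev Z Y lam) ((A ×ˢ A ×ˢ A) ×ˢ (A ×ˢ A ×ˢ A))
      (fun s q => gd q.1 ∧ gd q.2 ∧ 1 - rt q.2 * (1 - rt q.1 * s) ∈ lev Z Y (κ * lam))]
    push_cast
    rw [← nsmul_eq_mul]
    refine card_nsmul_le_sum _ _ _ fun s hs => ?_
    rw [mem_lev] at hs
    have h3 := two A Z Y s ((x ^ 4) ^ 2) lam (by positivity) hZne hN hN2 hlam hs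
    rw [← hκ] at h3
    refine h3.trans (Nat.cast_le.2 (card_le_card fun q hq => ?_))
    rw [mem_filter] at hq ⊢
    refine ⟨hq.1, hq.2.1, hq.2.2.1, ?_⟩
    rw [mem_lev]
    exact hq.2.2.2
  have h3 := hlow.trans hup
  have h4 : κ * ((lev Z Y lam).card * (A.card : ℝ) ^ 6) ≤
      η * ((lev Z Y lam).card * (A.card : ℝ) ^ 6) := by
    linarith
  exact le_of_mul_le_mul_right h4 (by positivity)

end

end Pool.Agent.R111.PG
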