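import Pool.Agent.R111.PG.Op

set_option autoImplicit false

/-! # Difference sums over the sets `X + t Y + u W` -/

open Finset

namespace Pool.Agent.R111.PG

open Pool.Agent.H435R3.Paley (exists_large)

section
variable {p : ℕ} [Fact p.Prime]

/-- the shift of a block -/
def sh (t u : ZMod p) (q : ZMod p × ZMod p × ZMod p × ZMod p) : ZMod p :=
  q.1 + t * (q.2.1 - q.2.2.1) - u * q.2.2.2

/-- the projection -/
def pj (t u : ZMod p) (v : ZMod p × ZMod p × ZMod p) : ZMod p := v.1 + t * v.2.1 + u * v.2.2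

/-- a block -/
noncomputable def blk (χ : DirichletCharacter ℂ p) (X W : Finset (ZMod p)) (t u : ZMod p)
    (f h : ZMod p × ZMod p × ZMod p → ℂ) (q : ZMod p × ZMod p × ZMod p × ZMod p) : ℂ :=
  ∑ a ∈ X.image (fun x => -x), ∑ w ∈ W,
    h (-a, q.2.2.1, q.2.2.2) * f (q.1, q.2.1, w) * χ (a + (sh t u q + u * w))

lemma expand (χ : DirichletCharacter ℂ p) (X Y W : Finset (ZMod p)) (t u : ZMod p)
    (f h : ZMod p × ZMod p × ZMod p → ℂ) :
    ∑ v ∈ X ×ˢ Y ×ˢ W, ∑ v' ∈ X ×ˢ Y ×ˢ W, f v * h v' * χ (pj t u v - pj t u v') =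
      ∑ q ∈ X ×ˢ Y ×ˢ Y ×ˢ W, blk χ X W t u f h q := by
  have e1 : ∀ q ∈ X ×ˢ Y ×ˢ Y ×ˢ W, blk χ X W t u f h q = ∑ r ∈ X ×ˢ W,
      h (r.1, q.2.2.1, q.2.2.2) * f (q.1, q.2.1, r.2) * χ (-r.1 + (sh t u q + u * r.2)) := by
    intro q _
    unfold blk
    rw [sum_image fun x _ y _ hxy => neg_injective hxy, sum_product]
    refine sum_congr rfl fun x _ => sum_congr rfl fun w _ => ?_
    rw [neg_neg]
  rw [sum_congr rfl e1, ← sum_product', ← sum_product']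
  refine sum_nbij' (fun r => ((r.1.1, r.1.2.1, r.2.2.1, r.2.2.2), (r.2.1, r.1.2.2)))
    (fun r => ((r.1.1, r.1.2.1, r.2.2), (r.2.1, r.1.2.2.1, r.1.2.2.2))) ?_ ?_ ?_ ?_ ?_
  · intro r hr
    simp only [mem_product] at hr ⊢
    tauto
  · intro r hr
    simp only [mem_product] at hr ⊢
    tauto
  · intro r _; rfl
  · intro r _; rfl
  · intro r _
    simp only
    have e2 : pj t u r.1 - pj t u r.2 = -r.2.1 + (sh t u (r.1.1, r.1.2.1, r.2.2.1, r.2.2.2) +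
        u * r.1.2.2) := by
      unfold pj sh
      ring
    rw [e2]
    ring

lemma l1_le (S : Finset (ZMod p)) (α : ZMod p → ℂ) :
    (∑ a ∈ S, ‖α a‖) ^ 2 ≤ S.card * ∑ a ∈ S, ‖α a‖ ^ 2 := sq_sum_le_card_mul_sum_sq

lemma trivial_form (χ : DirichletCharacter ℂ p) (A B : Finset (ZMod p)) (s u : ZMod p)
    (α β : ZMod p → ℂ) :
    ‖∑ a ∈ A, ∑ b ∈ B, α a * β b * χ (a + (s + u * b))‖ ^ 2 ≤
      (A.card * B.card) * ((∑ a ∈ A, ‖α a‖ ^ 2) * ∑ b ∈ B, ‖β b‖ ^ 2) := by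
  have h1 : ‖∑ a ∈ A, ∑ b ∈ B, α a * β b * χ (a + (s + u * b))‖ ≤
      (∑ a ∈ A, ‖α a‖) * ∑ b ∈ B, ‖β b‖ := by
    rw [sum_mul_sum]
    refine (norm_sum_le _ _).trans (sum_le_sum fun a _ => ?_)
    refine (norm_sum_le _ _).trans (sum_le_sum fun b _ => ?_)
    rw [norm_mul, norm_mul]
    exact mul_le_of_le_one_right (by positivity) (DirichletCharacter.norm_le_one χ _)
  calc _ ≤ ((∑ a ∈ A, ‖α a‖) * ∑ b ∈ B, ‖β b‖) ^ 2 := pow_le_pow_left₀ (norm_nonneg _) h1 2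
    _ = (∑ a ∈ A, ‖α a‖) ^ 2 * (∑ b ∈ B, ‖β b‖) ^ 2 := mul_pow _ _ _
    _ ≤ (A.card * ∑ a ∈ A, ‖α a‖ ^ 2) * (B.card * ∑ b ∈ B, ‖β b‖ ^ 2) :=
        mul_le_mul (l1_le A α) (l1_le B β) (by positivity) (by positivity)
    _ = _ := by ring

/-- the bad maps -/
def Bd (χ : DirichletCharacter ℂ p) (A B : Finset (ZMod p)) (η : ℝ) : Set (ZMod p × ZMod p) :=
  {g : ZMod p × ZMod p | g.2 ≠ 0 ∧ ∃ α β : ZMod p → ℂ,
        η * (Real.sqrt (A.card * B.card) * (Real.sqrt (∑ a ∈ A, ‖α a‖ ^ 2) *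
          Real.sqrt (∑ b ∈ B, ‖β b‖ ^ 2))) <
            ‖∑ a ∈ A, ∑ b ∈ B, α a * β b * χ (a + (g.1 + g.2 * b))‖}

lemma good_form (χ : DirichletCharacter ℂ p) (A B : Finset (ZMod p)) (s u : ZMod p) (hu : u ≠ 0)
    (η : ℝ) (hη : 0 ≤ η) (hg : (s, u) ∉ Bd χ A B η) (α β : ZMod p → ℂ) :
    ‖∑ a ∈ A, ∑ b ∈ B, α a * β b * χ (a + (s + u * b))‖ ^ 2 ≤
      η ^ 2 * ((A.card * B.card) * ((∑ a ∈ A, ‖α a‖ ^ 2) * ∑ b ∈ B, ‖β b‖ ^ 2)) := by
  have h1 : ‖∑ a ∈ A, ∑ b ∈ B, α a * β b * χ (a + (s + u * b))‖ ≤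
      η * (Real.sqrt (A.card * B.card) * (Real.sqrt (∑ a ∈ A, ‖α a‖ ^ 2) *
          Real.sqrt (∑ b ∈ B, ‖β b‖ ^ 2))) := by
    by_contra h
    exact hg ⟨hu, α, β, not_le.1 h⟩
  refine (pow_le_pow_left₀ (norm_nonneg _) h1 2).trans (le_of_eq ?_)
  rw [mul_pow, mul_pow, mul_pow, Real.sq_sqrt (by positivity), Real.sq_sqrt (by positivity),
    Real.sq_sqrt (by positivity)]

open Classical in
/-- the bound for the form, if few blocks are bad -/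
lemma form_triple (χ : DirichletCharacter ℂ p) (X Y W : Finset (ZMod p)) (t u : ZMod p)
    (hu : u ≠ 0) (η : ℝ) (hη : 0 ≤ η) (f h : ZMod p × ZMod p × ZMod p → ℂ)
    (hbad : (((X ×ˢ Y ×ˢ Y ×ˢ W).filter fun q =>
      (sh t u q, u) ∈ Bd χ (X.image fun x => -x) W η).card : ℝ) ≤
        η ^ 2 * (X.card * (Y.card * (Y.card * W.card)))) :
    ‖∑ v ∈ X ×ˢ Y ×ˢ W, ∑ v' ∈ X ×ˢ Y ×ˢ W, f v * h v' * χ (pj t u v - pj t u v')‖ ^ 2 ≤
      2 * η ^ 2 * (X.card * (Y.card * W.card)) ^ 2 *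
        ((∑ v ∈ X ×ˢ Y ×ˢ W, ‖f v‖ ^ 2) * ∑ v ∈ X ×ˢ Y ×ˢ W, ‖h v‖ ^ 2) := by
  obtain ⟨Q, hQ⟩ : ∃ Q, Q = X ×ˢ Y ×ˢ Y ×ˢ W := ⟨_, rfl⟩
  obtain ⟨F, hF⟩ : ∃ F : ZMod p × ZMod p × ZMod p × ZMod p → ℝ, F = fun q =>
    ∑ w ∈ W, ‖f (q.1, q.2.1, w)‖ ^ 2 := ⟨_, rfl⟩
  obtain ⟨G, hG⟩ : ∃ G : ZMod p × ZMod p × ZMod p × ZMod p → ℝ, G = fun q =>
    ∑ x ∈ X, ‖h (x, q.2.2.1, q.2.2.2)‖ ^ 2 := ⟨_, rfl⟩
  have hF0 : ∀ q, 0 ≤ F q := by intro q; rw [hF]; positivity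
  have hG0 : ∀ q, 0 ≤ G q := by intro q; rw [hG]; positivity
  have hXc : (X.image fun x => -x).card = X.card := card_image_of_injective _ neg_injective
  obtain ⟨c2, hc2⟩ : ∃ c2 : ZMod p × ZMod p × ZMod p × ZMod p → ℝ, c2 = fun q =>
    if (sh t u q, u) ∈ Bd χ (X.image fun x => -x) W η then 1 else η ^ 2 := ⟨_, rfl⟩
  have hc20 : ∀ q, 0 ≤ c2 q := by intro q; rw [hc2]; simp only; split_ifs <;> positivity
  have hb : ∀ q, ‖blk χ X W t u f h q‖ ^ 2 ≤ c2 q * ((X.card * W.card) * (F q * G q)) := by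
    intro q
    have e1 : ∑ a ∈ X.image (fun x => -x), ‖h (-a, q.2.2.1, q.2.2.2)‖ ^ 2 = G q := by
      rw [sum_image fun x _ y _ hxy => neg_injective hxy, hG]
      exact sum_congr rfl fun x _ => by rw [neg_neg]
    have e2 : ∑ w ∈ W, ‖f (q.1, q.2.1, w)‖ ^ 2 = F q := by rw [hF]
    rw [hc2]
    simp only
    split_ifs with hq
    · have := trivial_form χ (X.image fun x => -x) W (sh t u q) u
        (fun a => h (-a, q.2.2.1, q.2.2.2)) (fun w => f (q.1, q.2.1, w))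
      rw [e1, e2, hXc] at this
      unfold blk
      refine this.trans (le_of_eq (by ring))
    · have := good_form χ (X.image fun x => -x) W (sh t u q) u hu η hη hq
        (fun a => h (-a, q.2.2.1, q.2.2.2)) (fun w => f (q.1, q.2.1, w))
      rw [e1, e2, hXc] at this
      unfold blk
      refine this.trans (le_of_eq (by ring))
  have hb2 : ∀ q, ‖blk χ X W t u f h q‖ ≤ Real.sqrt (c2 q) *
      Real.sqrt ((X.card * W.card) * (F q * G q)) := by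
    intro q
    rw [← Real.sqrt_mul (hc20 q)]
    exact Real.le_sqrt_of_sq_le (hb q)
  have hpos : ∀ q, 0 ≤ (X.card * W.card : ℝ) * (F q * G q) := by
    intro q
    have := hF0 q
    have := hG0 q
    positivity
  have h1 : ‖∑ q ∈ Q, blk χ X W t u f h q‖ ^ 2 ≤
      (∑ q ∈ Q, c2 q) * ∑ q ∈ Q, (X.card * W.card : ℝ) * (F q * G q) := by
    calc _ ≤ (∑ q ∈ Q, Real.sqrt (c2 q) * Real.sqrt ((X.card * W.card) * (F q * G q))) ^ 2 :=
          pow_le_pow_left₀ (norm_nonneg _)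
            ((norm_sum_le _ _).trans (sum_le_sum fun q _ => hb2 q)) 2
      _ ≤ (∑ q ∈ Q, Real.sqrt (c2 q) ^ 2) *
          ∑ q ∈ Q, Real.sqrt ((X.card * W.card) * (F q * G q)) ^ 2 :=
          sum_mul_sq_le_sq_mul_sq _ _ _
      _ = _ := by
          congr 1
          · exact sum_congr rfl fun q _ => Real.sq_sqrt (hc20 q)
          · exact sum_congr rfl fun q _ => Real.sq_sqrt (hpos q)
  have hQc : (Q.card : ℝ) = X.card * (Y.card * (Y.card * W.card)) := by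
    rw [hQ, card_product, card_product, card_product]; push_cast; ring
  have h2 : ∑ q ∈ Q, c2 q ≤ 2 * η ^ 2 * (X.card * (Y.card * (Y.card * W.card))) := by
    have h3 : ∑ q ∈ Q, c2 q ≤ ∑ q ∈ Q, ((if (sh t u q, u) ∈ Bd χ (X.image fun x => -x) W η
        then (1 : ℝ) else 0) + η ^ 2) := by
      refine sum_le_sum fun q _ => ?_
      rw [hc2]
      simp only
      split_ifs
      · have := sq_nonneg η; linarith
      · linarith
    rw [sum_add_distrib, ← sum_filter, sum_const, sum_const, nsmul_eq_mul, nsmul_eq_mul, mul_one,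
      hQc] at h3
    rw [← hQ] at hbad
    linarith
  have h3 : ∑ q ∈ Q, (X.card * W.card : ℝ) * (F q * G q) = (X.card * W.card) *
      ((∑ v ∈ X ×ˢ Y ×ˢ W, ‖f v‖ ^ 2) * ∑ v ∈ X ×ˢ Y ×ˢ W, ‖h v‖ ^ 2) := by
    rw [← mul_sum]
    congr 1
    have e1 : ∑ v ∈ X ×ˢ Y ×ˢ W, ‖f v‖ ^ 2 = ∑ x ∈ X, ∑ y ∈ Y, ∑ w ∈ W, ‖f (x, y, w)‖ ^ 2 := by
      rw [sum_product]
      exact sum_congr rfl fun x _ => sum_product _ _ _
    have e2 : ∑ v ∈ X ×ˢ Y ×ˢ W, ‖h v‖ ^ 2 = ∑ y ∈ Y, ∑ w ∈ W, ∑ x ∈ X, ‖h (x, y, w)‖ ^ 2 := by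
      rw [sum_product_right, sum_product]
    have e3 : ∑ q ∈ Q, F q * G q = ∑ x ∈ X, ∑ y ∈ Y, ∑ y' ∈ Y, ∑ w' ∈ W,
        (∑ w ∈ W, ‖f (x, y, w)‖ ^ 2) * ∑ x' ∈ X, ‖h (x', y', w')‖ ^ 2 := by
      rw [hQ, sum_product]
      refine sum_congr rfl fun x _ => ?_
      rw [sum_product]
      refine sum_congr rfl fun y _ => ?_
      rw [sum_product]
      refine sum_congr rfl fun y' _ => sum_congr rfl fun w' _ => ?_
      rw [hF, hG]
    rw [e3, e1, e2, sum_mul]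
    refine sum_congr rfl fun x _ => ?_
    rw [sum_mul]
    refine sum_congr rfl fun y _ => ?_
    rw [mul_sum]
    refine sum_congr rfl fun y' _ => ?_
    rw [mul_sum]
  rw [expand, ← hQ]
  refine h1.trans ?_
  rw [h3]
  have hn : 0 ≤ (X.card * W.card : ℝ) *
      ((∑ v ∈ X ×ˢ Y ×ˢ W, ‖f v‖ ^ 2) * ∑ v ∈ X ×ˢ Y ×ˢ W, ‖h v‖ ^ 2) := by positivity
  refine (mul_le_mul_of_nonneg_right h2 hn).trans (le_of_eq ?_)
  ring

open Classical in
/-- the number of pairs with many bad blocks -/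
lemma bad_pairs (E : Set (ZMod p × ZMod p)) (X Y W : Finset (ZMod p)) (η : ℝ) (hη : 0 < η)
    (hX : 0 < (X.card : ℝ)) (hY : 2 ≤ η ^ 2 * Y.card) (hW : 0 < (W.card : ℝ)) :
    (({g : ZMod p × ZMod p | η ^ 2 * (X.card * (Y.card * (Y.card * W.card))) <
      (((X ×ˢ Y ×ˢ Y ×ˢ W).filter fun q => (sh g.1 g.2 q, g.2) ∈ E).card : ℝ)}.ncard : ℕ) : ℝ) *
        η ^ 2 ≤ 2 * E.ncard := by
  obtain ⟨T, hT⟩ : ∃ T : Finset (ZMod p × ZMod p), T = univ.filter fun g =>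
    η ^ 2 * (X.card * (Y.card * (Y.card * W.card))) <
      (((X ×ˢ Y ×ˢ Y ×ˢ W).filter fun q => (sh g.1 g.2 q, g.2) ∈ E).card : ℝ) := ⟨_, rfl⟩
  have hTn : {g : ZMod p × ZMod p | η ^ 2 * (X.card * (Y.card * (Y.card * W.card))) <
      (((X ×ˢ Y ×ˢ Y ×ˢ W).filter fun q => (sh g.1 g.2 q, g.2) ∈ E).card : ℝ)} =
        (T : Set (ZMod p × ZMod p)) := by
    rw [hT, coe_filter]
    simp
  rw [hTn, Set.ncard_coe_finset]
  obtain ⟨Q, hQ⟩ : ∃ Q, Q = X ×ˢ Y ×ˢ Y ×ˢ W := ⟨_, rfl⟩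
  obtain ⟨N, hN⟩ : ∃ N : ℝ, N = X.card * (Y.card * (Y.card * W.card)) := ⟨_, rfl⟩
  have hQc : (Q.card : ℝ) = N := by
    rw [hQ, hN, card_product, card_product, card_product]; push_cast; ring
  rw [← hN, ← hQ] at hT
  have hY0 : 0 < (Y.card : ℝ) := by
    by_contra h
    have : η ^ 2 * (Y.card : ℝ) ≤ 0 := mul_nonpos_of_nonneg_of_nonpos (by positivity) (not_lt.1 h)
    linarith
  have hN0 : 0 < N := by rw [hN]; positivity
  -- the diagonal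
  have hdiag : ((Q.filter fun q => q.2.1 = q.2.2.1).card : ℝ) ≤ X.card * (Y.card * W.card) := by
    have h1 : (Q.filter fun q => q.2.1 = q.2.2.1).card ≤ (X ×ˢ Y ×ˢ W).card := by
      refine card_le_card_of_injOn (fun q => (q.1, q.2.1, q.2.2.2)) ?_ ?_
      · intro q hq
        rw [mem_coe, mem_filter, hQ] at hq
        simp only [mem_product] at hq
        rw [mem_coe, mem_product, mem_product]
        exact ⟨hq.1.1, hq.1.2.1, hq.1.2.2.2⟩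
      · intro q hq q' hq' h
        rw [mem_coe, mem_filter] at hq hq'
        simp only [Prod.mk.injEq] at h
        obtain ⟨e1, e2, e3⟩ := h
        refine Prod.ext e1 (Prod.ext e2 (Prod.ext ?_ e3))
        rw [← hq.2, ← hq'.2, e2]
    rw [card_product, card_product] at h1
    exact_mod_cast h1
  have hdiag2 : (X.card * (Y.card * W.card) : ℝ) ≤ η ^ 2 / 2 * N := by
    rw [hN]
    have h1 : (X.card * (Y.card * W.card) : ℝ) * 2 ≤
        (X.card * (Y.card * W.card) : ℝ) * (η ^ 2 * Y.card) :=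
      mul_le_mul_of_nonneg_left hY (by positivity)
    linarith
  have hlow : ∀ g ∈ T, η ^ 2 / 2 * N ≤
      ((Q.filter fun q => q.2.1 ≠ q.2.2.1 ∧ (sh g.1 g.2 q, g.2) ∈ E).card : ℝ) := by
    intro g hg
    rw [hT, mem_filter] at hg
    have h1 := hg.2
    have h2 : (Q.filter fun q => (sh g.1 g.2 q, g.2) ∈ E).card ≤
        (Q.filter fun q => q.2.1 = q.2.2.1).card +
          (Q.filter fun q => q.2.1 ≠ q.2.2.1 ∧ (sh g.1 g.2 q, g.2) ∈ E).card := by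
      refine (card_le_card fun q hq => ?_).trans (card_union_le _ _)
      rw [mem_filter] at hq
      rw [mem_union, mem_filter, mem_filter]
      by_cases hqq : q.2.1 = q.2.2.1
      · exact Or.inl ⟨hq.1, hqq⟩
      · exact Or.inr ⟨hq.1, hqq, hq.2⟩
    have h3 : ((Q.filter fun q => (sh g.1 g.2 q, g.2) ∈ E).card : ℝ) ≤
        ((Q.filter fun q => q.2.1 = q.2.2.1).card : ℝ) +
          ((Q.filter fun q => q.2.1 ≠ q.2.2.1 ∧ (sh g.1 g.2 q, g.2) ∈ E).card : ℝ) := by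
      exact_mod_cast h2
    linarith
  have hsum : (T.card : ℝ) * (η ^ 2 / 2 * N) ≤ N * E.ncard := by
    have h1 := card_nsmul_le_sum T _ _ hlow
    rw [nsmul_eq_mul] at h1
    refine h1.trans ?_
    have h2 : ∑ g ∈ T, ((Q.filter fun q => q.2.1 ≠ q.2.2.1 ∧
        (sh g.1 g.2 q, g.2) ∈ E).card : ℝ) =
        ∑ q ∈ Q, ((T.filter fun g => q.2.1 ≠ q.2.2.1 ∧ (sh g.1 g.2 q, g.2) ∈ E).card : ℝ) := by
      simp only [card_filter]
      push_cast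
      exact sum_comm
    rw [h2, ← hQc, ← nsmul_eq_mul]
    refine sum_le_card_nsmul _ _ _ fun q _ => ?_
    have h3 : (T.filter fun g => q.2.1 ≠ q.2.2.1 ∧ (sh g.1 g.2 q, g.2) ∈ E).card ≤ E.ncard := by
      rw [← Set.ncard_coe_finset]
      refine Set.ncard_le_ncard_of_injOn (fun g => (sh g.1 g.2 q, g.2)) ?_ ?_ (Set.toFinite _)
      · intro g hg
        rw [mem_coe, mem_filter] at hg
        exact hg.2.2
      · intro g hg g' hg' h
        rw [mem_coe, mem_filter] at hg hg'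
        simp only [Prod.mk.injEq] at h
        obtain ⟨e1, e2⟩ := h
        refine Prod.ext ?_ e2
        unfold sh at e1
        rw [e2] at e1
        have hne : q.2.1 - q.2.2.1 ≠ 0 := sub_ne_zero.2 hg.2.1
        have e3 : g.1 * (q.2.1 - q.2.2.1) = g'.1 * (q.2.1 - q.2.2.1) := by
          linear_combination e1
        exact mul_right_cancel₀ hne e3
    exact_mod_cast h3
  have h4 : ((T.card : ℝ) * η ^ 2) * (N / 2) ≤ (2 * E.ncard) * (N / 2) := by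
    calc _ = (T.card : ℝ) * (η ^ 2 / 2 * N) := by ring
      _ ≤ N * E.ncard := hsum
      _ = _ := by ring
  exact le_of_mul_le_mul_right h4 (by positivity)

end

end Pool.Agent.R111.PG
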