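import Pool.Agent.R111.PG.Triple

set_option autoImplicit false

/-! # Difference sums over all large subsets of the sets `X + t Y + u W` -/

open Finset

namespace Pool.Agent.R111.PG

open Pool.Agent.H435R3.Paley (exists_large)

section
variable {p : ℕ} [Fact p.Prime]

lemma Bd_mono (χ : DirichletCharacter ℂ p) (A B : Finset (ZMod p)) (η η' : ℝ) (h : η' ≤ η) :
    Bd χ A B η ⊆ Bd χ A B η' := by
  rintro g ⟨hg, α, β, hαβ⟩
  exact ⟨hg, α, β, lt_of_le_of_lt (mul_le_mul_of_nonneg_right h (by positivity)) hαβ⟩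

open Classical in
/-- the form at the indicator function of a set of representatives -/
lemma sum_reps (χ : DirichletCharacter ℂ p) (X Y W D : Finset (ZMod p)) (t u : ZMod p)
    (hD : D ⊆ (X ×ˢ Y ×ˢ W).image (pj t u)) : ∃ f : ZMod p × ZMod p × ZMod p → ℂ,
      ∑ v ∈ X ×ˢ Y ×ˢ W, ‖f v‖ ^ 2 = D.card ∧
      ∑ v ∈ X ×ˢ Y ×ˢ W, ∑ v' ∈ X ×ˢ Y ×ˢ W, f v * f v' * χ (pj t u v - pj t u v') =
        ∑ a ∈ D, ∑ b ∈ D, χ (a - b) := by
  obtain ⟨P, hP⟩ : ∃ P, P = X ×ˢ Y ×ˢ W := ⟨_, rfl⟩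
  rw [← hP] at hD ⊢
  have hex : ∀ d : ZMod p, ∃ v : ZMod p × ZMod p × ZMod p, d ∈ D → v ∈ P ∧ pj t u v = d := by
    intro d
    by_cases hd : d ∈ D
    · have := hD hd
      rw [mem_image] at this
      obtain ⟨v, hv, hv2⟩ := this
      exact ⟨v, fun _ => ⟨hv, hv2⟩⟩
    · exact ⟨(0, 0, 0), fun h => absurd h hd⟩
  choose ρ hρ using hex
  obtain ⟨R, hR⟩ : ∃ R, R = D.image ρ := ⟨_, rfl⟩
  have hinj : Set.InjOn ρ D := by
    intro d hd d' hd' h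
    rw [← (hρ d hd).2, ← (hρ d' hd').2, h]
  have hRc : R.card = D.card := by rw [hR]; exact card_image_of_injOn hinj
  have hRP : R ⊆ P := by
    intro v hv
    rw [hR, mem_image] at hv
    obtain ⟨d, hd, rfl⟩ := hv
    exact (hρ d hd).1
  have hfilt : P.filter (fun v => v ∈ R) = R := by
    ext v
    rw [mem_filter]
    exact ⟨fun h => h.2, fun h => ⟨hRP h, h⟩⟩
  refine ⟨fun v => if v ∈ R then 1 else 0, ?_, ?_⟩
  · have h2 : ∀ v ∈ P, ‖(if v ∈ R then (1 : ℂ) else 0)‖ ^ 2 = if v ∈ R then (1 : ℝ) else 0 := by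
      intro a _
      split_ifs <;> simp
    rw [sum_congr rfl h2, ← sum_filter, sum_const, nsmul_eq_mul, mul_one, hfilt, hRc]
  · have h3 : ∀ v ∈ P, ∑ v' ∈ P, (if v ∈ R then (1 : ℂ) else 0) * (if v' ∈ R then (1 : ℂ) else 0) *
        χ (pj t u v - pj t u v') =
          if v ∈ R then ∑ v' ∈ R, χ (pj t u v - pj t u v') else 0 := by
      intro v _
      split_ifs with hv
      · simp only [one_mul, ite_mul, zero_mul]
        rw [← sum_filter, hfilt]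
      · simp
    rw [sum_congr rfl h3, ← sum_filter, hfilt, hR, sum_image hinj]
    refine sum_congr rfl fun d hd => ?_
    rw [sum_image hinj]
    refine sum_congr rfl fun d' hd' => ?_
    rw [(hρ d hd).2, (hρ d' hd').2]

end

/-- the numbers -/
lemma num_final (P M d η δ τ : ℝ) (hP : 1 ≤ P) (hM1 : 1 ≤ M) (hM : M ≤ P ^ 3) (hd1 : 1 ≤ d)
    (hd : d ≤ P) (hδ : 0 < δ) (hτ : τ = δ / 8) (hτ1 : τ ≤ 1) (hη : η = P ^ (-δ)) (h3 : 3 ≤ P ^ δ)
    (hMd : M ^ (1 - τ) ≤ d) : 2 * η ^ 2 * M ^ 2 * (d * d) < (d ^ (2 - τ)) ^ 2 := by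
  have hP0 : 0 < P := by linarith
  have hM0 : 0 < M := by linarith
  have hd0 : 0 < d := by linarith
  have hτ0 : 0 < τ := by rw [hτ]; positivity
  have k1 : M ≤ P ^ (3 * τ) * d := by
    calc M = M ^ τ * M ^ (1 - τ) := by
          rw [← Real.rpow_add hM0]
          rw [show τ + (1 - τ) = 1 by ring, Real.rpow_one]
      _ ≤ (P ^ 3) ^ τ * d := mul_le_mul (Real.rpow_le_rpow hM0.le hM hτ0.le) hMd
          (by positivity) (by positivity)
      _ = P ^ (3 * τ) * d := by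
          rw [← Real.rpow_natCast, ← Real.rpow_mul hP0.le]
          norm_num
  have k2 : d ^ τ ≤ P ^ τ := Real.rpow_le_rpow hd0.le hd hτ0.le
  have k3 : d ^ (2 - τ) * d ^ τ = d ^ 2 := by
    rw [← Real.rpow_add hd0]
    rw [show 2 - τ + τ = ((2 : ℕ) : ℝ) by norm_num, Real.rpow_natCast]
  -- `η M ≤ P^(-δ + 3τ) d`, and `d^2 ≤ d^(2-τ) P^τ`
  have k4 : η * M ≤ P ^ (-δ + 3 * τ) * d := by
    rw [hη, Real.rpow_add hP0, mul_assoc]
    exact mul_le_mul_of_nonneg_left k1 (by positivity)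
  have k5 : d ^ 2 ≤ d ^ (2 - τ) * P ^ τ := by
    rw [← k3]
    exact mul_le_mul_of_nonneg_left k2 (by positivity)
  have hη0 : 0 < η := by rw [hη]; positivity
  have k6 : η * M * d ≤ P ^ (-δ + 4 * τ) * d ^ (2 - τ) := by
    calc η * M * d ≤ P ^ (-δ + 3 * τ) * d * d := mul_le_mul_of_nonneg_right k4 hd0.le
      _ = P ^ (-δ + 3 * τ) * d ^ 2 := by ring
      _ ≤ P ^ (-δ + 3 * τ) * (d ^ (2 - τ) * P ^ τ) := mul_le_mul_of_nonneg_left k5 (by positivity)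
      _ = (P ^ (-δ + 3 * τ) * P ^ τ) * d ^ (2 - τ) := by ring
      _ = P ^ (-δ + 4 * τ) * d ^ (2 - τ) := by
          rw [← Real.rpow_add hP0]
          congr 2
          ring
  have k7 : 2 * (P ^ (-δ + 4 * τ)) ^ 2 < 1 := by
    have e : (P ^ (-δ + 4 * τ)) ^ 2 * P ^ δ = 1 := by
      rw [← Real.rpow_natCast, ← Real.rpow_mul hP0.le, ← Real.rpow_add hP0]
      rw [show (-δ + 4 * τ) * ((2 : ℕ) : ℝ) + δ = 0 by rw [hτ]; push_cast; ring, Real.rpow_zero]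
    have h4 : 0 < (P ^ (-δ + 4 * τ)) ^ 2 := by positivity
    have h5 := mul_le_mul_of_nonneg_left h3 h4.le
    rw [e] at h5
    linarith
  have k8 : 0 < (d ^ (2 - τ)) ^ 2 := by positivity
  calc 2 * η ^ 2 * M ^ 2 * (d * d) = 2 * (η * M * d) ^ 2 := by ring
    _ ≤ 2 * (P ^ (-δ + 4 * τ) * d ^ (2 - τ)) ^ 2 :=
        mul_le_mul_of_nonneg_left (pow_le_pow_left₀ (by positivity) k6 2) (by norm_num)
    _ = 2 * (P ^ (-δ + 4 * τ)) ^ 2 * (d ^ (2 - τ)) ^ 2 := by ring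
    _ < 1 * (d ^ (2 - τ)) ^ 2 := mul_lt_mul_of_pos_right k7 k8
    _ = _ := one_mul _

/-- the power saving for all large subsets of `X + t Y + u W`, for all but few `(t, u)` -/
theorem few_triple (ε : ℝ) (hε : 0 < ε) : ∃ c : ℝ, 0 < c ∧ ∃ τ : ℝ, 0 < τ ∧ ∃ P : ℕ,
    ∀ p : ℕ, p.Prime → P ≤ p → ∀ χ : DirichletCharacter ℂ p, χ ≠ 1 →
    ∀ X Y W : Finset (ZMod p), (p : ℝ) ^ ε ≤ X.card → (p : ℝ) ^ ε ≤ Y.card →
      (p : ℝ) ^ ε ≤ W.card →
      (({g : ZMod p × ZMod p | g.2 ≠ 0 ∧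
        ∃ D ⊆ (X ×ˢ Y ×ˢ W).image (fun v => v.1 + g.1 * v.2.1 + g.2 * v.2.2),
          ((X.card * Y.card * W.card : ℕ) : ℝ) ^ (1 - τ) ≤ D.card ∧
          (D.card : ℝ) ^ (2 - τ) ≤ ‖∑ a ∈ D, ∑ b ∈ D, χ (a - b)‖}.ncard : ℕ) : ℝ) ≤
        (p : ℝ) ^ (1 - c) := by
  classical
  obtain ⟨c, hc, δ, hδ, p₁, h⟩ := few_affine ε hε
  obtain ⟨δ', hδ'⟩ : ∃ δ' : ℝ, δ' = min δ (min (ε / 4) (min (c / 8) 1)) := ⟨_, rfl⟩
  have hδ'0 : 0 < δ' := by rw [hδ']; positivity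
  have hδ1 : δ' ≤ δ := by rw [hδ']; exact min_le_left _ _
  have hδ2 : δ' ≤ ε / 4 := by rw [hδ']; exact (min_le_right _ _).trans (min_le_left _ _)
  have hδ3 : δ' ≤ c / 8 := by
    rw [hδ']
    exact (min_le_right _ _).trans ((min_le_right _ _).trans (min_le_left _ _))
  have hδ4 : δ' ≤ 1 := by
    rw [hδ']
    exact (min_le_right _ _).trans ((min_le_right _ _).trans (min_le_right _ _))
  obtain ⟨p₂, hp₂2, hp₂⟩ := exists_large 3 δ' hδ'0
  obtain ⟨p₃, hp₃2, hp₃⟩ := exists_large 2 (ε / 2) (by positivity)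
  obtain ⟨p₄, hp₄2, hp₄⟩ := exists_large 2 (c / 4) (by positivity)
  refine ⟨c / 2, by positivity, δ' / 8, by positivity, p₁ + p₂ + p₃ + p₄,
    fun p hpp hp χ hχ X Y W hX hY hW => ?_⟩
  have : Fact p.Prime := ⟨hpp⟩
  have hp2 : (2 : ℝ) ≤ p := by exact_mod_cast (Fact.out : p.Prime).two_le
  have hp0 : (0 : ℝ) < p := by linarith
  have hp1 : (1 : ℝ) ≤ p := by linarith
  have hmono : ∀ x y : ℝ, x ≤ y → (p : ℝ) ^ x ≤ (p : ℝ) ^ y := fun x y h =>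
    Real.rpow_le_rpow_of_exponent_le hp1 h
  have hX0 : (0 : ℝ) < X.card := lt_of_lt_of_le (by positivity) hX
  have hY0 : (0 : ℝ) < Y.card := lt_of_lt_of_le (by positivity) hY
  have hW0 : (0 : ℝ) < W.card := lt_of_lt_of_le (by positivity) hW
  obtain ⟨η, hη⟩ : ∃ η : ℝ, η = (p : ℝ) ^ (-δ') := ⟨_, rfl⟩
  have hη0 : 0 < η := by rw [hη]; positivity
  have hη2 : η ^ 2 = (p : ℝ) ^ (-(2 * δ')) := by
    rw [hη, ← Real.rpow_natCast, ← Real.rpow_mul hp0.le]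
    congr 1
    push_cast
    ring
  have hXc : (X.image fun x => -x).card = X.card := card_image_of_injective _ neg_injective
  have hE : ((Bd χ (X.image fun x => -x) W η).ncard : ℝ) ≤ (p : ℝ) ^ (1 - c) := by
    have h1 := h p (by omega) χ hχ (X.image fun x => -x) W (by rw [hXc]; exact hX) hW
    refine le_trans (Nat.cast_le.2 (Set.ncard_le_ncard (Bd_mono χ _ W η ((p : ℝ) ^ (-δ)) ?_)
      (Set.toFinite _))) h1
    rw [hη]
    exact hmono _ _ (by linarith)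
  have hYη : 2 ≤ η ^ 2 * Y.card := by
    rw [hη2]
    calc (2 : ℝ) ≤ (p : ℝ) ^ (ε / 2) := hp₃ p (by omega)
      _ ≤ (p : ℝ) ^ (-(2 * δ') + ε) := hmono _ _ (by linarith)
      _ = (p : ℝ) ^ (-(2 * δ')) * (p : ℝ) ^ ε := Real.rpow_add hp0 _ _
      _ ≤ _ := mul_le_mul_of_nonneg_left hY (by positivity)
  have hbad := bad_pairs (Bd χ (X.image fun x => -x) W η) X Y W η hη0 hX0 hYη hW0
  obtain ⟨T, hT⟩ : ∃ T : Set (ZMod p × ZMod p), T = {g : ZMod p × ZMod p |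
    η ^ 2 * (X.card * (Y.card * (Y.card * W.card))) < (((X ×ˢ Y ×ˢ Y ×ˢ W).filter fun q =>
      (sh g.1 g.2 q, g.2) ∈ Bd χ (X.image fun x => -x) W η).card : ℝ)} := ⟨_, rfl⟩
  rw [← hT] at hbad
  have hTc : (T.ncard : ℝ) ≤ (p : ℝ) ^ (1 - c / 2) := by
    have h1 : (T.ncard : ℝ) * η ^ 2 ≤ (p : ℝ) ^ (1 - c / 2) * η ^ 2 := by
      refine hbad.trans ?_
      rw [hη2, ← Real.rpow_add hp0]
      calc 2 * ((Bd χ (X.image fun x => -x) W η).ncard : ℝ) ≤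
            (p : ℝ) ^ (c / 4) * (p : ℝ) ^ (1 - c) :=
            mul_le_mul (hp₄ p (by omega)) hE (by positivity) (by positivity)
        _ = (p : ℝ) ^ (c / 4 + (1 - c)) := (Real.rpow_add hp0 _ _).symm
        _ ≤ _ := hmono _ _ (by linarith)
    exact le_of_mul_le_mul_right h1 (by positivity)
  refine le_trans (Nat.cast_le.2 (Set.ncard_le_ncard ?_ (Set.toFinite _))) hTc
  rintro ⟨t, u⟩ ⟨hu, D, hDs, hD1, hD2⟩
  by_contra hg
  rw [hT, Set.mem_setOf_eq, not_lt] at hg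
  have hg2 := hg
  obtain ⟨f, hf1, hf2⟩ := sum_reps χ X Y W D t u hDs
  have h1 := form_triple χ X Y W t u hu η hη0.le f f hg2
  rw [hf2, hf1] at h1
  obtain ⟨M, hM⟩ : ∃ M : ℝ, M = ((X.card * Y.card * W.card : ℕ) : ℝ) := ⟨_, rfl⟩
  have hM' : M = X.card * (Y.card * W.card) := by rw [hM]; push_cast; ring
  rw [← hM'] at h1
  rw [← hM] at hD1
  have hcast : ∀ S : Finset (ZMod p), (S.card : ℝ) ≤ p := by
    intro S
    have := card_le_univ S
    rw [ZMod.card] at this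
    exact_mod_cast this
  have hM1 : 1 ≤ M := by
    rw [hM]
    have : 0 < X.card * Y.card * W.card := by
      have := (Nat.cast_pos (α := ℝ)).1 hX0
      have := (Nat.cast_pos (α := ℝ)).1 hY0
      have := (Nat.cast_pos (α := ℝ)).1 hW0
      positivity
    exact_mod_cast this
  have hM3 : M ≤ (p : ℝ) ^ 3 := by
    rw [hM']
    calc (X.card * (Y.card * W.card) : ℝ) ≤ p * (p * p) :=
          mul_le_mul (hcast X) (mul_le_mul (hcast Y) (hcast W) hW0.le hp0.le)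
            (by positivity) hp0.le
      _ = (p : ℝ) ^ 3 := by ring
  have hd0 : (0 : ℝ) < D.card := by
    have : (0 : ℝ) < M ^ (1 - δ' / 8) := by positivity
    linarith
  have hd1 : (1 : ℝ) ≤ D.card := by
    have : 0 < D.card := by exact_mod_cast hd0
    exact_mod_cast this
  have h2 := num_final p M D.card η δ' (δ' / 8) hp1 hM1 hM3 hd1 (hcast D) hδ'0 rfl (by linarith)
    hη (hp₂ p (by omega)) hD1
  have h3 : ((D.card : ℝ) ^ (2 - δ' / 8)) ^ 2 ≤ ‖∑ a ∈ D, ∑ b ∈ D, χ (a - b)‖ ^ 2 :=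
    pow_le_pow_left₀ (by positivity) hD2 2
  linarith

end Pool.Agent.R111.PG
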